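import Pool.Agent.Y499.HC.Stm2

/-! # Fillings of round spheres with slices conformal to split metrics: definitions, parts -/

set_option autoImplicit false

open Real Set MeasureTheory Metric
open scoped ENNReal

namespace Pool.Agent.L7h41.CS

open Pool.Agent.Y499.HC Pool.Agent.Y499.HR

/-- A splitting of the tangent spaces of the unit sphere `S^d` into orthogonal subspaces of the
dimensions `#{i | blk i = j}`. The number `q j x v` is the square of the length of the component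
number `j` of the tangent vector `v` at `x`. These numbers are constant along the great circles. -/
structure Splitting {d : ℕ} {ι : Type} [DecidableEq ι] (blk : Fin d → ι)
    (q : ι → EuclideanSpace ℝ (Fin (d + 1)) → EuclideanSpace ℝ (Fin (d + 1)) → ℝ) : Prop where
  cont : ∀ j, Continuous fun p : EuclideanSpace ℝ (Fin (d + 1)) × EuclideanSpace ℝ (Fin (d + 1)) =>
    q j p.1 p.2
  frame : ∀ x ∈ sphere (0 : EuclideanSpace ℝ (Fin (d + 1))) 1,
    ∃ b : Fin d → EuclideanSpace ℝ (Fin (d + 1)), Orthonormal ℝ b ∧ (∀ i, inner ℝ x (b i) = 0) ∧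
      ∀ j, ∀ v : EuclideanSpace ℝ (Fin (d + 1)), inner ℝ x v = 0 →
        q j x v = ∑ i, if blk i = j then inner ℝ (b i) v ^ 2 else 0
  flow : ∀ j, ∀ x v : EuclideanSpace ℝ (Fin (d + 1)), ‖x‖ = 1 → ‖v‖ = 1 → inner ℝ x v = 0 →
    ∀ θ : ℝ, q j (Real.cos θ • x + Real.sin θ • v) (Real.cos θ • v - Real.sin θ • x) = q j x v

/-- PART CHAIN (helper17): the one-dimensional chain `weighted`, `H_nonneg`, `mean_int_ge`,
`lint_ge`, `isRound_of_energy` (first half) of `Pool.Agent.Y499.HC.{Ineq, FinalR}` for an arbitrary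
function `M` in place of `mean μ m`. -/
def S_CHAIN : Prop := ∀ (d : ℕ), 2 ≤ d → ∀ (R : ℝ), 0 < R → R ≤ π / 2 → ∀ M : ℝ → ℝ,
  ContinuousOn M (Ico 0 R) → (∀ s ∈ Ico 0 R, 0 ≤ M s) →
  (∀ α ∈ Ioo 0 R, 0 ≤ ∫ τ in (0 : ℝ)..π, 1 / C α τ ^ (d + 2) *
    (M (max 0 (min (S α τ) α)) - C α τ ^ d)) →
  ENNReal.ofReal (∫ s in (0 : ℝ)..R, Real.cos s ^ d) ≤ ∫⁻ s in Ioo 0 R, ENNReal.ofReal (M s) ∧
  (∫⁻ s in Ioo 0 R, ENNReal.ofReal (M s) = ENNReal.ofReal (∫ s in (0 : ℝ)..R, Real.cos s ^ d) →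
    ∀ s ∈ Ioo 0 R, M s = Real.cos s ^ d)

end Pool.Agent.L7h41.CS
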