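import Pool.Agent.L7h41.CS.Stm
import Pool.Agent.L7h48.HF.Grp
import Pool.Agent.Y249.HC.Avg
import Pool.Agent.Y499.HC.Main

/-! # Averages over the frames of functions of the type and of a point -/

set_option autoImplicit false

open Real Set MeasureTheory Metric
open scoped ENNReal

namespace Pool.Agent.L7h41.CS

open Pool.Agent.Y499.HC Pool.Agent.Y499.HR Pool.Agent.L7h48.HF
open Pool.Agent.Y502.HC hiding continuous_vecF
open Pool.Agent.Y249.HC (R2_mem R2_rot0 R2_rot1 integ cont_vec)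

variable {d : ℕ} {ι : Type} [DecidableEq ι] {blk : Fin d → ι} {q : ι → E d → E d → ℝ}

lemma ne01 (hd : 1 ≤ d) : (0 : Fin (d + 1)) ≠ 1 := by
  intro h
  have h1 := congrArg Fin.val h
  rw [Fin.val_zero, Fin.val_one'] at h1
  rw [Nat.mod_eq_of_lt (by omega)] at h1
  omega

/-- The component number `j` of the second vector of a frame at the first one. -/
noncomputable def tt (q : ι → E d → E d → ℝ) (j : ι) (b : Fr d) : ℝ := q j (b.1 0) (b.1 1)

lemma tt_cont (hq : Splitting blk q) (j : ι) : Continuous (tt q j) :=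
  (hq.cont j).comp ((cont_vec 0).prodMk (cont_vec 1))

lemma cs1 (θ : ℝ) : cos θ ^ 2 + sin θ ^ 2 = 1 := by
  have := sin_sq_add_cos_sq θ
  linarith

lemma tt_rot (hd : 1 ≤ d) (hq : Splitting blk q) (j : ι) (θ : ℝ) (b : Fr d) :
    tt q j (rotF ⟨_, R2_mem hd (cos θ) (sin θ) (cs1 θ)⟩ b) = tt q j b := by
  unfold tt
  rw [R2_rot0 hd (cos θ) (sin θ) (cs1 θ) b, R2_rot1 hd (cos θ) (sin θ) (cs1 θ) b]
  have h := hq.flow j (b.1 0) (b.1 1) (b.2.norm_eq_one 0) (b.2.norm_eq_one 1)
    (b.2.inner_eq_zero (ne01 hd)) θ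
  rw [← h]
  congr 1
  rw [neg_smul, sub_eq_add_neg, add_comm]

lemma avg_rot (hd : 1 ≤ d) {μ : Measure (Fr d)} (hμ : IsFrameMeasure d μ) (hq : Splitting blk q)
    (j : ι) {φ : ℝ → ℝ} (hφ : Continuous φ) {G : Sph d → ℝ} (hG : Continuous G) (θ : ℝ)
    (X : Fr d → Sph d) (hX : ∀ b, (X b : E d) = cos θ • b.1 0 + sin θ • b.1 1) :
    ∫ b, φ (tt q j b) * G (X b) ∂μ = ∫ b, φ (tt q j b) * G (vecF b 0) ∂μ := by
  have hF : Continuous fun b : Fr d => φ (tt q j b) * G (vecF b 0) :=
    (hφ.comp (tt_cont hq j)).mul (hG.comp (continuous_vecF 0))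
  have h := hμ.inv ⟨_, R2_mem hd (cos θ) (sin θ) (cs1 θ)⟩ _ hF
  rw [← h]
  refine integral_congr_ae (Filter.Eventually.of_forall fun b => ?_)
  simp only
  rw [tt_rot hd hq j θ b]
  congr 2
  apply Subtype.ext
  rw [hX b]
  exact (R2_rot0 hd (cos θ) (sin θ) (cs1 θ) b).symm

/-! ### The stabilizer of the first vector -/

/-- The first vector of the standard basis. -/
noncomputable def e0 (d : ℕ) : E d := EuclideanSpace.single 0 1

/-- The set of maps whose centralizer is the stabilizer. -/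
def T0 (d : ℕ) : Set (E d → E d) := {fun _ => e0 d}

instance compactT0 (d : ℕ) : CompactSpace (Ce (T0 d)) := by
  have h := Ce_closed (T0 d) (by
    intro A hA
    rw [T0, mem_singleton_iff] at hA
    rw [hA]
    exact continuous_const)
  exact isCompact_iff_compactSpace.mp h.isCompact

lemma mem_T0 {g : O d} : g ∈ Ce (T0 d) ↔ act g (e0 d) = e0 d := by
  rw [mem_Ce]
  constructor
  · intro h
    exact h _ (mem_singleton _) 0
  · intro h A hA v
    rw [T0, mem_singleton_iff] at hA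
    rw [hA]
    exact h

lemma T0_entry {g : O d} (hg : g ∈ Ce (T0 d)) (i : Fin (d + 1)) :
    (g : Matrix (Fin (d + 1)) (Fin (d + 1)) ℝ) i 0 = if i = 0 then 1 else 0 := by
  have h := congrArg (fun v : E d => v i) (mem_T0.1 hg)
  simp only at h
  rw [act_coord] at h
  simpa [e0, Pi.single_apply] using h

lemma mem_T0_of {g : O d}
    (hg : ∀ i, (g : Matrix (Fin (d + 1)) (Fin (d + 1)) ℝ) i 0 = if i = 0 then 1 else 0) :
    g ∈ Ce (T0 d) := by
  rw [mem_T0]
  ext i
  rw [act_coord]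
  simp [e0, Pi.single_apply, hg]

lemma rot_T0 {g : O d} (hg : g ∈ Ce (T0 d)) (b : Fr d) : (rotF g b).1 0 = b.1 0 := by
  show ∑ i, (g : Matrix (Fin (d + 1)) (Fin (d + 1)) ℝ) i 0 • b.1 i = b.1 0
  simp [T0_entry hg]

lemma rotF_mul (A B : O d) (b : Fr d) : rotF A (rotF B b) = rotF (B * A) b := by
  apply Subtype.ext
  funext j
  show ∑ i, (A : Matrix (Fin (d + 1)) (Fin (d + 1)) ℝ) i j •
      (∑ k, (B : Matrix (Fin (d + 1)) (Fin (d + 1)) ℝ) k i • b.1 k) =
    ∑ k, ((B * A : O d) : Matrix (Fin (d + 1)) (Fin (d + 1)) ℝ) k j • b.1 k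
  have e : ∀ k, ((B * A : O d) : Matrix (Fin (d + 1)) (Fin (d + 1)) ℝ) k j =
      ∑ i, (B : Matrix (Fin (d + 1)) (Fin (d + 1)) ℝ) k i *
        (A : Matrix (Fin (d + 1)) (Fin (d + 1)) ℝ) i j := fun k => Matrix.mul_apply
  simp only [e, Finset.smul_sum, Finset.sum_smul, smul_smul]
  rw [Finset.sum_comm]
  refine Finset.sum_congr rfl fun k _ => Finset.sum_congr rfl fun i _ => ?_
  rw [mul_comm]

/-- Two frames with the same first vector differ by an element of the stabilizer. -/
lemma exists_rot (b c : Fr d) (h : c.1 0 = b.1 0) : ∃ B : Ce (T0 d), rotF (B : O d) c = b := by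
  have hbas : ∀ v : E d, v = ∑ i, (inner ℝ (c.1 i) v : ℝ) • c.1 i := by
    intro v
    set cb : OrthonormalBasis (Fin (d + 1)) ℝ (E d) := OrthonormalBasis.mk c.2
      (c.2.linearIndependent.span_eq_top_of_card_eq_finrank (by simp)).ge with hcb
    have h1 := cb.sum_repr' v
    have h2 : ∀ i, cb i = c.1 i := fun i => by rw [hcb, OrthonormalBasis.coe_mk]
    simp only [h2] at h1
    exact h1.symm
  have hm : (Matrix.of fun i k => (inner ℝ (c.1 i) (b.1 k) : ℝ)) ∈
      Matrix.orthogonalGroup (Fin (d + 1)) ℝ := by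
    apply Pool.Agent.Y249.HC.mat_mem
    intro j k
    simp only [Matrix.of_apply]
    have h1 : inner ℝ (b.1 j) (b.1 k) = if j = k then (1 : ℝ) else 0 :=
      orthonormal_iff_ite.1 b.2 j k
    rw [← h1]
    conv_rhs => rw [hbas (b.1 j)]
    rw [sum_inner]
    refine Finset.sum_congr rfl fun i _ => ?_
    rw [inner_smul_left]
    simp
  refine ⟨⟨⟨_, hm⟩, mem_T0_of fun i => ?_⟩, ?_⟩
  · show (inner ℝ (c.1 i) (b.1 0) : ℝ) = _
    rw [← h]
    exact orthonormal_iff_ite.1 c.2 i 0
  · apply Subtype.ext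
    funext k
    show ∑ i, (inner ℝ (c.1 i) (b.1 k) : ℝ) • c.1 i = b.1 k
    exact (hbas (b.1 k)).symm

/-- The frame adapted to the splitting at a point. -/
lemma exists_adapted (hq : Splitting blk q) (x : E d) (hx : ‖x‖ = 1) :
    ∃ c : Fr d, c.1 0 = x ∧ ∀ j, ∀ v : E d, inner ℝ x v = 0 →
      q j x v = ∑ i : Fin d, if blk i = j then inner ℝ (c.1 i.succ) v ^ 2 else 0 := by
  obtain ⟨b, hb, hxb, hqb⟩ := hq.frame x (mem_sphere_zero_iff_norm.2 hx)
  refine ⟨⟨Fin.cons x b, ?_⟩, rfl, fun j v hv => ?_⟩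
  · rw [orthonormal_iff_ite]
    intro i j
    refine Fin.cases ?_ (fun i => ?_) i <;> refine Fin.cases ?_ (fun j => ?_) j
    · simp [hx]
    · simp [hxb, (Fin.succ_ne_zero j).symm]
    · have := hxb i
      rw [real_inner_comm] at this
      simp [this, Fin.succ_ne_zero]
    · have := orthonormal_iff_ite.1 hb i j
      simpa [Fin.succ_inj] using this
  · rw [hqb j v hv]
    simp

/-- Averages of functions of the type over the stabilizer do not depend on the frame. -/
lemma avg_type (hd : 1 ≤ d) (hq : Splitting blk q) (j : ι) (φ : ℝ → ℝ)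
    (b : Fr d) :
    ∫ A : Ce (T0 d), φ (tt q j (rotF (A : O d) b)) ∂(muT (T0 d)) =
      ∫ A : Ce (T0 d), φ (∑ i : Fin d, if blk i = j then
        ((A : O d) : Matrix (Fin (d + 1)) (Fin (d + 1)) ℝ) i.succ 1 ^ 2 else 0) ∂(muT (T0 d)) := by
  obtain ⟨c, hc0, hcq⟩ := exists_adapted hq (b.1 0) (b.2.norm_eq_one 0)
  obtain ⟨B, hB⟩ := exists_rot b c hc0
  have h1 : ∀ A : Ce (T0 d), tt q j (rotF (A : O d) b) = ∑ i : Fin d, if blk i = j then
      (((B * A : Ce (T0 d)) : O d) : Matrix (Fin (d + 1)) (Fin (d + 1)) ℝ) i.succ 1 ^ 2 else 0 := by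
    intro A
    have e1 : (rotF (A : O d) b).1 0 = b.1 0 := rot_T0 A.2 b
    have e2 : (rotF (A : O d) b).1 1 = (rotF ((B * A : Ce (T0 d)) : O d) c).1 1 := by
      rw [← hB, rotF_mul]
      rfl
    have e3 : inner ℝ (b.1 0) ((rotF (A : O d) b).1 1) = (0 : ℝ) := by
      rw [← e1]
      exact (rotF (A : O d) b).2.inner_eq_zero (ne01 hd)
    unfold tt
    rw [e1, hcq j _ e3, e2]
    refine Finset.sum_congr rfl fun i _ => ?_
    congr 1
    congr 1
    show inner ℝ (c.1 i.succ)
      (∑ k, (((B * A : Ce (T0 d)) : O d) : Matrix (Fin (d + 1)) (Fin (d + 1)) ℝ) k 1 • c.1 k) = _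
    rw [inner_sum]
    have h2 : ∀ k, inner ℝ (c.1 i.succ)
        ((((B * A : Ce (T0 d)) : O d) : Matrix (Fin (d + 1)) (Fin (d + 1)) ℝ) k 1 • c.1 k) =
        if i.succ = k then
          (((B * A : Ce (T0 d)) : O d) : Matrix (Fin (d + 1)) (Fin (d + 1)) ℝ) k 1 else 0 := by
      intro k
      rw [inner_smul_right, orthonormal_iff_ite.1 c.2]
      split_ifs <;> simp
    simp only [h2]
    simp
  simp only [h1]
  exact integral_mul_left_eq_self (μ := muT (T0 d)) (fun A : Ce (T0 d) =>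
    φ (∑ i : Fin d, if blk i = j then
      ((A : O d) : Matrix (Fin (d + 1)) (Fin (d + 1)) ℝ) i.succ 1 ^ 2 else 0)) B

/-- The type and the first vector of a frame are independent. -/
theorem indep (hd : 1 ≤ d) {μ : Measure (Fr d)} (hμ : IsFrameMeasure d μ) (hq : Splitting blk q)
    (j : ι) {φ : ℝ → ℝ} (hφ : Continuous φ) {G : Sph d → ℝ} (hG : Continuous G) :
    ∫ b, φ (tt q j b) * G (vecF b 0) ∂μ = (∫ b, φ (tt q j b) ∂μ) * ∫ b, G (vecF b 0) ∂μ := by
  have := hμ.prob
  set K : ℝ := ∫ A : Ce (T0 d), φ (∑ i : Fin d, if blk i = j then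
        ((A : O d) : Matrix (Fin (d + 1)) (Fin (d + 1)) ℝ) i.succ 1 ^ 2 else 0) ∂(muT (T0 d))
    with hK
  have key : ∀ {G : Sph d → ℝ}, Continuous G →
      ∫ b, φ (tt q j b) * G (vecF b 0) ∂μ = K * ∫ b, G (vecF b 0) ∂μ := by
    intro G hG
    have hF : Continuous fun b : Fr d => φ (tt q j b) * G (vecF b 0) :=
      (hφ.comp (tt_cont hq j)).mul (hG.comp (continuous_vecF 0))
    have h1 : ∀ A : Ce (T0 d), ∫ b, φ (tt q j (rotF (A : O d) b)) * G (vecF b 0) ∂μ =
        ∫ b, φ (tt q j b) * G (vecF b 0) ∂μ := by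
      intro A
      rw [← hμ.inv (A : O d) _ hF]
      refine integral_congr_ae (Filter.Eventually.of_forall fun b => ?_)
      simp only
      congr 2
      apply Subtype.ext
      exact (rot_T0 A.2 b).symm
    have hc : Continuous fun p : Ce (T0 d) × Fr d =>
        φ (tt q j (rotF (p.1 : O d) p.2)) * G (vecF p.2 0) := by
      have hr : Continuous fun p : Ce (T0 d) × Fr d => rotF (p.1 : O d) p.2 := by
        refine Continuous.subtype_mk ?_ _
        refine continuous_pi fun k => ?_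
        refine continuous_finsetSum _ fun i _ => ?_
        have h2 : Continuous fun p : Ce (T0 d) × Fr d =>
            ((p.1 : O d) : Matrix (Fin (d + 1)) (Fin (d + 1)) ℝ) i k := by
          have h3 : Continuous fun g : O d => (g : Matrix (Fin (d + 1)) (Fin (d + 1)) ℝ) i k :=
            (continuous_apply_apply i k).comp continuous_subtype_val
          have h4 : Continuous fun p : Ce (T0 d) × Fr d => (p.1 : O d) :=
            continuous_subtype_val.comp continuous_fst
          exact h3.comp h4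
        exact h2.smul ((cont_vec i).comp continuous_snd)
      exact (hφ.comp ((tt_cont hq j).comp hr)).mul (hG.comp ((continuous_vecF 0).comp
        continuous_snd))
    have h2 : ∫ b, φ (tt q j b) * G (vecF b 0) ∂μ =
        ∫ A : Ce (T0 d), ∫ b, φ (tt q j (rotF (A : O d) b)) * G (vecF b 0) ∂μ ∂(muT (T0 d)) := by
      simp only [h1]
      rw [integral_const]
      simp
    have hint : Integrable (Function.uncurry fun (A : Ce (T0 d)) (b : Fr d) =>
        φ (tt q j (rotF (A : O d) b)) * G (vecF b 0)) ((muT (T0 d)).prod μ) := by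
      have h3 : IntegrableOn (fun p : Ce (T0 d) × Fr d =>
          φ (tt q j (rotF (p.1 : O d) p.2)) * G (vecF p.2 0)) univ ((muT (T0 d)).prod μ) :=
        hc.continuousOn.integrableOn_compact isCompact_univ
      rw [integrableOn_univ] at h3
      exact h3
    rw [h2, integral_integral_swap hint]
    have h4 : ∀ b : Fr d, ∫ A : Ce (T0 d), φ (tt q j (rotF (A : O d) b)) * G (vecF b 0)
        ∂(muT (T0 d)) = K * G (vecF b 0) := by
      intro b
      rw [integral_mul_const, avg_type hd hq j φ b]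
    simp only [h4]
    rw [integral_const_mul]
  have h1 : ∫ b, φ (tt q j b) ∂μ = K := by
    have h2 := key (G := fun _ => 1) continuous_const
    simpa using h2
  rw [key hG, h1]

/-- Concentration at a pure type. -/
theorem conc (hd : 1 ≤ d) (hO : T_POS) {μ : Measure (Fr d)} (hμ : IsFrameMeasure d μ)
    (hq : Splitting blk q) (i₀ : Fin d) {H : Fr d → ℝ} (hH : Continuous H) {L B : ℝ}
    (hL : ∀ b : Fr d, tt q (blk i₀) b = 1 → L ≤ H b)
    (hB : ∀ φ : ℝ → ℝ, Continuous φ → (∀ u, 0 ≤ φ u) →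
      ∫ b, φ (tt q (blk i₀) b) * H b ∂μ = (∫ b, φ (tt q (blk i₀) b) ∂μ) * B) : L ≤ B := by
  have := hμ.prob
  by_contra hlt
  rw [not_le] at hlt
  set t : Fr d → ℝ := tt q (blk i₀) with ht
  have htc : Continuous t := tt_cont hq _
  -- the type is at most one
  have ht1 : ∀ b, t b ≤ 1 := by
    intro b
    obtain ⟨c, hc0, hcq⟩ := exists_adapted hq (b.1 0) (b.2.norm_eq_one 0)
    have e1 : inner ℝ (b.1 0) (b.1 1) = (0 : ℝ) := b.2.inner_eq_zero (ne01 hd)
    rw [ht]
    unfold tt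
    rw [hcq _ _ e1]
    have h1 : ∑ i : Fin d, (if blk i = blk i₀ then inner ℝ (c.1 i.succ) (b.1 1) ^ 2 else (0 : ℝ)) ≤
        ∑ i : Fin d, (inner ℝ (c.1 i.succ) (b.1 1) : ℝ) ^ 2 := by
      refine Finset.sum_le_sum fun i _ => ?_
      split_ifs
      · exact le_rfl
      · positivity
    refine h1.trans ?_
    have h2 := c.2.sum_inner_products_le (b.1 1) (s := Finset.univ)
    rw [Fin.sum_univ_succ, b.2.norm_eq_one 1] at h2
    simp only [Real.norm_eq_abs, sq_abs] at h2
    have h3 : (0 : ℝ) ≤ inner ℝ (c.1 0) (b.1 1) ^ 2 := by positivity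
    linarith
  -- a pure frame
  obtain ⟨b₁, hb₁⟩ : ∃ b, t b = 1 := by
    obtain ⟨c, hc0, hcq⟩ := exists_adapted hq (e0 d) (by simp [e0])
    have hs : (i₀.succ : Fin (d + 1)) ≠ 0 := Fin.succ_ne_zero i₀
    have hi : Function.Injective (fun k : Fin (d + 1) => Equiv.swap 1 i₀.succ k) :=
      (Equiv.swap 1 i₀.succ).injective
    refine ⟨⟨fun k => c.1 (Equiv.swap 1 i₀.succ k), c.2.comp _ hi⟩, ?_⟩
    rw [ht]
    unfold tt
    simp only
    rw [Equiv.swap_apply_left, Equiv.swap_apply_of_ne_of_ne (ne01 hd) hs.symm, hc0]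
    rw [hcq _ _ (by rw [← hc0]; exact c.2.inner_eq_zero hs.symm)]
    rw [Finset.sum_eq_single i₀]
    · rw [if_pos rfl, orthonormal_iff_ite.1 c.2, if_pos rfl]
      norm_num
    · intro k _ hk
      rw [orthonormal_iff_ite.1 c.2, if_neg (fun h => hk (Fin.succ_inj.1 h))]
      split_ifs <;> norm_num
    · simp
  set ε : ℝ := (L - B) / 2 with hε
  have hε0 : 0 < ε := by rw [hε]; linarith
  -- the level
  obtain ⟨δ, hδ0, hδ⟩ : ∃ δ > 0, ∀ b, 1 - δ < t b → L - ε < H b := by
    set Z : Set (Fr d) := {b | H b ≤ L - ε} with hZ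
    have hZc : IsCompact Z := (isClosed_le hH continuous_const).isCompact
    rcases Z.eq_empty_or_nonempty with h0 | hne
    · refine ⟨1, one_pos, fun b _ => ?_⟩
      by_contra hb
      rw [not_lt] at hb
      have : b ∈ Z := hb
      rw [h0] at this
      exact this
    · obtain ⟨b₂, hb₂, hmax⟩ := hZc.exists_isMaxOn hne htc.continuousOn
      have h3 : t b₂ < 1 := by
        refine lt_of_le_of_ne (ht1 b₂) fun h => ?_
        have h4 := hL b₂ h
        have h5 : H b₂ ≤ L - ε := hb₂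
        linarith
      refine ⟨1 - t b₂, by linarith, fun b hb => ?_⟩
      by_contra hb'
      rw [not_lt] at hb'
      have h6 : t b ≤ t b₂ := hmax hb'
      linarith
  set φ : ℝ → ℝ := fun u => max 0 (u - (1 - δ)) with hφ
  have hφc : Continuous φ := by
    rw [hφ]
    fun_prop
  have hφ0 : ∀ u, 0 ≤ φ u := fun u => le_max_left _ _
  have hP : 0 < ∫ b, φ (t b) ∂μ := by
    refine lt_of_le_of_ne (integral_nonneg fun b => hφ0 _) fun h => ?_
    have h4 := hO d μ hμ (fun b => φ (t b)) (hφc.comp htc) (fun b => hφ0 _) h.symm b₁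
    simp only [hφ, hb₁] at h4
    have h5 : max 0 (1 - (1 - δ)) = δ := by
      rw [max_eq_right (by linarith)]
      ring
    rw [h5] at h4
    linarith
  have h5 := hB φ hφc hφ0
  have hint : ∀ f : Fr d → ℝ, Continuous f → Integrable f μ := fun f hf => integ μ f hf
  have h6 : (L - ε) * ∫ b, φ (t b) ∂μ ≤ ∫ b, φ (t b) * H b ∂μ := by
    rw [← integral_const_mul]
    refine integral_mono ((hint _ (hφc.comp htc)).const_mul _)
      (hint _ ((hφc.comp htc).mul hH)) fun b => ?_
    simp only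
    rcases le_or_gt (t b) (1 - δ) with h7 | h7
    · have h8 : φ (t b) = 0 := by
        simp only [hφ]
        exact max_eq_left (by linarith)
      rw [h8]
      simp
    · have h8 := hδ b h7
      have h9 := hφ0 (t b)
      nlinarith
  rw [h5] at h6
  have h7 : L - ε ≤ B := by
    by_contra h8
    rw [not_le] at h8
    nlinarith
  rw [hε] at h7
  linarith

end Pool.Agent.L7h41.CS
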