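import Pool.Agent.L7h41.CS.Stm

/-! # Splittings from Clifford families -/

set_option autoImplicit false
set_option maxHeartbeats 400000

open Real Set MeasureTheory Metric

namespace Pool.Agent.L7h41.CS

open Pool.Agent.Y499.HC Pool.Agent.Y499.HR

variable {d : ℕ}

/-- `J 0, …, J (r-1)` are anticommuting orthogonal complex structures of `ℝ^(d+1)`. -/
structure IsClifford {r : ℕ} (J : Fin r → (EuclideanSpace ℝ (Fin (d + 1)) →ₗᵢ[ℝ]
    EuclideanSpace ℝ (Fin (d + 1)))) : Prop where
  sq : ∀ i x, J i (J i x) = -x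
  anti : ∀ i j, i ≠ j → ∀ x, J i (J j x) = -J j (J i x)

/-- `P 0, …, P k` are anticommuting orthogonal involutions of `ℝ^(d+1)` and the map
`x ↦ (⟪P i x, x⟫)` maps the unit sphere to the unit sphere. -/
structure IsHopf {k : ℕ} (P : Fin (k + 1) → (EuclideanSpace ℝ (Fin (d + 1)) →ₗᵢ[ℝ]
    EuclideanSpace ℝ (Fin (d + 1)))) : Prop where
  sq : ∀ i x, P i (P i x) = x
  anti : ∀ i j, i ≠ j → ∀ x, P i (P j x) = -P j (P i x)
  hopf : ∀ x, ∑ i, (inner ℝ (P i x) x : ℝ) ^ 2 = ‖x‖ ^ 4

lemma ext_basis {n : ℕ} (c : Fin (n + 1) → E d) (hc : Orthonormal ℝ c) :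
    ∃ h : n + 1 ≤ d + 1, ∃ B : OrthonormalBasis (Fin (d + 1)) ℝ (E d),
      ∀ i, B (Fin.castLE h i) = c i := by
  have h : n + 1 ≤ d + 1 := by
    have := hc.linearIndependent.fintype_card_le_finrank
    simpa using this
  refine ⟨h, ?_⟩
  classical
  let v : Fin (d + 1) → E d := fun k => if hk : (k : ℕ) < n + 1 then c ⟨k, hk⟩ else 0
  let s : Set (Fin (d + 1)) := {k | (k : ℕ) < n + 1}
  have hv : Orthonormal ℝ (s.domRestrict v) := by
    have e : s.domRestrict v = c ∘ (fun k : s => (⟨k.1.1, k.2⟩ : Fin (n + 1))) := by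
      funext k
      have hk : ((k : Fin (d + 1)) : ℕ) < n + 1 := k.2
      show v k = _
      simp only [v, dif_pos hk, Function.comp_apply]
    rw [e]
    refine hc.comp _ fun k l hkl => ?_
    have h1 := congrArg Fin.val hkl
    exact Subtype.ext (Fin.ext h1)
  obtain ⟨B, hB⟩ := hv.exists_orthonormalBasis_extension_of_card_eq (by simp)
  refine ⟨B, fun i => ?_⟩
  have hi : ((Fin.castLE h i : Fin (d + 1)) : ℕ) < n + 1 := i.2
  rw [hB _ (show Fin.castLE h i ∈ s from hi)]
  simp only [v, dif_pos hi]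
  rfl

lemma sum_succ {B : OrthonormalBasis (Fin (d + 1)) ℝ (E d)} {x v : E d} (h0 : B 0 = x)
    (hv : inner ℝ x v = (0 : ℝ)) : ∑ i : Fin d, (inner ℝ (B i.succ) v : ℝ) ^ 2 = ‖v‖ ^ 2 := by
  have h1 := B.sum_sq_norm_inner_right v
  rw [Fin.sum_univ_succ, h0, hv, norm_zero] at h1
  simp only [Real.norm_eq_abs, sq_abs] at h1
  linarith

lemma succ_orth {B : OrthonormalBasis (Fin (d + 1)) ℝ (E d)} {x : E d} (h0 : B 0 = x) :
    (Orthonormal ℝ fun i : Fin d => B i.succ) ∧ ∀ i : Fin d, inner ℝ x (B i.succ) = (0 : ℝ) := by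
  refine ⟨B.orthonormal.comp _ (Fin.succ_injective d), fun i => ?_⟩
  rw [← h0]
  exact B.orthonormal.inner_eq_zero (Fin.succ_ne_zero i).symm

section J

variable {r : ℕ} {J : Fin r → (E d →ₗᵢ[ℝ] E d)}

lemma J_skew (h : IsClifford J) (i : Fin r) (x y : E d) :
    (inner ℝ (J i x) y : ℝ) = -inner ℝ x (J i y) := by
  rw [← (J i).inner_map_map (J i x) y, h.sq, inner_neg_left]

lemma J_self (h : IsClifford J) (i : Fin r) (x : E d) : (inner ℝ (J i x) x : ℝ) = 0 := by
  have h1 := J_skew h i x x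
  rw [real_inner_comm] at h1
  have h2 : (inner ℝ x (J i x) : ℝ) = inner ℝ (J i x) x := real_inner_comm _ _
  linarith

lemma J_orth (h : IsClifford J) {i j : Fin r} (hij : i ≠ j) (x : E d) :
    (inner ℝ (J i x) (J j x) : ℝ) = 0 := by
  have h1 : (inner ℝ (J i x) (J j x) : ℝ) = -inner ℝ x (J i (J j x)) := J_skew h i x (J j x)
  have h2 : (inner ℝ (J j x) (J i x) : ℝ) = -inner ℝ x (J j (J i x)) := J_skew h j x (J i x)
  rw [h.anti i j hij x, inner_neg_right, neg_neg] at h1
  have h3 : (inner ℝ (J j x) (J i x) : ℝ) = inner ℝ (J i x) (J j x) := real_inner_comm _ _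
  linarith

/-- The blocks of a Clifford family. -/
def cblk (d r : ℕ) (i : Fin d) : Option (Fin r) :=
  if h : (i : ℕ) < r then some ⟨i, h⟩ else none

/-- The components of a Clifford family. -/
noncomputable def cq (J : Fin r → (E d →ₗᵢ[ℝ] E d)) : Option (Fin r) → E d → E d → ℝ
  | some i, x, v => inner ℝ (J i x) v ^ 2
  | none, x, v => ‖v‖ ^ 2 - inner ℝ x v ^ 2 - ∑ i, inner ℝ (J i x) v ^ 2

lemma J_flow (h : IsClifford J) (i : Fin r) (x v : E d) (θ : ℝ) :
    (inner ℝ (J i (cos θ • x + sin θ • v)) (cos θ • v - sin θ • x) : ℝ) = inner ℝ (J i x) v := by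
  have h1 : (inner ℝ (J i v) x : ℝ) = -inner ℝ (J i x) v := by
    rw [J_skew h i v x, real_inner_comm]
  rw [map_add, map_smul, map_smul, inner_add_left, inner_sub_right, inner_sub_right,
    real_inner_smul_left, real_inner_smul_left, real_inner_smul_left, real_inner_smul_left,
    real_inner_smul_right, real_inner_smul_right, real_inner_smul_right, real_inner_smul_right,
    J_self h, J_self h, h1]
  have := Real.sin_sq_add_cos_sq θ
  linear_combination (inner ℝ (J i x) v : ℝ) * this

lemma flow_orth {x v : E d} (hx : ‖x‖ = 1) (hv : ‖v‖ = 1) (hxv : inner ℝ x v = (0 : ℝ)) (θ : ℝ) :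
    ‖cos θ • v - sin θ • x‖ ^ 2 = 1 ∧
      (inner ℝ (cos θ • x + sin θ • v) (cos θ • v - sin θ • x) : ℝ) = 0 := by
  have hvx : inner ℝ v x = (0 : ℝ) := by rw [real_inner_comm, hxv]
  constructor
  · rw [norm_sub_sq_real, norm_smul, norm_smul, hx, hv, real_inner_smul_left,
      real_inner_smul_right, hvx, Real.norm_eq_abs, Real.norm_eq_abs, mul_one, mul_one, sq_abs,
      sq_abs]
    have := Real.sin_sq_add_cos_sq θ
    linarith
  · rw [inner_add_left, inner_sub_right, inner_sub_right,
      real_inner_smul_left, real_inner_smul_left, real_inner_smul_left, real_inner_smul_left,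
      real_inner_smul_right, real_inner_smul_right, real_inner_smul_right, real_inner_smul_right,
      hxv, hvx, real_inner_self_eq_norm_sq, real_inner_self_eq_norm_sq, hx, hv]
    ring

theorem clifford_splitting (h : IsClifford J) : Splitting (cblk d r) (cq J) where
  cont := by
    have hJ : ∀ i, Continuous fun p : E d × E d => (inner ℝ (J i p.1) p.2 : ℝ) ^ 2 :=
      fun i => by
        have h1 : Continuous fun p : E d × E d => J i p.1 := (J i).continuous.comp continuous_fst
        have h2 : Continuous fun p : E d × E d => p.2 := continuous_snd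
        have h3 : Continuous fun p : E d × E d => (inner ℝ (J i p.1) p.2 : ℝ) := h1.inner h2
        exact h3.pow 2
    rintro (_ | i)
    · have c1 : Continuous fun p : E d × E d => ‖p.2‖ ^ 2 := by fun_prop
      have c2 : Continuous fun p : E d × E d => (inner ℝ p.1 p.2 : ℝ) ^ 2 := by fun_prop
      have c3 : Continuous fun p : E d × E d => ∑ i, (inner ℝ (J i p.1) p.2 : ℝ) ^ 2 :=
        continuous_finsetSum _ fun i _ => hJ i
      have c4 : Continuous fun p : E d × E d => ‖p.2‖ ^ 2 - (inner ℝ p.1 p.2 : ℝ) ^ 2 -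
        ∑ i, (inner ℝ (J i p.1) p.2 : ℝ) ^ 2 := (c1.sub c2).sub c3
      exact c4
    · exact hJ i
  frame := by
    intro x hx
    have hx1 : ‖x‖ = 1 := mem_sphere_zero_iff_norm.1 hx
    set c : Fin (r + 1) → E d := Fin.cons x fun i => J i x with hc
    have hco : Orthonormal ℝ c := by
      rw [orthonormal_iff_ite]
      intro i j
      refine Fin.cases ?_ (fun i => ?_) i <;> refine Fin.cases ?_ (fun j => ?_) j
      · simp [hc, hx1]
      · rw [if_neg (Fin.succ_ne_zero j).symm, hc, Fin.cons_zero, Fin.cons_succ, real_inner_comm]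
        exact J_self h j x
      · rw [if_neg (Fin.succ_ne_zero i), hc, Fin.cons_zero, Fin.cons_succ]
        exact J_self h i x
      · simp only [hc, Fin.cons_succ, Fin.succ_inj]
        by_cases hij : i = j
        · subst hij
          rw [if_pos rfl, real_inner_self_eq_norm_sq, (J i).norm_map, hx1, one_pow]
        · rw [if_neg hij, J_orth h hij]
    obtain ⟨hr, B, hB⟩ := ext_basis c hco
    have h0 : B 0 = x := by
      have := hB 0
      rw [hc, Fin.cons_zero] at this
      rw [← this]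
      congr 1
    have hJB : ∀ (j : Fin r) (hj : (j : ℕ) < d), B (Fin.succ ⟨j, hj⟩) = J j x := by
      intro j hj
      have := hB j.succ
      rw [hc, Fin.cons_succ] at this
      rw [← this]
      congr 1
    have hrd : r ≤ d := by omega
    refine ⟨fun i => B i.succ, (succ_orth h0).1, (succ_orth h0).2, ?_⟩
    have hsome : ∀ (j : Fin r) (v : E d), (inner ℝ (J j x) v : ℝ) ^ 2 =
        ∑ i : Fin d, if cblk d r i = some j then (inner ℝ (B i.succ) v : ℝ) ^ 2 else 0 := by
      intro j v
      have hj : (j : ℕ) < d := j.2.trans_le hrd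
      rw [Finset.sum_eq_single (⟨j, hj⟩ : Fin d)]
      · rw [if_pos, hJB j hj]
        simp [cblk]
      · intro i _ hi
        rw [if_neg]
        intro hcon
        unfold cblk at hcon
        split_ifs at hcon with h1
        · refine hi (Fin.ext ?_)
          have := congrArg Fin.val (Option.some.inj hcon)
          exact this
      · intro hcon
        exact absurd (Finset.mem_univ _) hcon
    rintro (_ | j) v hv
    · show ‖v‖ ^ 2 - (inner ℝ x v : ℝ) ^ 2 - ∑ i, (inner ℝ (J i x) v : ℝ) ^ 2 = _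
      have h1 := sum_succ h0 hv
      have h2 : ∑ j : Option (Fin r), ∑ i : Fin d,
          (if cblk d r i = j then (inner ℝ (B i.succ) v : ℝ) ^ 2 else 0) = ‖v‖ ^ 2 := by
        rw [Finset.sum_comm, ← h1]
        refine Finset.sum_congr rfl fun i _ => ?_
        rw [Finset.sum_ite_eq, if_pos (Finset.mem_univ _)]
      rw [Fintype.sum_option] at h2
      have h3 : ∑ j : Fin r, ∑ i : Fin d,
          (if cblk d r i = some j then (inner ℝ (B i.succ) v : ℝ) ^ 2 else 0) =
          ∑ j, (inner ℝ (J j x) v : ℝ) ^ 2 :=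
        Finset.sum_congr rfl fun j _ => (hsome j v).symm
      rw [h3] at h2
      rw [hv]
      linarith
    · exact hsome j v
  flow := by
    rintro (_ | i) x v hx hv hxv θ
    · show ‖cos θ • v - sin θ • x‖ ^ 2 -
        (inner ℝ (cos θ • x + sin θ • v) (cos θ • v - sin θ • x) : ℝ) ^ 2 -
        ∑ i, (inner ℝ (J i (cos θ • x + sin θ • v)) (cos θ • v - sin θ • x) : ℝ) ^ 2 =
        ‖v‖ ^ 2 - (inner ℝ x v : ℝ) ^ 2 - ∑ i, (inner ℝ (J i x) v : ℝ) ^ 2
      rw [(flow_orth hx hv hxv θ).1, (flow_orth hx hv hxv θ).2, hv, hxv, one_pow]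
      congr 1
      exact Finset.sum_congr rfl fun i _ => by rw [J_flow h i]
    · show (inner ℝ (J i (cos θ • x + sin θ • v)) (cos θ • v - sin θ • x) : ℝ) ^ 2 = _
      rw [J_flow h i]
      rfl

end J

end Pool.Agent.L7h41.CS
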