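import Pool.Agent.L7h41.CS.Avg
import Pool.Agent.Y499.HC.MainR2

/-! # Curves of pure type -/

set_option autoImplicit false
set_option maxHeartbeats 400000

open Real Set MeasureTheory Metric
open scoped ENNReal

namespace Pool.Agent.L7h41.CS

open Pool.Agent.Y499.HC Pool.Agent.Y499.HR
open Pool.Agent.Z932.HC (hasDerivAt_p hasDerivAt_q contDiff_S hasDerivAt_S)
open Pool.Agent.Y249.HC (quad_smul)

variable {d : ℕ} {ι : Type} [DecidableEq ι] {blk : Fin d → ι} {q : ι → E d → E d → ℝ}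

lemma q_nonneg (hq : Splitting blk q) (j : ι) {x v : E d} (hx : ‖x‖ = 1) (hv : inner ℝ x v = 0) :
    0 ≤ q j x v := by
  obtain ⟨c, hc0, hcq⟩ := exists_adapted hq x hx
  rw [hcq j v hv]
  exact Finset.sum_nonneg fun i _ => by split_ifs <;> positivity

lemma sum_q [Fintype ι] (hq : Splitting blk q) {x v : E d} (hx : ‖x‖ = 1) (hv : inner ℝ x v = 0) :
    ∑ j, q j x v = ‖v‖ ^ 2 := by
  obtain ⟨c, hc0, hcq⟩ := exists_adapted hq x hx
  have h1 : ∀ j, q j x v = ∑ i : Fin d, if blk i = j then inner ℝ (c.1 i.succ) v ^ 2 else 0 :=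
    fun j => hcq j v hv
  simp only [h1]
  rw [Finset.sum_comm]
  simp only [Finset.sum_ite_eq, Finset.mem_univ, if_true]
  set cb : OrthonormalBasis (Fin (d + 1)) ℝ (E d) := OrthonormalBasis.mk c.2
      (c.2.linearIndependent.span_eq_top_of_card_eq_finrank (by simp)).ge with hcb
  have h2 : ∀ i, cb i = c.1 i := fun i => by rw [hcb, OrthonormalBasis.coe_mk]
  have h3 := cb.sum_sq_norm_inner_right v
  rw [Fin.sum_univ_succ] at h3
  simp only [h2, hc0, hv, Real.norm_eq_abs, sq_abs] at h3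
  rw [← h3]
  simp

/-- For a pure frame the other components vanish. -/
lemma pure_zero [Fintype ι] (hd : 1 ≤ d) (hq : Splitting blk q) {j k : ι} (hjk : k ≠ j) {b : Fr d}
    (hb : tt q j b = 1) : q k (b.1 0) (b.1 1) = 0 := by
  have e1 : inner ℝ (b.1 0) (b.1 1) = (0 : ℝ) := b.2.inner_eq_zero (ne01 hd)
  have h0 : ‖b.1 0‖ = 1 := b.2.norm_eq_one 0
  have h1 := sum_q hq h0 e1
  rw [b.2.norm_eq_one 1, ← Finset.add_sum_erase _ _ (Finset.mem_univ j)] at h1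
  have h2 : ∑ i ∈ Finset.univ.erase j, q i (b.1 0) (b.1 1) = 0 := by
    unfold tt at hb
    rw [hb] at h1
    linarith
  exact (Finset.sum_eq_zero_iff_of_nonneg fun i _ => q_nonneg hq i h0 e1).1 h2 k
    (Finset.mem_erase.2 ⟨hjk, Finset.mem_univ k⟩)

/-- The value of the metric on a direction of pure type. -/
lemma pure_quad [Fintype ι] (hd : 1 ≤ d) (hq : Splitting blk q) {j : ι} {b : Fr d}
    (hb : tt q j b = 1) (A : ι → ℝ) (θ : ℝ) :
    ∑ k, A k * q k (cos θ • b.1 0 + sin θ • b.1 1) (cos θ • b.1 1 - sin θ • b.1 0) = A j := by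
  have h1 : ∀ k, q k (cos θ • b.1 0 + sin θ • b.1 1) (cos θ • b.1 1 - sin θ • b.1 0) =
      q k (b.1 0) (b.1 1) := fun k =>
    hq.flow k _ _ (b.2.norm_eq_one 0) (b.2.norm_eq_one 1) (b.2.inner_eq_zero (ne01 hd)) θ
  simp only [h1]
  rw [Finset.sum_eq_single j]
  · unfold tt at hb
    rw [hb, mul_one]
  · intro k _ hk
    rw [pure_zero hd hq hk hb, mul_zero]
  · simp

/-- The geometric mean of the coefficients. -/
noncomputable def cbar (blk : Fin d → ι) (a : ι → ℝ → ℝ) (s : ℝ) : ℝ :=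
  Real.exp ((∑ i, Real.log (a (blk i) s)) / d)

lemma cbar_pos (a : ι → ℝ → ℝ) (s : ℝ) : 0 < cbar blk a s := Real.exp_pos _

lemma cbar_cont {R : ℝ} {a : ι → ℝ → ℝ} (ha : ∀ j, ContinuousOn (a j) (Ico 0 R))
    (ha0 : ∀ j, ∀ s ∈ Ico 0 R, 0 < a j s) : ContinuousOn (cbar blk a) (Ico 0 R) := by
  unfold cbar
  refine Real.continuous_exp.comp_continuousOn ?_
  refine ContinuousOn.div_const (continuousOn_finset_sum _ fun i _ => ?_) _
  exact (ha (blk i)).log fun s hs => (ha0 (blk i) s hs).ne'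

lemma cont_cl {R α : ℝ} (hα : α ∈ Ico 0 R) {f : ℝ → ℝ} (hf : ContinuousOn f (Ico 0 R)) :
    Continuous fun τ => f (cl α (S α τ)) :=
  hf.comp_continuous ((continuous_cl α).comp (continuous_S α)) fun τ => cl_mem' hα _

/-- The modified angular speed. -/
noncomputable def wj (blk : Fin d → ι) (a : ι → ℝ → ℝ) (α : ℝ) (j : ι) (τ : ℝ) : ℝ :=
  qq α τ * (cbar blk a (cl α (S α τ)) / a j (cl α (S α τ)))

lemma qq_pos {α : ℝ} (hα : α ∈ Ioo 0 (π / 2)) (τ : ℝ) : 0 < qq α τ := by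
  have h1 := Real.cos_pos_of_mem_Ioo (x := α) ⟨by linarith [hα.1, Real.pi_pos], hα.2⟩
  have h2 := C_pos hα τ
  unfold qq
  positivity

lemma wj_pos {R α : ℝ} (hR : R ≤ π / 2) (hα : α ∈ Ioo 0 R) {a : ι → ℝ → ℝ}
    (ha0 : ∀ j, ∀ s ∈ Ico 0 R, 0 < a j s) (j : ι) (τ : ℝ) : 0 < wj blk a α j τ :=
  mul_pos (qq_pos (mem_half hR hα) τ)
    (div_pos (cbar_pos _ _) (ha0 j _ (cl_mem' ⟨hα.1.le, hα.2⟩ _)))

lemma wj_cont {R α : ℝ} (hR : R ≤ π / 2) (hα : α ∈ Ioo 0 R) {a : ι → ℝ → ℝ}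
    (ha : ∀ j, ContinuousOn (a j) (Ico 0 R)) (ha0 : ∀ j, ∀ s ∈ Ico 0 R, 0 < a j s) (j : ι) :
    Continuous (wj blk a α j) := by
  have hα' : α ∈ Ico 0 R := ⟨hα.1.le, hα.2⟩
  exact (qq_cont (mem_half hR hα)).mul ((cont_cl hα' (cbar_cont ha ha0)).div (cont_cl hα' (ha j))
    fun τ => (ha0 j _ (cl_mem' hα' _)).ne')

/-- The integrand. -/
noncomputable def GG (blk : Fin d → ι) (a : ι → ℝ → ℝ) (κ : ℝ → E d → ℝ) (α l τ : ℝ)
    (x : Sph d) : ℝ :=
  √(pp α τ ^ 2 + l ^ 2 * qq α τ ^ 2 *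
    (κ (cl α (S α τ)) x * cbar blk a (cl α (S α τ))) ^ 2)

lemma GG_cont {R α : ℝ} (hR : R ≤ π / 2) (hα : α ∈ Ioo 0 R) {a : ι → ℝ → ℝ}
    (ha : ∀ j, ContinuousOn (a j) (Ico 0 R)) (ha0 : ∀ j, ∀ s ∈ Ico 0 R, 0 < a j s)
    {κ : ℝ → E d → ℝ}
    (hκ : ContinuousOn (fun p : ℝ × E d => κ p.1 p.2) (Ico 0 R ×ˢ sphere 0 1)) (l : ℝ) :
    Continuous fun z : ℝ × Sph d => GG blk a κ α l z.1 z.2 := by
  have hα' : α ∈ Ico 0 R := ⟨hα.1.le, hα.2⟩
  have hα2 := mem_half hR hα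
  have h1 : Continuous fun z : ℝ × Sph d => κ (cl α (S α z.1)) z.2 :=
    (clamp_cont' hα' hκ).comp (((continuous_S α).comp continuous_fst).prodMk continuous_snd)
  unfold GG
  exact ((((pp_cont hα2).comp continuous_fst).pow 2).add
    ((continuous_const.mul (((qq_cont hα2).comp continuous_fst).pow 2)).mul
      ((h1.mul ((cont_cl hα' (cbar_cont ha ha0)).comp continuous_fst)).pow 2))).sqrt

/-- The curve of pure type. -/
theorem pure_curve [Fintype ι] (hd : 1 ≤ d) (hq : Splitting blk q) {R : ℝ} (hR : R ≤ π / 2)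
    {m : Met d} (hF : Fermi R m) (hS : NonShort R m) {a : ι → ℝ → ℝ} {κ : ℝ → E d → ℝ}
    (ha : ∀ j, ContinuousOn (a j) (Ico 0 R)) (ha0 : ∀ j, ∀ s ∈ Ico 0 R, 0 < a j s)
    (hg : ∀ s ∈ Ico 0 R, ∀ x ∈ sphere (0 : E d) 1, ∀ v : E d, inner ℝ x v = 0 →
      quad (m.g s x) v = κ s x ^ 2 * ∑ j, a j s ^ 2 * q j x v)
    {α : ℝ} (hα : α ∈ Ioo 0 R) (j : ι) {l : ℝ}
    (hl : l * ∫ τ in (0 : ℝ)..π, wj blk a α j τ = π) :
    ∃ θ : ℝ → ℝ, Continuous θ ∧ ∀ b : Fr d, tt q j b = 1 → ∀ X : ℝ → Sph d,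
      (∀ τ, (X τ : E d) = cos (θ τ) • b.1 0 + sin (θ τ) • b.1 1) →
      π ≤ ∫ τ in (0 : ℝ)..π, GG blk a κ α l τ (X τ) := by
  have hα2 := mem_half hR hα
  have hwc := wj_cont (blk := blk) hR hα ha ha0 j
  set θ : ℝ → ℝ := fun τ => l * ∫ t in (0 : ℝ)..τ, wj blk a α j t with hθ
  have hθd : ∀ τ, HasDerivAt θ (l * wj blk a α j τ) τ := fun τ =>
    (hwc.integral_hasStrictDerivAt 0 τ).hasDerivAt.const_mul l
  have hθc : Continuous θ := continuous_iff_continuousAt.2 fun τ => (hθd τ).continuousAt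
  have hθC : ContDiff ℝ 1 θ := by
    rw [contDiff_one_iff_deriv]
    refine ⟨fun τ => (hθd τ).differentiableAt, ?_⟩
    have : deriv θ = fun τ => l * wj blk a α j τ := funext fun τ => (hθd τ).deriv
    rw [this]
    exact continuous_const.mul hwc
  refine ⟨θ, hθc, fun b hb X hX => ?_⟩
  have hn0 : ‖b.1 0‖ = 1 := b.2.norm_eq_one 0
  have hn1 : ‖b.1 1‖ = 1 := b.2.norm_eq_one 1
  have hin : inner ℝ (b.1 0) (b.1 1) = (0 : ℝ) := b.2.inner_eq_zero (ne01 hd)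
  have hin' : inner ℝ (b.1 1) (b.1 0) = (0 : ℝ) := by rw [real_inner_comm]; exact hin
  set y : ℝ → E d := fun τ => cos (θ τ) • b.1 0 + sin (θ τ) • b.1 1 with hy
  have hyd : ∀ τ, HasDerivAt y ((l * wj blk a α j τ) •
      (cos (θ τ) • b.1 1 - sin (θ τ) • b.1 0)) τ := by
    intro τ
    have h1 := ((hθd τ).cos.smul_const (b.1 0)).add ((hθd τ).sin.smul_const (b.1 1))
    refine h1.congr_deriv ?_
    module
  have hyC : ContDiff ℝ 1 y :=
    ((Real.contDiff_cos.comp hθC).smul contDiff_const).add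
      ((Real.contDiff_sin.comp hθC).smul contDiff_const)
  have hy1 : ∀ τ, y τ ∈ sphere (0 : E d) 1 := fun τ => by
    rw [hy]
    simp only
    rw [← hX τ]
    exact (X τ).2
  have hθ0 : θ 0 = 0 := by
    rw [hθ]
    simp
  have hθπ : θ π = π := hl
  have hmain := hS π (S α) y pi_pos (contDiff_S hα2) hyC ?_ hy1 ?_ ?_ ?_
  · refine hmain.trans (le_of_eq ?_)
    refine intervalIntegral.integral_congr fun t ht => ?_
    rw [uIcc_of_le Real.pi_pos.le] at ht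
    have hSt := S_mem hα2 ht
    have hSR : S α t ∈ Ico 0 R := ⟨hSt.1, hSt.2.trans_lt hα.2⟩
    have hyx := hy1 t
    rw [(hasDerivAt_S hα2 t).deriv, (hyd t).deriv]
    have hperp : inner ℝ (y t) (cos (θ t) • b.1 1 - sin (θ t) • b.1 0) = (0 : ℝ) := by
      rw [hy]
      simp only [inner_add_left, inner_sub_right, inner_smul_left, inner_smul_right, hin, hin',
        real_inner_self_eq_norm_sq, hn0, hn1]
      simp
      ring
    have hperp2 : inner ℝ (y t) ((l * wj blk a α j t) •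
        (cos (θ t) • b.1 1 - sin (θ t) • b.1 0)) = (0 : ℝ) := by
      rw [inner_smul_right, hperp, mul_zero]
    obtain ⟨hma, hmβ⟩ := hF (S α t) hSR (y t) hyx
    unfold Met.sq GG
    rw [hma, hmβ _ hperp2, quad_smul, hg (S α t) hSR (y t) hyx _ hperp,
      pure_quad hd hq hb (fun k => a k (S α t) ^ 2) (θ t), cl_eq hSt]
    congr 1
    have hXy : ((X t : Sph d) : E d) = y t := hX t
    rw [hXy]
    have ha' := (ha0 j (S α t) hSR).ne'
    unfold wj
    rw [cl_eq hSt]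
    unfold pp
    field_simp
    ring
  · intro t ht
    have h := S_mem hα2 ht
    exact ⟨h.1, h.2.trans_lt hα.2⟩
  · unfold S
    simp
  · unfold S
    simp
  · rw [hy]
    simp only
    rw [hθ0, hθπ]
    simp

end Pool.Agent.L7h41.CS
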