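import Pool.Agent.L7h41.CS.Main
import Pool.Agent.L7h48.HF.Det

/-! # The volume density of a metric with an adapted orthonormal frame -/

set_option autoImplicit false
set_option maxHeartbeats 400000

open Matrix

namespace Pool.Agent.L7h41.CS

open Pool.Agent.Y499.HC Pool.Agent.Y888.HC Pool.Agent.L7h48.HF

variable {d : ℕ}

theorem det_frame (g : Matrix (Fin (d + 1)) (Fin (d + 1)) ℝ) (hg : g.IsSymm)
    (x : E d) (hx : ‖x‖ = 1) (b : Fin d → E d) (hb : Orthonormal ℝ b)
    (hxb : ∀ i, inner ℝ x (b i) = 0) (A : Fin d → ℝ)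
    (h : ∀ v : E d, inner ℝ x v = 0 → quad g v = ∑ i, A i * inner ℝ (b i) v ^ 2) :
    detTan g x = ∏ i, A i := by
  have hxx : x.ofLp ⬝ᵥ x.ofLp = 1 := by
    rw [← inner_dot, real_inner_self_eq_norm_sq, hx, one_pow]
  set M : Matrix (Fin (d + 1)) (Fin (d + 1)) ℝ :=
    ∑ i, A i • vecMulVec (b i).ofLp (b i).ofLp with hM
  have hMs : M.IsSymm := by
    show Mᵀ = M
    rw [hM, transpose_sum]
    refine Finset.sum_congr rfl fun i _ => ?_
    rw [transpose_smul, transpose_vecMulVec]
  have hMx : M *ᵥ x.ofLp = 0 := by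
    rw [hM, sum_mulVec]
    refine Finset.sum_eq_zero fun i _ => ?_
    have h1 : (b i).ofLp ⬝ᵥ x.ofLp = 0 := by rw [dotProduct_comm, ← inner_dot, hxb i]
    rw [smul_vec, h1, mul_zero, zero_smul]
  have hP := PgP_gen g M hg hMs x hx hMx (fun v hv => by
    rw [h v hv, quad_eq, hM, sum_mulVec, dotProduct_sum]
    exact Finset.sum_congr rfl fun i _ => (quad_vec _ _ _).symm)
  unfold detTan
  rw [hP, of_eq]
  set w : Fin (d + 1) → E d := Fin.cons x b with hw
  set U : Matrix (Fin (d + 1)) (Fin (d + 1)) ℝ := Matrix.of fun k j => (w j).ofLp k with hU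
  have hww : ∀ i j, (inner ℝ (w i) (w j) : ℝ) = if i = j then 1 else 0 := by
    intro i j
    refine Fin.cases ?_ (fun i => ?_) i <;> refine Fin.cases ?_ (fun j => ?_) j
    · simp [hw, real_inner_self_eq_norm_sq, hx]
    · rw [if_neg (Fin.succ_ne_zero j).symm]
      simpa [hw] using hxb j
    · rw [if_neg (Fin.succ_ne_zero i), real_inner_comm]
      simpa [hw] using hxb i
    · simp only [hw, Fin.cons_succ, Fin.succ_inj]
      exact orthonormal_iff_ite.1 hb i j
  have hUU : Uᵀ * U = 1 := by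
    ext i j
    rw [mul_apply, Matrix.one_apply, ← hww i j, inner_dot, dotProduct]
    rfl
  have hdec : M + vecMulVec x.ofLp x.ofLp = U * diagonal (Fin.cons 1 A) * Uᵀ := by
    ext k l
    rw [mul_apply, Fin.sum_univ_succ, Matrix.add_apply, hM, Matrix.sum_apply, add_comm]
    congr 1
    · rw [mul_diagonal, vecMulVec_apply, transpose_apply, hU, of_apply, of_apply, Fin.cons_zero,
        hw, Fin.cons_zero, mul_one]
    · refine Finset.sum_congr rfl fun i _ => ?_
      rw [mul_diagonal, Matrix.smul_apply, vecMulVec_apply, transpose_apply, hU, of_apply,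
        of_apply, Fin.cons_succ, hw, Fin.cons_succ, smul_eq_mul]
      ring
  have hdet : det U * det Uᵀ = 1 := by
    rw [mul_comm, ← det_mul, hUU, Matrix.det_one]
  rw [hdec, det_mul, det_mul, det_diagonal, Fin.prod_univ_succ, Fin.cons_zero, one_mul]
  simp only [Fin.cons_succ]
  rw [mul_right_comm, hdet, one_mul]

end Pool.Agent.L7h41.CS
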