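import Pool.Agent.L7h41.CS.Vol2

/-! # Collars of arbitrary width -/

set_option autoImplicit false
set_option maxHeartbeats 400000

open Real Set MeasureTheory Metric Filter Topology
open scoped ENNReal

namespace Pool.Agent.L7h41.CS

open Pool.Agent.Y499.HC Pool.Agent.Y499.HR

variable {d : ℕ} {ι : Type} [DecidableEq ι] {blk : Fin d → ι} {q : ι → E d → E d → ℝ}

lemma good_mono {R R' : ℝ} (h : R' ≤ R) {m : Met d} (hm : Good R m) : Good R' m where
  cont_a := hm.cont_a.mono (prod_mono (Ico_subset_Ico_right h) le_rfl)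
  cont_β := hm.cont_β.mono (prod_mono (Ico_subset_Ico_right h) le_rfl)
  cont_g := hm.cont_g.mono (prod_mono (Ico_subset_Ico_right h) le_rfl)
  symm := fun s hs => hm.symm s (Ico_subset_Ico_right h hs)
  nonneg := fun s hs => hm.nonneg s (Ico_subset_Ico_right h hs)
  lapse := fun s hs => hm.lapse s (Ico_subset_Ico_right h hs)

lemma fermi_mono {R R' : ℝ} (h : R' ≤ R) {m : Met d} (hm : Fermi R m) : Fermi R' m :=
  fun s hs => hm s (Ico_subset_Ico_right h hs)

lemma short_mono {R R' : ℝ} (h : R' ≤ R) {m : Met d} (hm : NonShort R m) : NonShort R' m :=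
  fun l s y hl hs hy hsm => hm l s y hl hs hy fun t ht => Ico_subset_Ico_right h (hsm t ht)

lemma vol_mono {R R' : ℝ} (h : R' ≤ R) (m : Met d) : vol R' m ≤ vol R m :=
  lintegral_mono_set (Ioo_subset_Ioo_right h)

lemma energy_mono {R R' : ℝ} (h : R' ≤ R) (A : ι → ℝ → E d → ℝ) :
    splitEnergy R' blk A ≤ splitEnergy R blk A := by
  unfold splitEnergy
  exact mul_le_mul_right (lintegral_mono_set (Ioo_subset_Ioo_right h)) _

/-- The round metric of the open hemisphere is not the restriction of a metric of a wider collar. -/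
lemma not_round [Fintype ι] (hd : 1 ≤ d) (hq : Splitting blk q) {R : ℝ} (hR : π / 2 < R)
    {m : Met d} (hm : Good R m) (hF : Fermi R m) {A : ι → ℝ → E d → ℝ}
    (hA0 : ∀ j, ∀ s ∈ Ico 0 R, ∀ x ∈ sphere (0 : E d) 1, 0 < A j s x)
    (hg : ∀ s ∈ Ico 0 R, ∀ x ∈ sphere (0 : E d) 1, ∀ v : E d, inner ℝ x v = 0 →
      quad (m.g s x) v = ∑ j, A j s x ^ 2 * q j x v) : ¬ IsRound (π / 2) m := by
  intro h
  have hx : e0 d ∈ sphere (0 : E d) 1 := by
    rw [mem_sphere_zero_iff_norm]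
    simp [e0]
  set x := e0 d with hxdef
  obtain ⟨b, hb, hxb, hbq⟩ := hq.frame x hx
  set i : Fin d := ⟨0, hd⟩ with hi
  have hπ : π / 2 ∈ Ico 0 R := ⟨by positivity, hR⟩
  have hxs : ∀ {Y : Type} [TopologicalSpace Y] {f : ℝ → E d → Y},
      ContinuousOn (fun p : ℝ × E d => f p.1 p.2) (Ico 0 R ×ˢ sphere 0 1) →
      ContinuousOn (fun s : ℝ => f s x) (Ico 0 R) := by
    intro Y _ f hf
    have h := hf.comp (f := fun s : ℝ => ((s, x) : ℝ × E d)) (s := Ico 0 R)
      (by fun_prop) (fun s hs => ⟨hs, hx⟩)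
    exact h
  have c1 := hxs hm.cont_a
  have c2 := hxs hm.cont_β
  have c3 := hxs hm.cont_g
  have c4 : ContinuousOn (fun s => quad (m.g s x) (b i)) (Ico 0 R) := by
    unfold quad
    refine continuousOn_finsetSum _ fun i _ => continuousOn_finsetSum _ fun j _ => ?_
    have c5 : ContinuousOn (fun s => m.g s x i j) (Ico 0 R) :=
      continuousOn_pi.1 (continuousOn_pi.1 c3 i) j
    exact (c5.mul continuousOn_const).mul continuousOn_const
  have c6 : ContinuousOn (fun s => m.sq s x 0 (b i)) (Ico 0 R) := by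
    unfold Met.sq
    exact ((c1.mul continuousOn_const).add
      (continuousOn_const.mul (c2.inner continuousOn_const))).add c4
  have t1 : Tendsto (fun s => m.sq s x 0 (b i)) (𝓝[<] (π / 2)) (𝓝 (m.sq (π / 2) x 0 (b i))) := by
    have := c6 (π / 2) hπ
    refine this.tendsto.mono_left (nhdsWithin_le_of_mem ?_)
    exact mem_of_superset (Ioo_mem_nhdsLT (by positivity : (0 : ℝ) < π / 2))
      fun s hs => ⟨hs.1.le, hs.2.trans hR⟩
  have t2 : Tendsto (fun s => (0 : ℝ) ^ 2 + Real.cos s ^ 2 * ‖b i‖ ^ 2) (𝓝[<] (π / 2))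
      (𝓝 ((0 : ℝ) ^ 2 + Real.cos (π / 2) ^ 2 * ‖b i‖ ^ 2)) := by
    have : Continuous (fun s : ℝ => (0 : ℝ) ^ 2 + Real.cos s ^ 2 * ‖b i‖ ^ 2) := by fun_prop
    exact this.continuousAt.tendsto.mono_left nhdsWithin_le_nhds
  have h1 := tendsto_nhds_unique (t1.congr' (by
    filter_upwards [Ioo_mem_nhdsLT (by positivity : (0 : ℝ) < π / 2)] with s hs'
    exact h s ⟨hs'.1.le, hs'.2⟩ x hx 0 (b i) (hxb i))) t2
  rw [Real.cos_pi_div_two] at h1
  have h2 : ∑ j, A j (π / 2) x ^ 2 * q j x (b i) = A (blk i) (π / 2) x ^ 2 := by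
    have h4 : ∀ j, q j x (b i) = if blk i = j then 1 else 0 := by
      intro j
      rw [hbq j (b i) (hxb i), Finset.sum_eq_single i]
      · rw [real_inner_self_eq_norm_sq, hb.norm_eq_one i]
        simp
      · intro k _ hk
        rw [hb.inner_eq_zero hk]
        simp
      · intro hcon
        exact absurd (Finset.mem_univ _) hcon
    simp only [h4, mul_ite, mul_one, mul_zero]
    rw [Finset.sum_ite_eq, if_pos (Finset.mem_univ _)]
  unfold Met.sq at h1
  rw [hg (π / 2) hπ x hx (b i) (hxb i), h2] at h1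
  have h3 := hA0 (blk i) (π / 2) hπ x hx
  have h4 : 0 < A (blk i) (π / 2) x ^ 2 := by positivity
  have h5 : A (blk i) (π / 2) x ^ 2 = 0 := by
    have e : m.a (π / 2) x * (0 : ℝ) ^ 2 + 2 * 0 * inner ℝ (m.β (π / 2) x) (b i) +
      A (blk i) (π / 2) x ^ 2 = A (blk i) (π / 2) x ^ 2 := by ring
    rw [e] at h1
    rw [h1]
    ring
  exact absurd h5 h4.ne'

/-- The theorem for collars of arbitrary width. -/
theorem main_all [Fintype ι] (hd : 2 ≤ d)
    (hq : Splitting blk q) {R : ℝ} (hR0 : 0 < R) {m : Met d}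
    (hm : Good R m) (hF : Fermi R m) (hS : NonShort R m) {A : ι → ℝ → E d → ℝ}
    (hA : ∀ j, ContinuousOn (fun p : ℝ × E d => A j p.1 p.2) (Ico 0 R ×ˢ sphere 0 1))
    (hA0 : ∀ j, ∀ s ∈ Ico 0 R, ∀ x ∈ sphere (0 : E d) 1, 0 < A j s x)
    (hg : ∀ s ∈ Ico 0 R, ∀ x ∈ sphere (0 : E d) 1, ∀ v : E d, inner ℝ x v = 0 →
      quad (m.g s x) v = ∑ j, A j s x ^ 2 * q j x v) :
    (hemiCollar d (min R (π / 2)) ≤ splitEnergy R blk A ∧
      (splitEnergy R blk A = hemiCollar d (min R (π / 2)) ↔ R ≤ π / 2 ∧ IsRound R m)) ∧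
    ∀ {k : ι → ℝ → ℝ} {u : ℝ → E d → ℝ} {p : ι → ℝ},
      (∀ j, ContinuousOn (k j) (Ico 0 R)) → (∀ j, ∀ s ∈ Ico 0 R, 0 < k j s) →
      ContinuousOn (fun z : ℝ × E d => u z.1 z.2) (Ico 0 R ×ˢ sphere 0 1) →
      (∀ s ∈ Ico 0 R, ∀ x ∈ sphere (0 : E d) 1, 0 < u s x) →
      (∀ j, 0 ≤ p j ∧ 2 * p j ≤ ∑ i, p (blk i)) →
      (∀ j, ∀ s ∈ Ico 0 R, ∀ x ∈ sphere (0 : E d) 1, A j s x = k j s * u s x ^ p j) →
      hemiCollar d (min R (π / 2)) ≤ vol R m ∧
        (vol R m = hemiCollar d (min R (π / 2)) ↔ R ≤ π / 2 ∧ IsRound R m) := by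
  rcases le_or_gt R (π / 2) with h | h
  · rw [min_eq_left h]
    constructor
    · have h1 := main_energy hd hq hR0 h hm hF hS hA hA0 hg
      exact ⟨h1.1, by rw [h1.2]; exact ⟨fun h2 => ⟨h, h2⟩, fun h2 => h2.2⟩⟩
    · intro k u p hk hk0 hu hu0 hp hAe
      have h1 := main_volume hd hq hR0 h hm hF hS hk hk0 hu hu0 hp (fun s hs x hx v hv => by
        rw [hg s hs x hx v hv]
        exact Finset.sum_congr rfl fun j _ => by rw [hAe j s hs x hx])
      exact ⟨h1.1, by rw [h1.2]; exact ⟨fun h2 => ⟨h, h2⟩, fun h2 => h2.2⟩⟩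
  · rw [min_eq_right h.le]
    have hπ : 0 < π / 2 := by positivity
    have hsub : Ico 0 (π / 2) ⊆ Ico 0 R := Ico_subset_Ico_right h.le
    have hm' := good_mono h.le hm
    have hF' := fermi_mono h.le hF
    have hS' := short_mono h.le hS
    have hnr := not_round (by omega) hq h hm hF hA0 hg
    constructor
    · have h1 := main_energy hd hq hπ le_rfl hm' hF' hS'
        (fun j => (hA j).mono (prod_mono hsub le_rfl)) (fun j s hs => hA0 j s (hsub hs))
        (fun s hs => hg s (hsub hs))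
      have h2 := energy_mono (blk := blk) h.le A
      refine ⟨h1.1.trans h2, fun h3 => ?_, fun h3 => absurd h3.1 (not_le.2 h)⟩
      exact absurd (h1.2.1 (le_antisymm (h2.trans h3.le) h1.1)) hnr
    · intro k u p hk hk0 hu hu0 hp hAe
      have h1 := main_volume hd hq hπ le_rfl hm' hF' hS' (fun j => (hk j).mono hsub)
        (fun j s hs => hk0 j s (hsub hs)) (hu.mono (prod_mono hsub le_rfl))
        (fun s hs => hu0 s (hsub hs)) hp (fun s hs x hx v hv => by
          rw [hg s (hsub hs) x hx v hv]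
          exact Finset.sum_congr rfl fun j _ => by rw [hAe j s (hsub hs) x hx])
      have h2 := vol_mono h.le m
      refine ⟨h1.1.trans h2, fun h3 => ?_, fun h3 => absurd h3.1 (not_le.2 h)⟩
      exact absurd (h1.2.1 (le_antisymm (h2.trans h3.le) h1.1)) hnr

end Pool.Agent.L7h41.CS
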