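import Pool.Agent.L7h41.CS.Rig
import Pool.Agent.L7h41.CS.Det
import Pool.Agent.Y499.HC.FinalR
import Pool.Agent.Y502.HC.Frame

/-! # The volume, and the theorem -/

set_option autoImplicit false
set_option maxHeartbeats 400000

open Real Set MeasureTheory Metric Filter Topology
open scoped ENNReal

namespace Pool.Agent.L7h41.CS

open Pool.Agent.Y499.HC Pool.Agent.Y499.HR
open Pool.Agent.Y249.HC (integ)

variable {d : ℕ} {ι : Type} [DecidableEq ι] {blk : Fin d → ι} {q : ι → E d → E d → ℝ}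

lemma cbar_pow (hd : 1 ≤ d) {a : ι → ℝ → ℝ} {s : ℝ} (ha0 : ∀ j, 0 < a j s) :
    cbar blk a s ^ d = ∏ i, a (blk i) s := by
  have hd0 : (d : ℝ) ≠ 0 := by
    have : d ≠ 0 := by omega
    exact_mod_cast this
  unfold cbar
  rw [← Real.exp_nat_mul, mul_div_cancel₀ _ hd0, Real.exp_sum]
  exact Finset.prod_congr rfl fun i _ => Real.exp_log (ha0 _)

lemma sqrt_det [Fintype ι] (hd : 1 ≤ d) (hq : Splitting blk q) {R : ℝ} {m : Met d}
    (hm : Good R m) {a : ι → ℝ → ℝ} {κ : ℝ → E d → ℝ}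
    (ha0 : ∀ j, ∀ s ∈ Ico 0 R, 0 < a j s)
    (hκ0 : ∀ s ∈ Ico 0 R, ∀ x ∈ sphere (0 : E d) 1, 0 < κ s x)
    (hg : ∀ s ∈ Ico 0 R, ∀ x ∈ sphere (0 : E d) 1, ∀ v : E d, inner ℝ x v = 0 →
      quad (m.g s x) v = κ s x ^ 2 * ∑ j, a j s ^ 2 * q j x v)
    {s : ℝ} (hs : s ∈ Ico 0 R) (x : Sph d) :
    √(detTan (m.g s x) x) = (κ s x * cbar blk a s) ^ d := by
  obtain ⟨b, hb, hxb, hbq⟩ := hq.frame x x.2
  have hx1 : ‖(x : E d)‖ = 1 := mem_sphere_zero_iff_norm.1 x.2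
  have h1 := det_frame (m.g s x) (hm.symm s hs x x.2) x hx1 b hb hxb
    (fun i => κ s x ^ 2 * a (blk i) s ^ 2) (fun v hv => by
      rw [hg s hs x x.2 v hv, Finset.mul_sum]
      have e1 : ∀ j, κ s x ^ 2 * (a j s ^ 2 * q j x v) =
          ∑ i, if blk i = j then κ s x ^ 2 * a (blk i) s ^ 2 * inner ℝ (b i) v ^ 2 else 0 := by
        intro j
        rw [hbq j v hv, Finset.mul_sum, Finset.mul_sum]
        refine Finset.sum_congr rfl fun i _ => ?_
        by_cases hij : blk i = j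
        · rw [if_pos hij, if_pos hij, hij]
          ring
        · rw [if_neg hij, if_neg hij, mul_zero, mul_zero]
      simp only [e1]
      rw [Finset.sum_comm]
      refine Finset.sum_congr rfl fun i _ => ?_
      rw [Finset.sum_ite_eq, if_pos (Finset.mem_univ _)])
  have hκp : 0 < κ s x := hκ0 s hs x x.2
  have h2 : detTan (m.g s x) x = ((κ s x * cbar blk a s) ^ d) ^ 2 := by
    rw [h1, mul_pow, cbar_pow hd fun j => ha0 j s hs, mul_pow, Finset.prod_mul_distrib,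
      Finset.prod_const, Finset.card_univ, Fintype.card_fin, Finset.prod_pow, ← pow_mul,
      ← pow_mul, mul_comm 2 d]
  rw [h2]
  exact Real.sqrt_sq (pow_nonneg (mul_pos hκp (cbar_pos _ _)).le _)

lemma MM_cl_cont {μ : Measure (Fr d)} [IsProbabilityMeasure μ] {R α : ℝ} {a : ι → ℝ → ℝ}
    (hα : α ∈ Ico 0 R)
    (ha : ∀ j, ContinuousOn (a j) (Ico 0 R)) (ha0 : ∀ j, ∀ s ∈ Ico 0 R, 0 < a j s)
    {κ : ℝ → E d → ℝ}
    (hκ : ContinuousOn (fun p : ℝ × E d => κ p.1 p.2) (Ico 0 R ×ˢ sphere 0 1)) :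
    Continuous (fun s => MM μ blk a κ (cl α s)) := by
  unfold MM
  have hc : Continuous fun s => cbar blk a (cl α s) :=
    (cbar_cont ha ha0).comp_continuous (continuous_cl α) fun s => cl_mem' hα s
  have hκc : Continuous fun z : ℝ × Fr d => κ (cl α z.1) (vecF z.2 0) :=
    (clamp_cont' hα hκ).comp (continuous_fst.prodMk
      ((Pool.Agent.Y499.HC.continuous_vecF 0).comp continuous_snd))
  have h1 := continuous_parametric_integral_of_continuous (μ := μ)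
    (f := fun (s : ℝ) (b : Fr d) => (κ (cl α s) (vecF b 0) * cbar blk a (cl α s)) ^ d)
    ((hκc.mul (hc.comp continuous_fst)).pow d) (s := univ) isCompact_univ
  simpa only [Measure.restrict_univ] using h1

lemma MM_cont {μ : Measure (Fr d)} [IsProbabilityMeasure μ] {R : ℝ} {a : ι → ℝ → ℝ}
    (ha : ∀ j, ContinuousOn (a j) (Ico 0 R)) (ha0 : ∀ j, ∀ s ∈ Ico 0 R, 0 < a j s)
    {κ : ℝ → E d → ℝ}
    (hκ : ContinuousOn (fun p : ℝ × E d => κ p.1 p.2) (Ico 0 R ×ˢ sphere 0 1)) :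
    ContinuousOn (MM μ blk a κ) (Ico 0 R) := by
  intro s hs
  set A := (s + R) / 2 with hA
  have hsA : s < A := by rw [hA]; linarith [hs.2]
  have hRm : A ∈ Ico 0 R := ⟨by linarith [hs.1], by rw [hA]; linarith [hs.2]⟩
  have h1 : ContinuousWithinAt (fun s => MM μ blk a κ (cl A s)) (Ico 0 R) s :=
    (MM_cl_cont hRm ha ha0 hκ).continuousWithinAt
  refine h1.congr_of_eventuallyEq ?_ ?_
  · have h2 : ∀ᶠ t in 𝓝[Ico 0 R] s, t < A :=
      nhdsWithin_le_nhds (Iio_mem_nhds hsA)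
    have h3 : ∀ᶠ t in 𝓝[Ico 0 R] s, t ∈ Ico 0 R := self_mem_nhdsWithin
    filter_upwards [h2, h3] with t ht1 ht2
    rw [cl_eq ⟨ht2.1, ht1.le⟩]
  · rw [cl_eq ⟨hs.1, hsA.le⟩]

lemma MM_nonneg {μ : Measure (Fr d)} {R : ℝ} {a : ι → ℝ → ℝ} {κ : ℝ → E d → ℝ}
    (hκ0 : ∀ s ∈ Ico 0 R, ∀ x ∈ sphere (0 : E d) 1, 0 < κ s x) {s : ℝ} (hs : s ∈ Ico 0 R) :
    0 ≤ MM μ blk a κ s :=
  integral_nonneg fun b => pow_nonneg
    (mul_pos (hκ0 s hs (vecF b 0) (vecF b 0).2) (cbar_pos _ _)).le _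

/-- The volume in terms of the means. -/
lemma vol_eq [Fintype ι] (hd : 1 ≤ d) {μ : Measure (Fr d)} (hμ : IsFrameMeasure d μ)
    (hq : Splitting blk q) {R : ℝ} {m : Met d}
    (hm : Good R m) {a : ι → ℝ → ℝ} {κ : ℝ → E d → ℝ}
    (ha0 : ∀ j, ∀ s ∈ Ico 0 R, 0 < a j s)
    (hκ : ContinuousOn (fun p : ℝ × E d => κ p.1 p.2) (Ico 0 R ×ˢ sphere 0 1))
    (hκ0 : ∀ s ∈ Ico 0 R, ∀ x ∈ sphere (0 : E d) 1, 0 < κ s x)
    (hg : ∀ s ∈ Ico 0 R, ∀ x ∈ sphere (0 : E d) 1, ∀ v : E d, inner ℝ x v = 0 →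
      quad (m.g s x) v = κ s x ^ 2 * ∑ j, a j s ^ 2 * q j x v) :
    vol R m = (σ d) univ * ∫⁻ s in Ioo 0 R, ENNReal.ofReal (MM μ blk a κ s) := by
  have := hμ.prob
  unfold vol
  rw [← lintegral_const_mul' _ _ (measure_ne_top _ _)]
  refine setLIntegral_congr_fun measurableSet_Ioo fun s hs => ?_
  have hsm : s ∈ Ico 0 R := ⟨hs.1.le, hs.2⟩
  have hκc : Continuous fun x : Sph d => κ s x := by
    have h := (clamp_cont' hsm hκ).comp (f := fun x : Sph d => ((s, x) : ℝ × Sph d))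
      (continuous_const.prodMk continuous_id)
    have h5 : cl s s = s := cl_eq ⟨hsm.1, le_rfl⟩
    simpa only [Function.comp_def, h5] using h
  have hdc : Continuous fun x : Sph d => (κ s x * cbar blk a s) ^ d :=
    (hκc.mul continuous_const).pow d
  have h6 := hμ.marg (fun x => (κ s x * cbar blk a s) ^ d) hdc
  have h7 : ∫⁻ x : Sph d, ENNReal.ofReal (√(detTan (m.g s x) x)) ∂(σ d) =
      ENNReal.ofReal (∫ x : Sph d, (κ s x * cbar blk a s) ^ d ∂(σ d)) := by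
    rw [ofReal_integral_eq_lintegral_ofReal]
    · exact lintegral_congr fun x => by rw [sqrt_det hd hq hm ha0 hκ0 hg hsm x]
    · have := hdc.continuousOn.integrableOn_compact (μ := σ d) (isCompact_univ)
      rwa [integrableOn_univ] at this
    · exact Filter.Eventually.of_forall fun x =>
        pow_nonneg (mul_pos (hκ0 s hsm x x.2) (cbar_pos _ _)).le _
  simp only [h7]
  rw [← h6, ENNReal.ofReal_mul ENNReal.toReal_nonneg,
    ENNReal.ofReal_toReal (measure_ne_top _ _)]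
  rfl

/-- THE THEOREM. -/
theorem main [Fintype ι] (hch : S_CHAIN) (hd : 2 ≤ d)
    (hq : Splitting blk q) {R : ℝ} (hR0 : 0 < R) (hR : R ≤ π / 2) {m : Met d}
    (hm : Good R m) (hF : Fermi R m) (hS : NonShort R m) {a : ι → ℝ → ℝ} {κ : ℝ → E d → ℝ}
    (ha : ∀ j, ContinuousOn (a j) (Ico 0 R)) (ha0 : ∀ j, ∀ s ∈ Ico 0 R, 0 < a j s)
    (hκ : ContinuousOn (fun p : ℝ × E d => κ p.1 p.2) (Ico 0 R ×ˢ sphere 0 1))
    (hκ0 : ∀ s ∈ Ico 0 R, ∀ x ∈ sphere (0 : E d) 1, 0 < κ s x)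
    (hg : ∀ s ∈ Ico 0 R, ∀ x ∈ sphere (0 : E d) 1, ∀ v : E d, inner ℝ x v = 0 →
      quad (m.g s x) v = κ s x ^ 2 * ∑ j, a j s ^ 2 * q j x v) :
    hemiCollar d R ≤ vol R m ∧ (vol R m = hemiCollar d R ↔ IsRound R m) := by
  obtain ⟨μ, hμ⟩ := Pool.Agent.Y502.HC.t_FRAME d
  have := hμ.prob
  have hd1 : 1 ≤ d := by omega
  have hv := vol_eq hd1 hμ hq hm ha0 hκ hκ0 hg
  have hc := hch d hd R hR0 hR (MM μ blk a κ) (MM_cont ha ha0 hκ)
    (fun s hs => MM_nonneg hκ0 hs) (fun α hα => one_alpha hd hμ hq hR hF hS ha ha0 hκ hκ0 hg hα)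
  refine ⟨?_, fun h => ?_, fun h => ?_⟩
  · rw [hv]
    unfold hemiCollar
    exact mul_le_mul_right hc.1 _
  · rw [hv, hemiCollar] at h
    have h1 := (ENNReal.mul_right_inj sigma_ne_zero (measure_ne_top _ _)).1 h
    exact rigid hd hμ hq hR0 hR hm hF hS ha ha0 hκ hκ0 hg (hc.2 h1)
  · have hD := Pool.Agent.Y888.HC.t_DET
    rw [vol_eq_energy hD hd hm (k := fun s _ => Real.cos s) (fun s hs x hx v hv => by
      have h1 := h s ⟨hs.1.le, hs.2⟩ x hx 0 v hv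
      simpa [Met.sq] using h1)]
    exact energy_of_isRound hD hd hR0 hR hm h

end Pool.Agent.L7h41.CS
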