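import Pool.Agent.L7h41.CS.Main

/-! # Coefficients which depend on the point: the inequality for one angle -/

set_option autoImplicit false
set_option maxHeartbeats 400000

open Real Set MeasureTheory Metric
open scoped ENNReal

namespace Pool.Agent.L7h41.CS

open Pool.Agent.Y499.HC Pool.Agent.Y499.HR
open Pool.Agent.Z932.HC (hasDerivAt_p hasDerivAt_q contDiff_S hasDerivAt_S)
open Pool.Agent.Y249.HC (integ cont_vec quad_smul)

variable {d : ℕ} {ι : Type} [DecidableEq ι] {blk : Fin d → ι} {q : ι → E d → E d → ℝ}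

/-- The inequality of Jensen. -/
lemma jensen {μ : Measure (Fr d)} (hμ : IsFrameMeasure d μ) {f : Fr d → ℝ} (hf : Continuous f) :
    (∫ b, f b ∂μ) ^ 2 ≤ ∫ b, f b ^ 2 ∂μ ∧
      (∫ b, f b ^ 2 ∂μ ≤ (∫ b, f b ∂μ) ^ 2 → ∀ b, f b = ∫ b, f b ∂μ) := by
  have := hμ.prob
  set c := ∫ b, f b ∂μ with hc
  have e1 : ∫ b, (f b - c) ^ 2 ∂μ = ∫ b, f b ^ 2 ∂μ - c ^ 2 := by
    have e2 : ∀ b, (f b - c) ^ 2 = f b ^ 2 - (2 * c * f b - c ^ 2) := fun b => by ring
    simp only [e2]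
    have i1 : Integrable (fun b => f b ^ 2) μ := integ μ _ (hf.pow 2)
    have i2 : Integrable (fun b => 2 * c * f b) μ := integ μ _ (continuous_const.mul hf)
    have i3 : Integrable (fun _ : Fr d => c ^ 2) μ := integrable_const _
    have i4 : Integrable (fun b : Fr d => 2 * c * f b - c ^ 2) μ := i2.sub i3
    rw [integral_sub i1 i4, integral_sub i2 i3, integral_const_mul, ← hc, integral_const]
    simp only [probReal_univ, one_smul]
    ring
  have h1 : 0 ≤ ∫ b, (f b - c) ^ 2 ∂μ := integral_nonneg fun b => sq_nonneg _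
  refine ⟨by linarith, fun h b => ?_⟩
  have h2 : ∫ b, (f b - c) ^ 2 ∂μ = 0 := by linarith
  have h3 := Pool.Agent.Y331.HC.t_POS d μ hμ (fun b => (f b - c) ^ 2)
    ((hf.sub continuous_const).pow 2) (fun b => sq_nonneg _) h2 b
  have h4 : f b - c = 0 := (pow_eq_zero_iff two_ne_zero).1 h3
  linarith

/-- The quadratic mean of a coefficient over the sphere. -/
noncomputable def Mq (μ : Measure (Fr d)) (A : ι → ℝ → E d → ℝ) (j : ι) (s : ℝ) : ℝ :=
  √(∫ b, A j s (vecF b 0) ^ 2 ∂μ)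

section

variable {μ : Measure (Fr d)} {R : ℝ} {A : ι → ℝ → E d → ℝ}

lemma A_cl_cont {α : ℝ} (hα : α ∈ Ico 0 R) (j : ι)
    (hA : ContinuousOn (fun p : ℝ × E d => A j p.1 p.2) (Ico 0 R ×ˢ sphere 0 1)) :
    Continuous fun z : ℝ × Fr d => A j (cl α z.1) (vecF z.2 0) :=
  (clamp_cont' hα hA).comp (continuous_fst.prodMk
    ((Pool.Agent.Y499.HC.continuous_vecF 0).comp continuous_snd))

lemma A_cont {s : ℝ} (hs : s ∈ Ico 0 R) (j : ι)
    (hA : ContinuousOn (fun p : ℝ × E d => A j p.1 p.2) (Ico 0 R ×ˢ sphere 0 1)) :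
    Continuous fun b : Fr d => A j s (vecF b 0) := by
  have h := (A_cl_cont hs j hA).comp (f := fun b : Fr d => ((s, b) : ℝ × Fr d)) (by fun_prop)
  have h5 : cl s s = s := cl_eq ⟨hs.1, le_rfl⟩
  simpa only [Function.comp_def, h5] using h

lemma Mq_cl_cont [IsProbabilityMeasure μ] {α : ℝ} (hα : α ∈ Ico 0 R) (j : ι)
    (hA : ContinuousOn (fun p : ℝ × E d => A j p.1 p.2) (Ico 0 R ×ˢ sphere 0 1)) :
    Continuous (fun s => Mq μ A j (cl α s)) := by
  unfold Mq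
  have h0 : Continuous (Function.uncurry fun (s : ℝ) (b : Fr d) =>
      A j (cl α s) (vecF b 0) ^ 2) := (A_cl_cont hα j hA).pow 2
  have h1 := continuous_parametric_integral_of_continuous (μ := μ)
    (f := fun (s : ℝ) (b : Fr d) => A j (cl α s) (vecF b 0) ^ 2) h0 (s := univ) isCompact_univ
  simp only [Measure.restrict_univ] at h1
  exact h1.sqrt

lemma Mq_cont [IsProbabilityMeasure μ] (j : ι)
    (hA : ContinuousOn (fun p : ℝ × E d => A j p.1 p.2) (Ico 0 R ×ˢ sphere 0 1)) :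
    ContinuousOn (Mq μ A j) (Ico 0 R) := by
  intro s hs
  set B := (s + R) / 2 with hB
  have hsA : s < B := by rw [hB]; linarith [hs.2]
  have hRm : B ∈ Ico 0 R := ⟨by linarith [hs.1], by rw [hB]; linarith [hs.2]⟩
  have h1 : ContinuousWithinAt (fun s => Mq μ A j (cl B s)) (Ico 0 R) s :=
    (Mq_cl_cont hRm j hA).continuousWithinAt
  refine h1.congr_of_eventuallyEq ?_ ?_
  · have h2 : ∀ᶠ t in nhdsWithin s (Ico 0 R), t < B :=
      nhdsWithin_le_nhds (Iio_mem_nhds hsA)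
    have h3 : ∀ᶠ t in nhdsWithin s (Ico 0 R), t ∈ Ico 0 R := self_mem_nhdsWithin
    filter_upwards [h2, h3] with t ht1 ht2
    rw [cl_eq ⟨ht2.1, ht1.le⟩]
  · rw [cl_eq ⟨hs.1, hsA.le⟩]

lemma Mq_pos (hμ : IsFrameMeasure d μ) (j : ι)
    (hA : ContinuousOn (fun p : ℝ × E d => A j p.1 p.2) (Ico 0 R ×ˢ sphere 0 1))
    (hA0 : ∀ s ∈ Ico 0 R, ∀ x ∈ sphere (0 : E d) 1, 0 < A j s x) {s : ℝ} (hs : s ∈ Ico 0 R) :
    0 < Mq μ A j s := by
  have := hμ.prob
  refine Real.sqrt_pos.2 (lt_of_le_of_ne (integral_nonneg fun b => sq_nonneg _) ?_)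
  intro h
  obtain ⟨b, -⟩ := frame_one (e0 d) (by simp [e0])
  have h3 := Pool.Agent.Y331.HC.t_POS d μ hμ (fun b => A j s (vecF b 0) ^ 2)
    ((A_cont hs j hA).pow 2) (fun b => sq_nonneg _) h.symm b
  have h4 : A j s (vecF b 0) = 0 := (pow_eq_zero_iff two_ne_zero).1 h3
  exact absurd h4 (hA0 s hs _ (vecF b 0).2).ne'

lemma Mq_sq (j : ι) (s : ℝ) : Mq μ A j s ^ 2 = ∫ b, A j s (vecF b 0) ^ 2 ∂μ :=
  Real.sq_sqrt (integral_nonneg fun _ => sq_nonneg _)

end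

/-- The integrand. -/
noncomputable def HH (blk : Fin d → ι) (a : ι → ℝ → ℝ) (A : ι → ℝ → E d → ℝ) (α : ℝ) (j : ι)
    (l τ : ℝ) (x : Sph d) : ℝ :=
  √(pp α τ ^ 2 + (l * wj blk a α j τ * A j (cl α (S α τ)) x) ^ 2)

lemma HH_cont {R α : ℝ} (hR : R ≤ π / 2) (hα : α ∈ Ioo 0 R) {a : ι → ℝ → ℝ}
    (ha : ∀ j, ContinuousOn (a j) (Ico 0 R)) (ha0 : ∀ j, ∀ s ∈ Ico 0 R, 0 < a j s)
    {A : ι → ℝ → E d → ℝ} (j : ι)
    (hA : ContinuousOn (fun p : ℝ × E d => A j p.1 p.2) (Ico 0 R ×ˢ sphere 0 1)) (l : ℝ) :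
    Continuous fun z : ℝ × Sph d => HH blk a A α j l z.1 z.2 := by
  have hα' : α ∈ Ico 0 R := ⟨hα.1.le, hα.2⟩
  have hα2 := mem_half hR hα
  have h1 : Continuous fun z : ℝ × Sph d => A j (cl α (S α z.1)) z.2 :=
    (clamp_cont' hα' hA).comp (((continuous_S α).comp continuous_fst).prodMk continuous_snd)
  unfold HH
  exact ((((pp_cont hα2).comp continuous_fst).pow 2).add
    (((continuous_const.mul ((wj_cont hR hα ha ha0 j).comp continuous_fst)).mul h1).pow 2)).sqrt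

/-- The curve of pure type. -/
theorem pure_curve2 [Fintype ι] (hd : 1 ≤ d) (hq : Splitting blk q) {R : ℝ}
    (hR : R ≤ π / 2)
    {m : Met d} (hF : Fermi R m) (hS : NonShort R m) {a : ι → ℝ → ℝ} {A : ι → ℝ → E d → ℝ}
    (ha : ∀ j, ContinuousOn (a j) (Ico 0 R)) (ha0 : ∀ j, ∀ s ∈ Ico 0 R, 0 < a j s)
    (hg : ∀ s ∈ Ico 0 R, ∀ x ∈ sphere (0 : E d) 1, ∀ v : E d, inner ℝ x v = 0 →
      quad (m.g s x) v = ∑ j, A j s x ^ 2 * q j x v)
    {α : ℝ} (hα : α ∈ Ioo 0 R) (j : ι) {l : ℝ}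
    (hl : l * ∫ τ in (0 : ℝ)..π, wj blk a α j τ = π) :
    ∃ θ : ℝ → ℝ, Continuous θ ∧ ∀ b : Fr d, tt q j b = 1 → ∀ X : ℝ → Sph d,
      (∀ τ, (X τ : E d) = cos (θ τ) • b.1 0 + sin (θ τ) • b.1 1) →
      π ≤ ∫ τ in (0 : ℝ)..π, HH blk a A α j l τ (X τ) := by
  have hα2 := mem_half hR hα
  have hwc := wj_cont (blk := blk) hR hα ha ha0 j
  set θ : ℝ → ℝ := fun τ => l * ∫ t in (0 : ℝ)..τ, wj blk a α j t with hθ
  have hθd : ∀ τ, HasDerivAt θ (l * wj blk a α j τ) τ := fun τ =>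
    (hwc.integral_hasStrictDerivAt 0 τ).hasDerivAt.const_mul l
  have hθc : Continuous θ := continuous_iff_continuousAt.2 fun τ => (hθd τ).continuousAt
  have hθC : ContDiff ℝ 1 θ := by
    rw [contDiff_one_iff_deriv]
    refine ⟨fun τ => (hθd τ).differentiableAt, ?_⟩
    have : deriv θ = fun τ => l * wj blk a α j τ := funext fun τ => (hθd τ).deriv
    rw [this]
    exact continuous_const.mul hwc
  refine ⟨θ, hθc, fun b hb X hX => ?_⟩
  have hn0 : ‖b.1 0‖ = 1 := b.2.norm_eq_one 0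
  have hn1 : ‖b.1 1‖ = 1 := b.2.norm_eq_one 1
  have hin : inner ℝ (b.1 0) (b.1 1) = (0 : ℝ) := b.2.inner_eq_zero (ne01 hd)
  have hin' : inner ℝ (b.1 1) (b.1 0) = (0 : ℝ) := by rw [real_inner_comm]; exact hin
  set y : ℝ → E d := fun τ => cos (θ τ) • b.1 0 + sin (θ τ) • b.1 1 with hy
  have hyd : ∀ τ, HasDerivAt y ((l * wj blk a α j τ) •
      (cos (θ τ) • b.1 1 - sin (θ τ) • b.1 0)) τ := by
    intro τ
    have h1 := ((hθd τ).cos.smul_const (b.1 0)).add ((hθd τ).sin.smul_const (b.1 1))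
    refine h1.congr_deriv ?_
    module
  have hyC : ContDiff ℝ 1 y :=
    ((Real.contDiff_cos.comp hθC).smul contDiff_const).add
      ((Real.contDiff_sin.comp hθC).smul contDiff_const)
  have hy1 : ∀ τ, y τ ∈ sphere (0 : E d) 1 := fun τ => by
    rw [hy]
    simp only
    rw [← hX τ]
    exact (X τ).2
  have hθ0 : θ 0 = 0 := by
    rw [hθ]
    simp
  have hθπ : θ π = π := hl
  have hmain := hS π (S α) y pi_pos (contDiff_S hα2) hyC ?_ hy1 ?_ ?_ ?_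
  · refine hmain.trans (le_of_eq ?_)
    refine intervalIntegral.integral_congr fun t ht => ?_
    rw [uIcc_of_le Real.pi_pos.le] at ht
    have hSt := S_mem hα2 ht
    have hSR : S α t ∈ Ico 0 R := ⟨hSt.1, hSt.2.trans_lt hα.2⟩
    have hyx := hy1 t
    rw [(hasDerivAt_S hα2 t).deriv, (hyd t).deriv]
    have hperp : inner ℝ (y t) (cos (θ t) • b.1 1 - sin (θ t) • b.1 0) = (0 : ℝ) := by
      rw [hy]
      simp only [inner_add_left, inner_sub_right, inner_smul_left, inner_smul_right, hin, hin',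
        real_inner_self_eq_norm_sq, hn0, hn1]
      simp
      ring
    have hperp2 : inner ℝ (y t) ((l * wj blk a α j t) •
        (cos (θ t) • b.1 1 - sin (θ t) • b.1 0)) = (0 : ℝ) := by
      rw [inner_smul_right, hperp, mul_zero]
    obtain ⟨hma, hmβ⟩ := hF (S α t) hSR (y t) hyx
    unfold Met.sq HH
    rw [hma, hmβ _ hperp2, quad_smul, hg (S α t) hSR (y t) hyx _ hperp,
      pure_quad hd hq hb (fun k => A k (S α t) (y t) ^ 2) (θ t), cl_eq hSt]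
    congr 1
    have hXy : ((X t : Sph d) : E d) = y t := hX t
    rw [hXy]
    unfold pp
    ring
  · intro t ht
    have h := S_mem hα2 ht
    exact ⟨h.1, h.2.trans_lt hα.2⟩
  · unfold S
    simp
  · unfold S
    simp
  · rw [hy]
    simp only
    rw [hθ0, hθπ]
    simp

/-- The mean inequality for a direction of pure type. -/
theorem mean_ge2 [Fintype ι] (hd : 1 ≤ d) {μ : Measure (Fr d)}
    (hμ : IsFrameMeasure d μ)
    (hq : Splitting blk q) {R : ℝ} (hR : R ≤ π / 2)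
    {m : Met d} (hF : Fermi R m) (hS : NonShort R m) {a : ι → ℝ → ℝ} {A : ι → ℝ → E d → ℝ}
    (ha : ∀ j, ContinuousOn (a j) (Ico 0 R)) (ha0 : ∀ j, ∀ s ∈ Ico 0 R, 0 < a j s)
    (hA : ∀ j, ContinuousOn (fun p : ℝ × E d => A j p.1 p.2) (Ico 0 R ×ˢ sphere 0 1))
    (hg : ∀ s ∈ Ico 0 R, ∀ x ∈ sphere (0 : E d) 1, ∀ v : E d, inner ℝ x v = 0 →
      quad (m.g s x) v = ∑ j, A j s x ^ 2 * q j x v)
    {α : ℝ} (hα : α ∈ Ioo 0 R) (i₀ : Fin d) {l : ℝ}
    (hl : l * ∫ τ in (0 : ℝ)..π, wj blk a α (blk i₀) τ = π) :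
    π ≤ ∫ τ in (0 : ℝ)..π, ∫ b, HH blk a A α (blk i₀) l τ (vecF b 0) ∂μ := by
  have := hμ.prob
  obtain ⟨θ, hθc, hθ⟩ := pure_curve2 hd hq hR hF hS ha ha0 hg hα (blk i₀) hl
  have hG := HH_cont (blk := blk) hR hα ha ha0 (blk i₀) (hA (blk i₀)) l
  set X : ℝ → Fr d → Sph d := fun τ b => ⟨cos (θ τ) • b.1 0 + sin (θ τ) • b.1 1,
    norm_comb hd b (θ τ)⟩ with hX
  have hXc : Continuous fun z : Fr d × ℝ => X z.2 z.1 := by
    refine Continuous.subtype_mk ?_ _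
    exact ((Real.continuous_cos.comp (hθc.comp continuous_snd)).smul
      ((cont_vec 0).comp continuous_fst)).add
      ((Real.continuous_sin.comp (hθc.comp continuous_snd)).smul
      ((cont_vec 1).comp continuous_fst))
  have hFc : Continuous (Function.uncurry fun (b : Fr d) (τ : ℝ) =>
      HH blk a A α (blk i₀) l τ (X τ b)) := by
    have h := hG.comp (f := fun z : Fr d × ℝ => ((z.2, X z.2 z.1) : ℝ × Sph d))
      (continuous_snd.prodMk hXc)
    exact h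
  have hH : Continuous fun b : Fr d => ∫ τ in (0 : ℝ)..π, HH blk a A α (blk i₀) l τ (X τ b) :=
    intervalIntegral.continuous_parametric_intervalIntegral_of_continuous' hFc 0 π
  refine conc hd Pool.Agent.Y331.HC.t_POS hμ hq i₀ hH (fun b hb => hθ b hb (fun τ => X τ b)
    fun τ => rfl) ?_
  intro φ hφ _
  have htc := tt_cont hq (blk i₀)
  have e1 : ∀ b : Fr d, φ (tt q (blk i₀) b) *
      ∫ τ in (0 : ℝ)..π, HH blk a A α (blk i₀) l τ (X τ b) =
      ∫ τ in Ioc 0 π, φ (tt q (blk i₀) b) * HH blk a A α (blk i₀) l τ (X τ b) := by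
    intro b
    rw [intervalIntegral.integral_of_le Real.pi_pos.le, integral_const_mul]
  simp only [e1]
  have hcomp : Integrable (Function.uncurry fun (b : Fr d) (τ : ℝ) =>
      φ (tt q (blk i₀) b) * HH blk a A α (blk i₀) l τ (X τ b))
      (μ.prod (volume.restrict (Ioc 0 π))) := by
    have hc : Continuous (fun z : Fr d × ℝ =>
        φ (tt q (blk i₀) z.1) * HH blk a A α (blk i₀) l z.2 (X z.2 z.1)) :=
      ((hφ.comp htc).comp continuous_fst).mul hFc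
    have h1 : IntegrableOn (fun z : Fr d × ℝ =>
        φ (tt q (blk i₀) z.1) * HH blk a A α (blk i₀) l z.2 (X z.2 z.1)) (univ ×ˢ Icc 0 π)
        (μ.prod volume) :=
      hc.continuousOn.integrableOn_compact (isCompact_univ.prod isCompact_Icc)
    have h2 := h1.mono_set (prod_mono (Subset.refl (univ : Set (Fr d)))
      (Ioc_subset_Icc_self : Ioc 0 π ⊆ Icc 0 π))
    rw [IntegrableOn, ← Measure.prod_restrict, Measure.restrict_univ] at h2
    exact h2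
  rw [integral_integral_swap hcomp]
  have e2 : ∀ τ, ∫ b, φ (tt q (blk i₀) b) * HH blk a A α (blk i₀) l τ (X τ b) ∂μ =
      (∫ b, φ (tt q (blk i₀) b) ∂μ) * ∫ b, HH blk a A α (blk i₀) l τ (vecF b 0) ∂μ := by
    intro τ
    have hGτ : Continuous fun x : Sph d => HH blk a A α (blk i₀) l τ x :=
      hG.comp (f := fun x : Sph d => ((τ, x) : ℝ × Sph d)) (by fun_prop)
    rw [avg_rot hd hμ hq (blk i₀) hφ hGτ (θ τ) (fun b => X τ b) fun b => rfl,
      indep hd hμ hq (blk i₀) hφ hGτ]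
  simp only [e2]
  rw [integral_const_mul, intervalIntegral.integral_of_le Real.pi_pos.le]

/-- The upper bound of the means. -/
noncomputable def UV (blk : Fin d → ι) (a : ι → ℝ → ℝ) (α τ : ℝ) : ℝ :=
  1 + Real.cos α ^ 2 / d * (1 / C α τ ^ (d + 2) *
    (cbar blk a (cl α (S α τ)) ^ d - C α τ ^ d))

lemma UV_cont (hd : 2 ≤ d) {R α : ℝ} (hR : R ≤ π / 2) (hα : α ∈ Ioo 0 R) {a : ι → ℝ → ℝ}
    (ha : ∀ j, ContinuousOn (a j) (Ico 0 R)) (ha0 : ∀ j, ∀ s ∈ Ico 0 R, 0 < a j s) :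
    Continuous (UV blk a α) := by
  have hα' : α ∈ Ico 0 R := ⟨hα.1.le, hα.2⟩
  have hα2 := mem_half hR hα
  have hwc : Continuous fun τ => 1 / C α τ ^ (d + 2) :=
    continuous_const.div ((continuous_C α).pow _) fun τ => (pow_pos (C_pos hα2 τ) _).ne'
  unfold UV
  exact continuous_const.add (continuous_const.mul
    (hwc.mul (((cont_cl hα' (cbar_cont ha ha0)).pow d).sub ((continuous_C α).pow d))))

/-- The mean of the integrand. -/
lemma HH_le (hd : 2 ≤ d) {μ : Measure (Fr d)} (hμ : IsFrameMeasure d μ) {R : ℝ}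
    (hR : R ≤ π / 2) {A : ι → ℝ → E d → ℝ}
    (hA : ∀ j, ContinuousOn (fun p : ℝ × E d => A j p.1 p.2) (Ico 0 R ×ˢ sphere 0 1))
    (hA0 : ∀ j, ∀ s ∈ Ico 0 R, ∀ x ∈ sphere (0 : E d) 1, 0 < A j s x)
    {α : ℝ} (hα : α ∈ Ioo 0 R) (j : ι) {l : ℝ} (hl0 : 0 ≤ l) (hl1 : l ≤ 1) (τ : ℝ) :
    ∫ b, HH blk (Mq μ A) A α j l τ (vecF b 0) ∂μ ≤ UV blk (Mq μ A) α τ := by
  have := hμ.prob
  have hα2 := mem_half hR hα
  have hα' : α ∈ Ico 0 R := ⟨hα.1.le, hα.2⟩
  have ha : ∀ j, ContinuousOn (Mq μ A j) (Ico 0 R) := fun j => Mq_cont j (hA j)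
  have ha0 : ∀ j, ∀ s ∈ Ico 0 R, 0 < Mq μ A j s := fun j s hs => Mq_pos hμ j (hA j) (hA0 j) hs
  have hHc : Continuous fun b : Fr d => HH blk (Mq μ A) A α j l τ (vecF b 0) := by
    have h := (HH_cont (blk := blk) hR hα ha ha0 j (hA j) l).comp
      (f := fun b : Fr d => ((τ, vecF b 0) : ℝ × Sph d))
      (continuous_const.prodMk (Pool.Agent.Y499.HC.continuous_vecF 0))
    exact h
  have hcl := cl_mem' hα' (S α τ)
  have hAc : Continuous fun b : Fr d => A j (cl α (S α τ)) (vecF b 0) := A_cont hcl j (hA j)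
  have h1 := (jensen hμ hHc).1
  have h2 : ∫ b, HH blk (Mq μ A) A α j l τ (vecF b 0) ^ 2 ∂μ =
      pp α τ ^ 2 + l ^ 2 * qq α τ ^ 2 * cbar blk (Mq μ A) (cl α (S α τ)) ^ 2 := by
    have e1 : ∀ b : Fr d, HH blk (Mq μ A) A α j l τ (vecF b 0) ^ 2 =
        pp α τ ^ 2 + (l * wj blk (Mq μ A) α j τ) ^ 2 * A j (cl α (S α τ)) (vecF b 0) ^ 2 := by
      intro b
      unfold HH
      rw [Real.sq_sqrt (by positivity)]
      ring
    simp only [e1]
    have i1 : Integrable (fun _ : Fr d => pp α τ ^ 2) μ := integrable_const _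
    have i2 : Integrable (fun b : Fr d => (l * wj blk (Mq μ A) α j τ) ^ 2 *
        A j (cl α (S α τ)) (vecF b 0) ^ 2) μ := integ μ _ (continuous_const.mul (hAc.pow 2))
    rw [integral_add i1 i2, integral_const, integral_const_mul, ← Mq_sq]
    have h3 := (ha0 j _ hcl).ne'
    simp only [probReal_univ, one_smul]
    unfold wj
    field_simp
  rw [h2] at h1
  have h3 : ∫ b, HH blk (Mq μ A) A α j l τ (vecF b 0) ∂μ ≤
      √(pp α τ ^ 2 + qq α τ ^ 2 * cbar blk (Mq μ A) (cl α (S α τ)) ^ 2) := by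
    refine Real.le_sqrt_of_sq_le (h1.trans ?_)
    have h4 : l ^ 2 ≤ 1 ^ 2 := pow_le_pow_left₀ hl0 hl1 2
    nlinarith [mul_nonneg (sq_nonneg (qq α τ)) (sq_nonneg (cbar blk (Mq μ A) (cl α (S α τ))))]
  refine h3.trans ?_
  have h := t_TAN d hd (pp α τ) (qq α τ) (C α τ)
    (cbar blk (Mq μ A) (cl α (S α τ)) ^ 2) (C_pos hα2 τ) (sq_nonneg _)
    (unit_speed hα2 τ)
  rw [rpow_half, abs_of_nonneg (cbar_pos _ _).le, coeff_eq hα2 hd] at h
  refine h.trans (le_of_eq ?_)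
  unfold UV
  ring

lemma UV_int (hd : 2 ≤ d) {R : ℝ} (hR : R ≤ π / 2) {a : ι → ℝ → ℝ}
    (ha : ∀ j, ContinuousOn (a j) (Ico 0 R)) (ha0 : ∀ j, ∀ s ∈ Ico 0 R, 0 < a j s)
    {α : ℝ} (hα : α ∈ Ioo 0 R) :
    ∫ τ in (0 : ℝ)..π, UV blk a α τ = π + Real.cos α ^ 2 / d *
      ∫ τ in (0 : ℝ)..π, 1 / C α τ ^ (d + 2) *
        (cbar blk a (cl α (S α τ)) ^ d - C α τ ^ d) := by
  have hα' : α ∈ Ico 0 R := ⟨hα.1.le, hα.2⟩
  have hα2 := mem_half hR hα
  have hwc : Continuous fun τ => 1 / C α τ ^ (d + 2) :=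
    continuous_const.div ((continuous_C α).pow _) fun τ => (pow_pos (C_pos hα2 τ) _).ne'
  have hhc : Continuous fun τ => 1 / C α τ ^ (d + 2) *
      (cbar blk a (cl α (S α τ)) ^ d - C α τ ^ d) :=
    hwc.mul (((cont_cl hα' (cbar_cont ha ha0)).pow d).sub ((continuous_C α).pow d))
  have k3 : IntervalIntegrable (fun τ => Real.cos α ^ 2 / d * (1 / C α τ ^ (d + 2) *
      (cbar blk a (cl α (S α τ)) ^ d - C α τ ^ d))) volume 0 π :=
    (continuous_const.mul hhc).intervalIntegrable 0 π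
  have k4 : IntervalIntegrable (fun _ : ℝ => (1 : ℝ)) volume 0 π :=
    continuous_const.intervalIntegrable 0 π
  unfold UV
  rw [intervalIntegral.integral_add k4 k3, intervalIntegral.integral_const_mul]
  simp

/-- The inequality for one angle. -/
theorem one_alpha2 [Fintype ι] (hd : 2 ≤ d) {μ : Measure (Fr d)}
    (hμ : IsFrameMeasure d μ)
    (hq : Splitting blk q) {R : ℝ} (hR : R ≤ π / 2)
    {m : Met d} (hF : Fermi R m) (hS : NonShort R m) {A : ι → ℝ → E d → ℝ}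
    (hA : ∀ j, ContinuousOn (fun p : ℝ × E d => A j p.1 p.2) (Ico 0 R ×ˢ sphere 0 1))
    (hA0 : ∀ j, ∀ s ∈ Ico 0 R, ∀ x ∈ sphere (0 : E d) 1, 0 < A j s x)
    (hg : ∀ s ∈ Ico 0 R, ∀ x ∈ sphere (0 : E d) 1, ∀ v : E d, inner ℝ x v = 0 →
      quad (m.g s x) v = ∑ j, A j s x ^ 2 * q j x v)
    {α : ℝ} (hα : α ∈ Ioo 0 R) :
    0 ≤ ∫ τ in (0 : ℝ)..π, 1 / C α τ ^ (d + 2) *
      (cbar blk (Mq μ A) (cl α (S α τ)) ^ d - C α τ ^ d) := by
  have := hμ.prob
  have hd1 : 1 ≤ d := by omega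
  have hα2 := mem_half hR hα
  have hα' : α ∈ Ico 0 R := ⟨hα.1.le, hα.2⟩
  have hcα := Real.cos_pos_of_mem_Ioo (x := α) ⟨by linarith [hα2.1, Real.pi_pos], hα2.2⟩
  have hd0 : (0 : ℝ) < d := by
    have : 0 < d := by omega
    exact_mod_cast this
  have ha : ∀ j, ContinuousOn (Mq μ A j) (Ico 0 R) := fun j => Mq_cont j (hA j)
  have ha0 : ∀ j, ∀ s ∈ Ico 0 R, 0 < Mq μ A j s := fun j s hs => Mq_pos hμ j (hA j) (hA0 j) hs
  obtain ⟨i₀, hi₀⟩ := exists_dir (blk := blk) hd1 hR ha ha0 hα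
  set I : ℝ := ∫ τ in (0 : ℝ)..π, wj blk (Mq μ A) α (blk i₀) τ with hI
  have hI0 : 0 < I := Real.pi_pos.trans_le hi₀
  have hl : π / I * I = π := div_mul_cancel₀ _ hI0.ne'
  have hl1 : π / I ≤ 1 := (div_le_one hI0).2 hi₀
  have hl0 : 0 ≤ π / I := (div_pos Real.pi_pos hI0).le
  have h1 := mean_ge2 hd1 hμ hq hR hF hS ha ha0 hA hg hα i₀ hl
  have hGm : Continuous fun τ => ∫ b, HH blk (Mq μ A) A α (blk i₀) (π / I) τ (vecF b 0) ∂μ := by
    have h2 := continuous_parametric_integral_of_continuous (μ := μ)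
      (f := fun (τ : ℝ) (b : Fr d) => HH blk (Mq μ A) A α (blk i₀) (π / I) τ (vecF b 0))
      ((HH_cont (blk := blk) hR hα ha ha0 (blk i₀) (hA (blk i₀)) (π / I)).comp
      (f := fun z : ℝ × Fr d => ((z.1, vecF z.2 0) : ℝ × Sph d)) (continuous_fst.prodMk
      ((Pool.Agent.Y499.HC.continuous_vecF 0).comp continuous_snd)))
      (s := univ) isCompact_univ
    simpa only [Measure.restrict_univ] using h2
  have h2 : ∫ τ in (0 : ℝ)..π, ∫ b, HH blk (Mq μ A) A α (blk i₀) (π / I) τ (vecF b 0) ∂μ ≤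
      ∫ τ in (0 : ℝ)..π, UV blk (Mq μ A) α τ :=
    intervalIntegral.integral_mono_on Real.pi_pos.le (hGm.intervalIntegrable 0 π)
      ((UV_cont hd hR hα ha ha0).intervalIntegrable 0 π)
      fun τ _ => HH_le hd hμ hR hA hA0 hα (blk i₀) hl0 hl1 τ
  rw [UV_int hd hR ha ha0 hα] at h2
  have h5 : 0 ≤ Real.cos α ^ 2 / d * ∫ τ in (0 : ℝ)..π, 1 / C α τ ^ (d + 2) *
      (cbar blk (Mq μ A) (cl α (S α τ)) ^ d - C α τ ^ d) := by linarith
  exact nonneg_of_mul_nonneg_right h5 (by positivity)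

end Pool.Agent.L7h41.CS
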