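import Pool.Agent.L7h41.CS.Cliff

/-! # Splittings from Hopf maps -/

set_option autoImplicit false
set_option maxHeartbeats 400000

open Real Set MeasureTheory Metric

namespace Pool.Agent.L7h41.CS

open Pool.Agent.Y499.HC Pool.Agent.Y499.HR

variable {d k : ℕ} {P : Fin (k + 1) → (E d →ₗᵢ[ℝ] E d)}

lemma P_symm (h : IsHopf P) (i : Fin (k + 1)) (x y : E d) :
    (inner ℝ (P i x) y : ℝ) = inner ℝ x (P i y) := by
  rw [← (P i).inner_map_map (P i x) y, h.sq]

lemma P_orth (h : IsHopf P) {i j : Fin (k + 1)} (hij : i ≠ j) (x : E d) :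
    (inner ℝ (P i x) (P j x) : ℝ) = 0 := by
  have h1 : (inner ℝ (P i x) (P j x) : ℝ) = inner ℝ x (P i (P j x)) := P_symm h i x (P j x)
  have h2 : (inner ℝ (P j x) (P i x) : ℝ) = inner ℝ x (P j (P i x)) := P_symm h j x (P i x)
  rw [h.anti i j hij x, inner_neg_right] at h1
  have h3 : (inner ℝ (P j x) (P i x) : ℝ) = inner ℝ (P i x) (P j x) := real_inner_comm _ _
  linarith

lemma P_on (h : IsHopf P) {x : E d} (hx : ‖x‖ = 1) : Orthonormal ℝ fun i => P i x := by
  rw [orthonormal_iff_ite]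
  intro i j
  by_cases hij : i = j
  · subst hij
    rw [if_pos rfl, real_inner_self_eq_norm_sq, (P i).norm_map, hx, one_pow]
  · rw [if_neg hij, P_orth h hij]

/-- The polarisations of the equation of the Hopf map. -/
lemma P_polar (h : IsHopf P) {x v : E d} (hx : ‖x‖ = 1) (hv : ‖v‖ = 1)
    (hxv : inner ℝ x v = (0 : ℝ)) :
    ∑ i, (inner ℝ (P i x) x : ℝ) ^ 2 = 1 ∧ ∑ i, (inner ℝ (P i v) v : ℝ) ^ 2 = 1 ∧
    ∑ i, (inner ℝ (P i x) x : ℝ) * inner ℝ (P i x) v = 0 ∧
    ∑ i, (inner ℝ (P i v) v : ℝ) * inner ℝ (P i x) v = 0 ∧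
    ∑ i, (inner ℝ (P i x) x : ℝ) * inner ℝ (P i v) v =
      1 - 2 * ∑ i, (inner ℝ (P i x) v : ℝ) ^ 2 := by
  have a1 : ∑ i, (inner ℝ (P i x) x : ℝ) ^ 2 = 1 := by rw [h.hopf, hx, one_pow]
  have a2 : ∑ i, (inner ℝ (P i v) v : ℝ) ^ 2 = 1 := by rw [h.hopf, hv, one_pow]
  have hn : ∀ t : ℝ, ‖x + t • v‖ ^ 2 = 1 + t ^ 2 := by
    intro t
    rw [norm_add_sq_real, norm_smul, hx, hv, real_inner_smul_right, hxv, Real.norm_eq_abs,
      mul_one, sq_abs]
    ring
  have key : ∀ t : ℝ, 4 * t * ∑ i, (inner ℝ (P i x) x : ℝ) * inner ℝ (P i x) v +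
      t ^ 2 * (4 * ∑ i, (inner ℝ (P i x) v : ℝ) ^ 2 +
        2 * ∑ i, (inner ℝ (P i x) x : ℝ) * inner ℝ (P i v) v) +
      4 * t ^ 3 * ∑ i, (inner ℝ (P i v) v : ℝ) * inner ℝ (P i x) v = 2 * t ^ 2 := by
    intro t
    have h1 := h.hopf (x + t • v)
    have h2 : ‖x + t • v‖ ^ 4 = (1 + t ^ 2) ^ 2 := by rw [← hn t]; ring
    have h3 : ∀ i, (inner ℝ (P i (x + t • v)) (x + t • v) : ℝ) = inner ℝ (P i x) x +
        2 * t * inner ℝ (P i x) v + t ^ 2 * inner ℝ (P i v) v := by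
      intro i
      have h4 : (inner ℝ (P i v) x : ℝ) = inner ℝ (P i x) v := by
        rw [P_symm h i v x, real_inner_comm]
      rw [map_add, map_smul, inner_add_left, inner_add_right, inner_add_right,
        real_inner_smul_left, real_inner_smul_right, real_inner_smul_left,
        real_inner_smul_right, h4]
      ring
    rw [h2] at h1
    simp only [h3] at h1
    have h5 : ∀ i, ((inner ℝ (P i x) x : ℝ) + 2 * t * inner ℝ (P i x) v +
        t ^ 2 * inner ℝ (P i v) v) ^ 2 = (inner ℝ (P i x) x : ℝ) ^ 2 +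
        (4 * t * ((inner ℝ (P i x) x : ℝ) * inner ℝ (P i x) v) +
        (t ^ 2 * 4 * ((inner ℝ (P i x) v : ℝ) ^ 2) +
        (t ^ 2 * 2 * ((inner ℝ (P i x) x : ℝ) * inner ℝ (P i v) v) +
        (4 * t ^ 3 * ((inner ℝ (P i v) v : ℝ) * inner ℝ (P i x) v) +
        t ^ 4 * (inner ℝ (P i v) v : ℝ) ^ 2)))) := fun i => by ring
    simp only [h5, Finset.sum_add_distrib, ← Finset.mul_sum] at h1
    rw [a1, a2] at h1
    linear_combination h1
  have k1 := key 1
  have k2 := key (-1)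
  have k3 := key 2
  refine ⟨a1, a2, ?_, ?_, ?_⟩ <;> linarith

/-- The blocks of a Hopf family. -/
def hblk (d k : ℕ) (i : Fin d) : Bool := decide ((i : ℕ) < k)

/-- The components of a Hopf family: `true` is horizontal, `false` is vertical. -/
noncomputable def hq (P : Fin (k + 1) → (E d →ₗᵢ[ℝ] E d)) : Bool → E d → E d → ℝ
  | true, x, v => ∑ i, inner ℝ (P i x) v ^ 2
  | false, x, v => ‖v‖ ^ 2 - ∑ i, inner ℝ (P i x) v ^ 2

lemma sum_lt {d k : ℕ} (h : k ≤ d) (f : Fin d → ℝ) :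
    ∑ i : Fin d, (if (i : ℕ) < k then f i else 0) = ∑ j : Fin k, f (Fin.castLE h j) := by
  obtain ⟨m, rfl⟩ := Nat.exists_eq_add_of_le h
  rw [Fin.sum_univ_add]
  simp
  rfl

lemma P_flow (h : IsHopf P) {x v : E d} (hx : ‖x‖ = 1) (hv : ‖v‖ = 1)
    (hxv : inner ℝ x v = (0 : ℝ)) (θ : ℝ) :
    ∑ i, (inner ℝ (P i (cos θ • x + sin θ • v)) (cos θ • v - sin θ • x) : ℝ) ^ 2 =
      ∑ i, (inner ℝ (P i x) v : ℝ) ^ 2 := by
  obtain ⟨a1, a2, a3, a4, a5⟩ := P_polar h hx hv hxv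
  have h1 : ∀ i, (inner ℝ (P i (cos θ • x + sin θ • v)) (cos θ • v - sin θ • x) : ℝ) =
      (cos θ ^ 2 - sin θ ^ 2) * inner ℝ (P i x) v +
        cos θ * sin θ * (inner ℝ (P i v) v - inner ℝ (P i x) x) := by
    intro i
    have h4 : (inner ℝ (P i v) x : ℝ) = inner ℝ (P i x) v := by
      rw [P_symm h i v x, real_inner_comm]
    rw [map_add, map_smul, map_smul, inner_add_left, inner_sub_right, inner_sub_right,
      real_inner_smul_left, real_inner_smul_left, real_inner_smul_left, real_inner_smul_left,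
      real_inner_smul_right, real_inner_smul_right, real_inner_smul_right,
      real_inner_smul_right, h4]
    ring
  have h5 : ∀ i, ((cos θ ^ 2 - sin θ ^ 2) * (inner ℝ (P i x) v : ℝ) +
        cos θ * sin θ * (inner ℝ (P i v) v - inner ℝ (P i x) x)) ^ 2 =
      (cos θ ^ 2 - sin θ ^ 2) ^ 2 * (inner ℝ (P i x) v : ℝ) ^ 2 +
      (2 * (cos θ ^ 2 - sin θ ^ 2) * (cos θ * sin θ) *
        ((inner ℝ (P i v) v : ℝ) * inner ℝ (P i x) v) +
      (-(2 * (cos θ ^ 2 - sin θ ^ 2) * (cos θ * sin θ)) *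
        ((inner ℝ (P i x) x : ℝ) * inner ℝ (P i x) v) +
      ((cos θ * sin θ) ^ 2 * (inner ℝ (P i v) v : ℝ) ^ 2 +
      ((cos θ * sin θ) ^ 2 * (inner ℝ (P i x) x : ℝ) ^ 2 +
      -(2 * (cos θ * sin θ) ^ 2) * ((inner ℝ (P i x) x : ℝ) * inner ℝ (P i v) v))))) :=
    fun i => by ring
  simp only [h1, h5, Finset.sum_add_distrib, ← Finset.mul_sum]
  rw [a1, a2, a3, a4, a5]
  have hcs := Real.sin_sq_add_cos_sq θ
  set B := ∑ i, (inner ℝ (P i x) v : ℝ) ^ 2
  have : (cos θ ^ 2 - sin θ ^ 2) ^ 2 + 4 * (cos θ * sin θ) ^ 2 = 1 := by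
    have e : (cos θ ^ 2 - sin θ ^ 2) ^ 2 + 4 * (cos θ * sin θ) ^ 2 =
      (sin θ ^ 2 + cos θ ^ 2) ^ 2 := by ring
    rw [e, hcs, one_pow]
  linear_combination B * this

lemma P_frame (h : IsHopf P) {x : E d} (hx : ‖x‖ = 1) :
    ∃ c : Fin (k + 1) → E d, Orthonormal ℝ c ∧ c 0 = x ∧
      ∀ v : E d, ∑ j, (inner ℝ (c j) v : ℝ) ^ 2 = ∑ i, (inner ℝ (P i x) v : ℝ) ^ 2 := by
  set y : EuclideanSpace ℝ (Fin (k + 1)) := WithLp.toLp 2 fun i => inner ℝ (P i x) x with hy
  have hyi : ∀ i, y i = inner ℝ (P i x) x := fun i => rfl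
  have hy2 : ∑ i, y i ^ 2 = 1 := by
    simp only [hyi]
    rw [h.hopf, hx, one_pow]
  have hy1 : ‖y‖ = 1 := by
    rw [EuclideanSpace.norm_eq]
    simp only [Real.norm_eq_abs, sq_abs]
    rw [hy2, Real.sqrt_one]
  obtain ⟨h0, u, hu⟩ := ext_basis (d := k) (n := 0) (fun _ => y) (by
    rw [orthonormal_iff_ite]
    intro i j
    have hij : i = j := Fin.ext (by have := i.2; have := j.2; omega)
    rw [if_pos hij, real_inner_self_eq_norm_sq, hy1, one_pow])
  have hu0 : u 0 = y := by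
    have := hu 0
    rw [← this]
    congr 1
  have hon := P_on h hx
  set c : Fin (k + 1) → E d := fun j => ∑ i, u j i • P i x with hc
  have hin : ∀ (p q : EuclideanSpace ℝ (Fin (k + 1))),
      (inner ℝ (∑ i, p i • P i x) (∑ i, q i • P i x) : ℝ) = inner ℝ p q := by
    intro p q
    rw [hon.inner_sum, PiLp.inner_apply]
    refine Finset.sum_congr rfl fun i _ => ?_
    simp [mul_comm]
  have hon' : Orthonormal ℝ c := by
    rw [orthonormal_iff_ite]
    intro i j
    rw [hc]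
    simp only
    rw [hin]
    exact orthonormal_iff_ite.1 u.orthonormal i j
  refine ⟨c, hon', ?_, ?_⟩
  · have h1 : c 0 = ∑ i, y i • P i x := by
      rw [hc]
      simp only
      rw [hu0]
    rw [h1]
    have h2 : ‖(∑ i, y i • P i x) - x‖ ^ 2 = 0 := by
      have e1 : ‖∑ i, y i • P i x‖ ^ 2 = 1 := by
        rw [← real_inner_self_eq_norm_sq, hin, real_inner_self_eq_norm_sq, hy1, one_pow]
      have e2 : (inner ℝ (∑ i, y i • P i x) x : ℝ) = 1 := by
        rw [sum_inner, ← hy2]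
        refine Finset.sum_congr rfl fun i _ => ?_
        rw [real_inner_smul_left, ← hyi, sq]
      rw [norm_sub_sq_real, e1, e2, hx]
      norm_num
    have h3 := norm_eq_zero.1 (pow_eq_zero_iff two_ne_zero |>.1 h2)
    exact sub_eq_zero.1 h3
  · intro v
    set w : EuclideanSpace ℝ (Fin (k + 1)) := WithLp.toLp 2 fun i => inner ℝ (P i x) v with hw
    have h1 : ∀ j, (inner ℝ (c j) v : ℝ) = inner ℝ (u j) w := by
      intro j
      rw [hc]
      simp only
      rw [sum_inner, PiLp.inner_apply]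
      refine Finset.sum_congr rfl fun i _ => ?_
      rw [real_inner_smul_left]
      simp [hw, mul_comm]
    have h2 := u.sum_sq_norm_inner_right w
    simp only [Real.norm_eq_abs, sq_abs] at h2
    simp only [h1]
    rw [h2, EuclideanSpace.norm_sq_eq]
    simp [hw]

theorem hopf_splitting (h : IsHopf P) : Splitting (hblk d k) (hq P) where
  cont := by
    have hP : ∀ i, Continuous fun p : E d × E d => (inner ℝ (P i p.1) p.2 : ℝ) ^ 2 :=
      fun i => by
        have h1 : Continuous fun p : E d × E d => P i p.1 := (P i).continuous.comp continuous_fst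
        have h2 : Continuous fun p : E d × E d => p.2 := continuous_snd
        have h3 : Continuous fun p : E d × E d => (inner ℝ (P i p.1) p.2 : ℝ) := h1.inner h2
        exact h3.pow 2
    have c3 : Continuous fun p : E d × E d => ∑ i, (inner ℝ (P i p.1) p.2 : ℝ) ^ 2 :=
      continuous_finsetSum _ fun i _ => hP i
    rintro (_ | _)
    · have c1 : Continuous fun p : E d × E d => ‖p.2‖ ^ 2 := by fun_prop
      have c4 : Continuous fun p : E d × E d => ‖p.2‖ ^ 2 -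
        ∑ i, (inner ℝ (P i p.1) p.2 : ℝ) ^ 2 := c1.sub c3
      exact c4
    · exact c3
  frame := by
    intro x hx
    have hx1 : ‖x‖ = 1 := mem_sphere_zero_iff_norm.1 hx
    obtain ⟨c, hco, hc0, hcs⟩ := P_frame h hx1
    obtain ⟨hr, B, hB⟩ := ext_basis c hco
    have hkd : k ≤ d := by omega
    have h0 : B 0 = x := by
      have := hB 0
      rw [hc0] at this
      rw [← this]
      congr 1
    have hBs : ∀ j : Fin k, B (Fin.succ (Fin.castLE hkd j)) = c j.succ := by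
      intro j
      rw [← hB j.succ]
      congr 1
    have hhor : ∀ v : E d, inner ℝ x v = (0 : ℝ) → ∑ i, (inner ℝ (P i x) v : ℝ) ^ 2 =
        ∑ i : Fin d, if hblk d k i = true then (inner ℝ (B i.succ) v : ℝ) ^ 2 else 0 := by
      intro v hv
      unfold hblk
      simp only [decide_eq_true_eq]
      rw [sum_lt hkd, ← hcs v, Fin.sum_univ_succ, hc0, hv]
      simp only [hBs]
      ring
    refine ⟨fun i => B i.succ, (succ_orth h0).1, (succ_orth h0).2, ?_⟩
    rintro (_ | _) v hv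
    · show ‖v‖ ^ 2 - ∑ i, (inner ℝ (P i x) v : ℝ) ^ 2 = _
      rw [hhor v hv, ← sum_succ h0 hv, ← Finset.sum_sub_distrib]
      refine Finset.sum_congr rfl fun i _ => ?_
      cases hblk d k i <;> simp
    · exact hhor v hv
  flow := by
    rintro (_ | _) x v hx hv hxv θ
    · show ‖cos θ • v - sin θ • x‖ ^ 2 -
        ∑ i, (inner ℝ (P i (cos θ • x + sin θ • v)) (cos θ • v - sin θ • x) : ℝ) ^ 2 =
        ‖v‖ ^ 2 - ∑ i, (inner ℝ (P i x) v : ℝ) ^ 2
      rw [(flow_orth hx hv hxv θ).1, P_flow h hx hv hxv, hv, one_pow]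
    · exact P_flow h hx hv hxv θ

end Pool.Agent.L7h41.CS
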