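import Pool.Agent.L7h41.CS.Curve
import Pool.Agent.Y331.HC.Pos
import Pool.Agent.Y499.HC.FinalR

/-! # The inequality for one angle -/

set_option autoImplicit false
set_option maxHeartbeats 400000

open Real Set MeasureTheory Metric
open scoped ENNReal

namespace Pool.Agent.L7h41.CS

open Pool.Agent.Y499.HC Pool.Agent.Y499.HR
open Pool.Agent.Z932.HC (hasDerivAt_p hasDerivAt_q contDiff_S hasDerivAt_S)
open Pool.Agent.Y249.HC (integ cont_vec)

variable {d : ℕ} {ι : Type} [DecidableEq ι] {blk : Fin d → ι} {q : ι → E d → E d → ℝ}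

lemma norm_comb (hd : 1 ≤ d) (b : Fr d) (θ : ℝ) :
    cos θ • b.1 0 + sin θ • b.1 1 ∈ sphere (0 : E d) 1 := by
  have hn0 : ‖b.1 0‖ = 1 := b.2.norm_eq_one 0
  have hn1 : ‖b.1 1‖ = 1 := b.2.norm_eq_one 1
  have hin : inner ℝ (b.1 0) (b.1 1) = (0 : ℝ) := b.2.inner_eq_zero (ne01 hd)
  rw [mem_sphere_zero_iff_norm]
  have h1 : ‖cos θ • b.1 0 + sin θ • b.1 1‖ ^ 2 = 1 ^ 2 := by
    rw [norm_add_sq_real, inner_smul_left, inner_smul_right, hin, norm_smul, norm_smul, hn0, hn1,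
      mul_pow, mul_pow, Real.norm_eq_abs, Real.norm_eq_abs, sq_abs, sq_abs]
    have := cs1 θ
    simp
  exact (sq_eq_sq₀ (norm_nonneg _) zero_le_one).1 h1

/-- The mean inequality for a direction of pure type. -/
theorem mean_ge [Fintype ι] (hd : 1 ≤ d) {μ : Measure (Fr d)} (hμ : IsFrameMeasure d μ)
    (hq : Splitting blk q) {R : ℝ} (hR : R ≤ π / 2)
    {m : Met d} (hF : Fermi R m) (hS : NonShort R m) {a : ι → ℝ → ℝ} {κ : ℝ → E d → ℝ}
    (ha : ∀ j, ContinuousOn (a j) (Ico 0 R)) (ha0 : ∀ j, ∀ s ∈ Ico 0 R, 0 < a j s)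
    (hκ : ContinuousOn (fun p : ℝ × E d => κ p.1 p.2) (Ico 0 R ×ˢ sphere 0 1))
    (hg : ∀ s ∈ Ico 0 R, ∀ x ∈ sphere (0 : E d) 1, ∀ v : E d, inner ℝ x v = 0 →
      quad (m.g s x) v = κ s x ^ 2 * ∑ j, a j s ^ 2 * q j x v)
    {α : ℝ} (hα : α ∈ Ioo 0 R) (i₀ : Fin d) {l : ℝ}
    (hl : l * ∫ τ in (0 : ℝ)..π, wj blk a α (blk i₀) τ = π) :
    π ≤ ∫ τ in (0 : ℝ)..π, ∫ b, GG blk a κ α l τ (vecF b 0) ∂μ := by
  have := hμ.prob
  obtain ⟨θ, hθc, hθ⟩ := pure_curve hd hq hR hF hS ha ha0 hg hα (blk i₀) hl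
  have hG := GG_cont (blk := blk) hR hα ha ha0 hκ l
  set X : ℝ → Fr d → Sph d := fun τ b => ⟨cos (θ τ) • b.1 0 + sin (θ τ) • b.1 1,
    norm_comb hd b (θ τ)⟩ with hX
  have hXc : Continuous fun z : Fr d × ℝ => X z.2 z.1 := by
    refine Continuous.subtype_mk ?_ _
    exact ((Real.continuous_cos.comp (hθc.comp continuous_snd)).smul
      ((cont_vec 0).comp continuous_fst)).add
      ((Real.continuous_sin.comp (hθc.comp continuous_snd)).smul
      ((cont_vec 1).comp continuous_fst))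
  have hFc : Continuous (Function.uncurry fun (b : Fr d) (τ : ℝ) =>
      GG blk a κ α l τ (X τ b)) := by
    have h := hG.comp (f := fun z : Fr d × ℝ => ((z.2, X z.2 z.1) : ℝ × Sph d))
      (continuous_snd.prodMk hXc)
    exact h
  have hH : Continuous fun b : Fr d => ∫ τ in (0 : ℝ)..π, GG blk a κ α l τ (X τ b) :=
    intervalIntegral.continuous_parametric_intervalIntegral_of_continuous' hFc 0 π
  refine conc hd Pool.Agent.Y331.HC.t_POS hμ hq i₀ hH (fun b hb => hθ b hb (fun τ => X τ b)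
    fun τ => rfl) ?_
  intro φ hφ _
  have htc := tt_cont hq (blk i₀)
  have e1 : ∀ b : Fr d, φ (tt q (blk i₀) b) * ∫ τ in (0 : ℝ)..π, GG blk a κ α l τ (X τ b) =
      ∫ τ in Ioc 0 π, φ (tt q (blk i₀) b) * GG blk a κ α l τ (X τ b) := by
    intro b
    rw [intervalIntegral.integral_of_le Real.pi_pos.le, integral_const_mul]
  simp only [e1]
  have hcomp : Integrable (Function.uncurry fun (b : Fr d) (τ : ℝ) =>
      φ (tt q (blk i₀) b) * GG blk a κ α l τ (X τ b)) (μ.prod (volume.restrict (Ioc 0 π))) := by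
    have hc : Continuous (fun z : Fr d × ℝ =>
        φ (tt q (blk i₀) z.1) * GG blk a κ α l z.2 (X z.2 z.1)) :=
      ((hφ.comp htc).comp continuous_fst).mul hFc
    have h1 : IntegrableOn (fun z : Fr d × ℝ =>
        φ (tt q (blk i₀) z.1) * GG blk a κ α l z.2 (X z.2 z.1)) (univ ×ˢ Icc 0 π)
        (μ.prod volume) :=
      hc.continuousOn.integrableOn_compact (isCompact_univ.prod isCompact_Icc)
    have h2 := h1.mono_set (prod_mono (Subset.refl (univ : Set (Fr d)))
      (Ioc_subset_Icc_self : Ioc 0 π ⊆ Icc 0 π))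
    rw [IntegrableOn, ← Measure.prod_restrict, Measure.restrict_univ] at h2
    exact h2
  rw [integral_integral_swap hcomp]
  have e2 : ∀ τ, ∫ b, φ (tt q (blk i₀) b) * GG blk a κ α l τ (X τ b) ∂μ =
      (∫ b, φ (tt q (blk i₀) b) ∂μ) * ∫ b, GG blk a κ α l τ (vecF b 0) ∂μ := by
    intro τ
    have hGτ : Continuous fun x : Sph d => GG blk a κ α l τ x :=
      hG.comp (f := fun x : Sph d => ((τ, x) : ℝ × Sph d)) (by fun_prop)
    rw [avg_rot hd hμ hq (blk i₀) hφ hGτ (θ τ) (fun b => X τ b) fun b => rfl,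
      indep hd hμ hq (blk i₀) hφ hGτ]
  simp only [e2]
  rw [integral_const_mul, intervalIntegral.integral_of_le Real.pi_pos.le]

/-- The inequality of the means. -/
lemma amgm {R : ℝ} {a : ι → ℝ → ℝ} (ha0 : ∀ j, ∀ s ∈ Ico 0 R, 0 < a j s) (hd : 1 ≤ d) {s : ℝ}
    (hs : s ∈ Ico 0 R) : (d : ℝ) ≤ ∑ i : Fin d, cbar blk a s / a (blk i) s ∧
      (∑ i : Fin d, cbar blk a s / a (blk i) s = d → ∀ i, a (blk i) s = cbar blk a s) := by
  have hc := cbar_pos (blk := blk) a s
  have hai : ∀ i : Fin d, 0 < a (blk i) s := fun i => ha0 _ s hs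
  have hpos : ∀ i : Fin d, 0 < cbar blk a s / a (blk i) s := fun i => div_pos hc (hai i)
  have hd0 : (d : ℝ) ≠ 0 := by
    have : 0 < d := hd
    exact_mod_cast this.ne'
  have hlog : ∑ i : Fin d, Real.log (cbar blk a s / a (blk i) s) = 0 := by
    have h1 : ∀ i : Fin d, Real.log (cbar blk a s / a (blk i) s) =
        (∑ k, Real.log (a (blk k) s)) / d - Real.log (a (blk i) s) := by
      intro i
      rw [Real.log_div hc.ne' (hai i).ne']
      unfold cbar
      rw [Real.log_exp]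
    simp only [h1]
    rw [Finset.sum_sub_distrib, Finset.sum_const, Finset.card_univ, Fintype.card_fin, nsmul_eq_mul,
      mul_div_cancel₀ _ hd0, sub_self]
  have hterm : ∀ i : Fin d, 0 ≤ cbar blk a s / a (blk i) s - 1 -
      Real.log (cbar blk a s / a (blk i) s) := by
    intro i
    have := Real.log_le_sub_one_of_pos (hpos i)
    linarith
  have hsum : ∑ i : Fin d, (cbar blk a s / a (blk i) s - 1 -
      Real.log (cbar blk a s / a (blk i) s)) = ∑ i : Fin d, cbar blk a s / a (blk i) s - d := by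
    rw [Finset.sum_sub_distrib, hlog, Finset.sum_sub_distrib, Finset.sum_const, Finset.card_univ,
      Fintype.card_fin]
    simp
  constructor
  · have := Finset.sum_nonneg fun (i : Fin d) (_ : i ∈ Finset.univ) => hterm i
    rw [hsum] at this
    linarith
  · intro h i
    rw [h, sub_self] at hsum
    have h2 := (Finset.sum_eq_zero_iff_of_nonneg fun i _ => hterm i).1 hsum i (Finset.mem_univ i)
    have h3 : cbar blk a s / a (blk i) s = 1 := by
      by_contra hne
      have := Real.log_lt_sub_one_of_pos (hpos i) hne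
      linarith
    have h4 := (hai i).ne'
    field_simp at h3
    exact h3.symm

/-- The angle of a great semicircle. -/
lemma int_qq {α : ℝ} (hα : α ∈ Ioo 0 (π / 2)) : ∫ τ in (0 : ℝ)..π, qq α τ = π := by
  have hcα := Real.cos_pos_of_mem_Ioo (x := α) ⟨by linarith [hα.1, Real.pi_pos], hα.2⟩
  have hc : ContinuousOn (fun τ => Real.arccos (cos τ / C α τ)) (Icc 0 π) := by
    refine (Real.continuous_arccos.comp ?_).continuousOn
    exact Real.continuous_cos.div (continuous_C α) fun τ => (C_pos hα τ).ne'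
  have hder : ∀ τ ∈ Ioo 0 π, HasDerivAt (fun τ => Real.arccos (cos τ / C α τ)) (qq α τ) τ := by
    intro τ hτ
    have hs : 0 < sin τ := sin_pos_of_pos_of_lt_pi hτ.1 hτ.2
    have hC := C_pos hα τ
    have hu := unit_coeff hα τ
    have hpos : 0 < cos α * sin τ / C α τ := by positivity
    have h1 : cos τ / C α τ ≠ -1 := by
      intro h
      rw [h] at hu
      nlinarith
    have h2 : cos τ / C α τ ≠ 1 := by
      intro h
      rw [h] at hu
      nlinarith
    have h3 := (Real.hasDerivAt_arccos h1 h2).comp τ (hasDerivAt_p hα τ)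
    refine h3.congr_deriv ?_
    have h4 : √(1 - (cos τ / C α τ) ^ 2) = cos α * sin τ / C α τ := by
      rw [← hu, add_sub_cancel_left, Real.sqrt_sq hpos.le]
    rw [h4]
    unfold qq
    field_simp
  have h := intervalIntegral.integral_eq_sub_of_hasDerivAt_of_le Real.pi_pos.le hc hder
    ((qq_cont hα).intervalIntegrable 0 π)
  rw [h]
  have hC0 : C α 0 = 1 := by
    unfold C
    simp
  have hCπ : C α π = 1 := by
    unfold C
    simp
  simp only [hC0, hCπ, Real.cos_pi, Real.cos_zero, div_one, Real.arccos_one, Real.arccos_neg_one,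
    sub_zero]

/-- Some modified angle is at least `π`. -/
lemma exists_dir (hd : 1 ≤ d) {R : ℝ} (hR : R ≤ π / 2) {a : ι → ℝ → ℝ}
    (ha : ∀ j, ContinuousOn (a j) (Ico 0 R)) (ha0 : ∀ j, ∀ s ∈ Ico 0 R, 0 < a j s)
    {α : ℝ} (hα : α ∈ Ioo 0 R) :
    ∃ i₀ : Fin d, π ≤ ∫ τ in (0 : ℝ)..π, wj blk a α (blk i₀) τ := by
  by_contra hcon
  push Not at hcon
  have hα2 := mem_half hR hα
  have hα' : α ∈ Ico 0 R := ⟨hα.1.le, hα.2⟩
  have hint : ∀ i : Fin d, IntervalIntegrable (fun τ => wj blk a α (blk i) τ) volume 0 π :=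
    fun i => (wj_cont hR hα ha ha0 _).intervalIntegrable 0 π
  have h1 : ∑ i : Fin d, ∫ τ in (0 : ℝ)..π, wj blk a α (blk i) τ < ∑ _i : Fin d, π := by
    have : Nonempty (Fin d) := ⟨⟨0, hd⟩⟩
    exact Finset.sum_lt_sum_of_nonempty Finset.univ_nonempty fun i _ => hcon i
  rw [← intervalIntegral.integral_finsetSum fun i _ => hint i] at h1
  have h2 : ∫ τ in (0 : ℝ)..π, (d : ℝ) * qq α τ ≤
      ∫ τ in (0 : ℝ)..π, ∑ i : Fin d, wj blk a α (blk i) τ := by
    refine intervalIntegral.integral_mono_on Real.pi_pos.le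
      ((continuous_const.mul (qq_cont hα2)).intervalIntegrable 0 π)
      ((continuous_finsetSum _ fun i _ => wj_cont hR hα ha ha0 (blk i)).intervalIntegrable 0 π)
      fun τ _ => ?_
    unfold wj
    rw [← Finset.mul_sum, mul_comm]
    exact mul_le_mul_of_nonneg_left (amgm ha0 hd (cl_mem' hα' _)).1 (qq_pos hα2 τ).le
  rw [intervalIntegral.integral_const_mul, int_qq hα2] at h2
  rw [Finset.sum_const, Finset.card_univ, Fintype.card_fin, nsmul_eq_mul] at h1
  linarith

/-- The mean of the powers of the conformal factor. -/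
noncomputable def MM (μ : Measure (Fr d)) (blk : Fin d → ι) (a : ι → ℝ → ℝ) (κ : ℝ → E d → ℝ)
    (s : ℝ) : ℝ := ∫ b, (κ s (vecF b 0) * cbar blk a s) ^ d ∂μ

lemma GG_le (hd : 2 ≤ d) {R : ℝ} (hR : R ≤ π / 2) {a : ι → ℝ → ℝ} {κ : ℝ → E d → ℝ}
    (hκ0 : ∀ s ∈ Ico 0 R, ∀ x ∈ sphere (0 : E d) 1, 0 < κ s x) {α : ℝ} (hα : α ∈ Ioo 0 R)
    (τ : ℝ) (x : Sph d) :
    GG blk a κ α 1 τ x ≤ 1 + qq α τ ^ 2 / (d * C α τ ^ (d - 2)) *
      ((κ (cl α (S α τ)) x * cbar blk a (cl α (S α τ))) ^ d - C α τ ^ d) := by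
  have hα2 := mem_half hR hα
  have hα' : α ∈ Ico 0 R := ⟨hα.1.le, hα.2⟩
  have h0 : 0 ≤ κ (cl α (S α τ)) x * cbar blk a (cl α (S α τ)) :=
    (mul_pos (hκ0 _ (cl_mem' hα' _) x x.2) (cbar_pos _ _)).le
  have h := t_TAN d hd (pp α τ) (qq α τ) (C α τ)
    ((κ (cl α (S α τ)) x * cbar blk a (cl α (S α τ))) ^ 2) (C_pos hα2 τ) (sq_nonneg _)
    (unit_speed hα2 τ)
  rw [rpow_half, abs_of_nonneg h0] at h
  unfold GG
  rw [one_pow, one_mul]
  exact h

/-- The inequality for one angle. -/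
theorem one_alpha [Fintype ι] (hd : 2 ≤ d) {μ : Measure (Fr d)} (hμ : IsFrameMeasure d μ)
    (hq : Splitting blk q) {R : ℝ} (hR : R ≤ π / 2)
    {m : Met d} (hF : Fermi R m) (hS : NonShort R m) {a : ι → ℝ → ℝ} {κ : ℝ → E d → ℝ}
    (ha : ∀ j, ContinuousOn (a j) (Ico 0 R)) (ha0 : ∀ j, ∀ s ∈ Ico 0 R, 0 < a j s)
    (hκ : ContinuousOn (fun p : ℝ × E d => κ p.1 p.2) (Ico 0 R ×ˢ sphere 0 1))
    (hκ0 : ∀ s ∈ Ico 0 R, ∀ x ∈ sphere (0 : E d) 1, 0 < κ s x)
    (hg : ∀ s ∈ Ico 0 R, ∀ x ∈ sphere (0 : E d) 1, ∀ v : E d, inner ℝ x v = 0 →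
      quad (m.g s x) v = κ s x ^ 2 * ∑ j, a j s ^ 2 * q j x v)
    {α : ℝ} (hα : α ∈ Ioo 0 R) :
    0 ≤ ∫ τ in (0 : ℝ)..π, 1 / C α τ ^ (d + 2) *
      (MM μ blk a κ (cl α (S α τ)) - C α τ ^ d) := by
  have := hμ.prob
  have hd1 : 1 ≤ d := by omega
  have hα2 := mem_half hR hα
  have hα' : α ∈ Ico 0 R := ⟨hα.1.le, hα.2⟩
  have hcα := Real.cos_pos_of_mem_Ioo (x := α) ⟨by linarith [hα2.1, Real.pi_pos], hα2.2⟩
  have hd0 : (0 : ℝ) < d := by
    have : 0 < d := by omega
    exact_mod_cast this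
  obtain ⟨i₀, hi₀⟩ := exists_dir (blk := blk) hd1 hR ha ha0 hα
  set I : ℝ := ∫ τ in (0 : ℝ)..π, wj blk a α (blk i₀) τ with hI
  have hI0 : 0 < I := Real.pi_pos.trans_le hi₀
  have hl : π / I * I = π := div_mul_cancel₀ _ hI0.ne'
  have hl1 : π / I ≤ 1 := (div_le_one hI0).2 hi₀
  have hl0 : 0 ≤ π / I := (div_pos Real.pi_pos hI0).le
  have h1 := mean_ge hd1 hμ hq hR hF hS ha ha0 hκ hg hα i₀ hl
  have hint : ∀ f : Fr d → ℝ, Continuous f → Integrable f μ := fun f hf => integ μ f hf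
  have hκc : Continuous fun z : ℝ × Fr d => κ (cl α (S α z.1)) (vecF z.2 0) :=
    (clamp_cont' hα' hκ).comp (((continuous_S α).comp continuous_fst).prodMk
      ((Pool.Agent.Y499.HC.continuous_vecF 0).comp continuous_snd))
  have hyc : Continuous fun z : ℝ × Fr d =>
      (κ (cl α (S α z.1)) (vecF z.2 0) * cbar blk a (cl α (S α z.1))) ^ d :=
    (hκc.mul ((cont_cl hα' (cbar_cont ha ha0)).comp continuous_fst)).pow d
  have hMc : Continuous fun τ => MM μ blk a κ (cl α (S α τ)) := by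
    unfold MM
    have h2 := continuous_parametric_integral_of_continuous (μ := μ)
      (f := fun (τ : ℝ) (b : Fr d) =>
        (κ (cl α (S α τ)) (vecF b 0) * cbar blk a (cl α (S α τ))) ^ d) hyc
      (s := univ) isCompact_univ
    simpa only [Measure.restrict_univ] using h2
  have hGc : ∀ l : ℝ, Continuous fun z : ℝ × Fr d => GG blk a κ α l z.1 (vecF z.2 0) := fun l =>
    (GG_cont (blk := blk) hR hα ha ha0 hκ l).comp (f := fun z : ℝ × Fr d =>
      ((z.1, vecF z.2 0) : ℝ × Sph d)) (continuous_fst.prodMk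
      ((Pool.Agent.Y499.HC.continuous_vecF 0).comp continuous_snd))
  have hGm : ∀ l : ℝ, Continuous fun τ => ∫ b, GG blk a κ α l τ (vecF b 0) ∂μ := by
    intro l
    have h2 := continuous_parametric_integral_of_continuous (μ := μ)
      (f := fun (τ : ℝ) (b : Fr d) => GG blk a κ α l τ (vecF b 0)) (hGc l)
      (s := univ) isCompact_univ
    simpa only [Measure.restrict_univ] using h2
  have hGs : ∀ l τ : ℝ, Continuous fun b : Fr d => GG blk a κ α l τ (vecF b 0) := fun l τ =>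
    (hGc l).comp (f := fun b : Fr d => ((τ, b) : ℝ × Fr d)) (by fun_prop)
  have hys : ∀ τ : ℝ, Continuous fun b : Fr d =>
      (κ (cl α (S α τ)) (vecF b 0) * cbar blk a (cl α (S α τ))) ^ d := fun τ =>
    hyc.comp (f := fun b : Fr d => ((τ, b) : ℝ × Fr d)) (by fun_prop)
  have hwc : Continuous fun τ => 1 / C α τ ^ (d + 2) :=
    continuous_const.div ((continuous_C α).pow _) fun τ => (pow_pos (C_pos hα2 τ) _).ne'
  have hhc : Continuous fun τ => 1 / C α τ ^ (d + 2) *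
      (MM μ blk a κ (cl α (S α τ)) - C α τ ^ d) :=
    hwc.mul (hMc.sub ((continuous_C α).pow d))
  have h2 : ∫ τ in (0 : ℝ)..π, ∫ b, GG blk a κ α (π / I) τ (vecF b 0) ∂μ ≤
      ∫ τ in (0 : ℝ)..π, (1 + Real.cos α ^ 2 / d * (1 / C α τ ^ (d + 2) *
        (MM μ blk a κ (cl α (S α τ)) - C α τ ^ d))) := by
    refine intervalIntegral.integral_mono_on Real.pi_pos.le
      ((hGm _).intervalIntegrable 0 π)
      ((continuous_const.add (continuous_const.mul hhc)).intervalIntegrable 0 π) fun τ _ => ?_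
    have h3 : ∀ b : Fr d, GG blk a κ α (π / I) τ (vecF b 0) ≤
        1 + qq α τ ^ 2 / (d * C α τ ^ (d - 2)) *
      ((κ (cl α (S α τ)) (vecF b 0) * cbar blk a (cl α (S α τ))) ^ d - C α τ ^ d) := by
      intro b
      refine le_trans ?_ (GG_le hd hR hκ0 hα τ (vecF b 0))
      unfold GG
      refine Real.sqrt_le_sqrt ?_
      have h4 : (π / I) ^ 2 ≤ 1 ^ 2 := pow_le_pow_left₀ hl0 hl1 2
      gcongr
    refine (integral_mono (hint _ (hGs _ τ)) (hint _ ?_) h3).trans (le_of_eq ?_)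
    · exact continuous_const.add (continuous_const.mul ((hys τ).sub continuous_const))
    · have i1 : Integrable (fun b : Fr d =>
          (κ (cl α (S α τ)) (vecF b 0) * cbar blk a (cl α (S α τ))) ^ d - C α τ ^ d) μ :=
        hint _ ((hys τ).sub continuous_const)
      rw [integral_add (integrable_const _) (i1.const_mul _), integral_const, integral_const_mul,
        integral_sub (hint _ (hys τ)) (integrable_const _), integral_const, coeff_eq hα2 hd]
      simp [MM]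
      ring
  have h3 := h1.trans h2
  have k3 : IntervalIntegrable (fun τ => Real.cos α ^ 2 / d * (1 / C α τ ^ (d + 2) *
      (MM μ blk a κ (cl α (S α τ)) - C α τ ^ d))) volume 0 π :=
    (continuous_const.mul hhc).intervalIntegrable 0 π
  have k4 : IntervalIntegrable (fun _ : ℝ => (1 : ℝ)) volume 0 π :=
    continuous_const.intervalIntegrable 0 π
  rw [intervalIntegral.integral_add k4 k3, intervalIntegral.integral_const_mul] at h3
  simp only [intervalIntegral.integral_const, sub_zero, smul_eq_mul, mul_one] at h3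
  have h5 : 0 ≤ Real.cos α ^ 2 / d * ∫ τ in (0 : ℝ)..π, 1 / C α τ ^ (d + 2) *
      (MM μ blk a κ (cl α (S α τ)) - C α τ ^ d) := by linarith
  exact nonneg_of_mul_nonneg_right h5 (by positivity)

end Pool.Agent.L7h41.CS
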