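import Pool.Agent.L7h41.CS.Main
import Pool.Agent.Y499.HC.Rigid

/-! # The case of equality -/

set_option autoImplicit false
set_option maxHeartbeats 400000

open Real Set MeasureTheory Metric Filter Topology
open scoped ENNReal

namespace Pool.Agent.L7h41.CS

open Pool.Agent.Y499.HC Pool.Agent.Y499.HR
open Pool.Agent.Y249.HC (integ cont_vec quad_smul)

variable {d : ℕ} {ι : Type} [DecidableEq ι] {blk : Fin d → ι} {q : ι → E d → E d → ℝ}

/-- The case of equality in the tangent line inequality. -/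
lemma strict_tan (hd : 2 ≤ d) {p q c y : ℝ} (hc : 0 < c) (hy : 0 ≤ y) (hq : q ≠ 0)
    (h : p ^ 2 + q ^ 2 * c ^ 2 = 1)
    (he : 1 + q ^ 2 / (d * c ^ (d - 2)) * (y ^ ((d : ℝ) / 2) - c ^ d) ≤ √(p ^ 2 + q ^ 2 * y)) :
    y = c ^ 2 := by
  have e : p ^ 2 + q ^ 2 * y = 1 + q ^ 2 * (y - c ^ 2) := by linear_combination h
  have hz : -1 ≤ q ^ 2 * (y - c ^ 2) := by
    have : 0 ≤ p ^ 2 + q ^ 2 * y := by positivity
    rw [e] at this
    linarith
  rw [e] at he
  have hd' : (2 : ℝ) ≤ d := by exact_mod_cast hd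
  have hB := one_add_mul_self_le_rpow_one_add (s := y / c ^ 2 - 1) (by
    have : 0 ≤ y / c ^ 2 := by positivity
    linarith) (p := (d : ℝ) / 2) (by rw [le_div_iff₀ (by norm_num)]; linarith)
  have h2 : 1 + (y / c ^ 2 - 1) = y / c ^ 2 := by ring
  have h3 : (y / c ^ 2) ^ ((d : ℝ) / 2) = y ^ ((d : ℝ) / 2) / c ^ d := by
    rw [Real.div_rpow hy (by positivity)]
    congr 1
    rw [← Real.rpow_natCast c 2, ← Real.rpow_mul hc.le, ← Real.rpow_natCast c d]
    congr 1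
    push_cast
    ring
  rw [h2, h3, le_div_iff₀ (by positivity)] at hB
  have hcd : c ^ d = c ^ (d - 2) * c ^ 2 := by rw [← pow_add]; congr 1; omega
  have h4 : (1 + (d : ℝ) / 2 * (y / c ^ 2 - 1)) * c ^ d =
      c ^ d + (d : ℝ) / 2 * (c ^ (d - 2) * (y - c ^ 2)) := by
    rw [hcd]
    field_simp
  rw [h4] at hB
  have hK : 0 < (d : ℝ) * c ^ (d - 2) := by positivity
  have h5 : q ^ 2 / (d * c ^ (d - 2)) * (y ^ ((d : ℝ) / 2) - c ^ d) -
      q ^ 2 * (y - c ^ 2) / 2 = q ^ 2 / (d * c ^ (d - 2)) *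
        ((y ^ ((d : ℝ) / 2) - c ^ d) - (d : ℝ) / 2 * (c ^ (d - 2) * (y - c ^ 2))) := by
    field_simp
  have h6 : 0 ≤ q ^ 2 / (d * c ^ (d - 2)) *
        ((y ^ ((d : ℝ) / 2) - c ^ d) - (d : ℝ) / 2 * (c ^ (d - 2) * (y - c ^ 2))) :=
    mul_nonneg (by positivity) (by linarith)
  set z : ℝ := q ^ 2 * (y - c ^ 2) with hzd
  have h7 : 1 + z / 2 ≤ √(1 + z) := by linarith
  have h8 : (1 + z / 2) ^ 2 ≤ 1 + z := by
    have h9 := pow_le_pow_left₀ (by linarith) h7 2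
    rwa [Real.sq_sqrt (by linarith)] at h9
  have h10 : z = 0 := by nlinarith
  have h11 : y - c ^ 2 = 0 := by
    rcases mul_eq_zero.1 (hzd ▸ h10) with h12 | h12
    · exact absurd (pow_eq_zero_iff (two_ne_zero) |>.1 h12) hq
    · exact h12
  linarith

/-- The upper bound of the integrand. -/
noncomputable def UB (blk : Fin d → ι) (a : ι → ℝ → ℝ) (κ : ℝ → E d → ℝ) (α τ : ℝ)
    (x : Sph d) : ℝ :=
  1 + qq α τ ^ 2 / (d * C α τ ^ (d - 2)) *
      ((κ (cl α (S α τ)) x * cbar blk a (cl α (S α τ))) ^ d - C α τ ^ d)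

lemma UB_cont (hd : 2 ≤ d) {R α : ℝ} (hR : R ≤ π / 2) (hα : α ∈ Ioo 0 R) {a : ι → ℝ → ℝ}
    (ha : ∀ j, ContinuousOn (a j) (Ico 0 R)) (ha0 : ∀ j, ∀ s ∈ Ico 0 R, 0 < a j s)
    {κ : ℝ → E d → ℝ}
    (hκ : ContinuousOn (fun p : ℝ × E d => κ p.1 p.2) (Ico 0 R ×ˢ sphere 0 1)) :
    Continuous fun z : ℝ × Fr d => UB blk a κ α z.1 (vecF z.2 0) := by
  have hα' : α ∈ Ico 0 R := ⟨hα.1.le, hα.2⟩
  have hκc : Continuous fun z : ℝ × Fr d => κ (cl α (S α z.1)) (vecF z.2 0) :=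
    (clamp_cont' hα' hκ).comp (((continuous_S α).comp continuous_fst).prodMk
      ((Pool.Agent.Y499.HC.continuous_vecF 0).comp continuous_snd))
  have hyc : Continuous fun z : ℝ × Fr d =>
      (κ (cl α (S α z.1)) (vecF z.2 0) * cbar blk a (cl α (S α z.1))) ^ d :=
    (hκc.mul ((cont_cl hα' (cbar_cont ha ha0)).comp continuous_fst)).pow d
  have h1 := coeff_cont (d := d) hR hd hα
  have h3 : Continuous (fun z : ℝ × Fr d => C α z.1 ^ d) :=
    ((continuous_C α).comp continuous_fst).pow d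
  exact continuous_const.add (h1.mul (hyc.sub h3))

lemma UB_mean (hd : 2 ≤ d) {μ : Measure (Fr d)} [IsProbabilityMeasure μ] {R α : ℝ}
    (hR : R ≤ π / 2) (hα : α ∈ Ioo 0 R)
    {a : ι → ℝ → ℝ} {κ : ℝ → E d → ℝ}
    (hκ : ContinuousOn (fun p : ℝ × E d => κ p.1 p.2) (Ico 0 R ×ˢ sphere 0 1)) (τ : ℝ) :
    ∫ b, UB blk a κ α τ (vecF b 0) ∂μ = 1 + Real.cos α ^ 2 / d * (1 / C α τ ^ (d + 2) *
        (MM μ blk a κ (cl α (S α τ)) - C α τ ^ d)) := by
  have hα2 := mem_half hR hα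
  have hα' : α ∈ Ico 0 R := ⟨hα.1.le, hα.2⟩
  have hint : ∀ f : Fr d → ℝ, Continuous f → Integrable f μ := fun f hf => integ μ f hf
  have hκs : Continuous fun b : Fr d => κ (cl α (S α τ)) (vecF b 0) := by
    have h := (clamp_cont' hα' hκ).comp (f := fun b : Fr d => ((S α τ, vecF b 0) : ℝ × Sph d))
      (continuous_const.prodMk (Pool.Agent.Y499.HC.continuous_vecF 0))
    exact h
  have hys : Continuous fun b : Fr d =>
      (κ (cl α (S α τ)) (vecF b 0) * cbar blk a (cl α (S α τ))) ^ d :=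
    (hκs.mul continuous_const).pow d
  have i1 : Integrable (fun b : Fr d =>
      (κ (cl α (S α τ)) (vecF b 0) * cbar blk a (cl α (S α τ))) ^ d - C α τ ^ d) μ :=
    hint _ (hys.sub continuous_const)
  unfold UB
  rw [integral_add (integrable_const _) (i1.const_mul _), integral_const, integral_const_mul,
    integral_sub (hint _ hys) (integrable_const _), integral_const, coeff_eq hα2 hd]
  simp [MM]
  ring

lemma GG_mono {a : ι → ℝ → ℝ} {κ : ℝ → E d → ℝ} {α τ l : ℝ} (hl0 : 0 ≤ l) (hl1 : l ≤ 1)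
    (x : Sph d) : GG blk a κ α l τ x ≤ GG blk a κ α 1 τ x := by
  unfold GG
  refine Real.sqrt_le_sqrt ?_
  have h4 : l ^ 2 ≤ 1 ^ 2 := pow_le_pow_left₀ hl0 hl1 2
  gcongr

/-- In the case of equality the bounds coincide for every direction with a large angle. -/
theorem gap_eq [Fintype ι] (hd : 2 ≤ d) {μ : Measure (Fr d)} (hμ : IsFrameMeasure d μ)
    (hq : Splitting blk q) {R : ℝ} (hR : R ≤ π / 2)
    {m : Met d} (hF : Fermi R m) (hS : NonShort R m) {a : ι → ℝ → ℝ} {κ : ℝ → E d → ℝ}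
    (ha : ∀ j, ContinuousOn (a j) (Ico 0 R)) (ha0 : ∀ j, ∀ s ∈ Ico 0 R, 0 < a j s)
    (hκ : ContinuousOn (fun p : ℝ × E d => κ p.1 p.2) (Ico 0 R ×ˢ sphere 0 1))
    (hκ0 : ∀ s ∈ Ico 0 R, ∀ x ∈ sphere (0 : E d) 1, 0 < κ s x)
    (hg : ∀ s ∈ Ico 0 R, ∀ x ∈ sphere (0 : E d) 1, ∀ v : E d, inner ℝ x v = 0 →
      quad (m.g s x) v = κ s x ^ 2 * ∑ j, a j s ^ 2 * q j x v)
    (hz : ∀ s ∈ Ioo 0 R, MM μ blk a κ s = Real.cos s ^ d)
    {α : ℝ} (hα : α ∈ Ioo 0 R) (i₀ : Fin d)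
    (hi₀ : π ≤ ∫ τ in (0 : ℝ)..π, wj blk a α (blk i₀) τ) {τ : ℝ} (hτ : τ ∈ Icc 0 π) (b : Fr d) :
    GG blk a κ α (π / ∫ τ in (0 : ℝ)..π, wj blk a α (blk i₀) τ) τ (vecF b 0) =
      UB blk a κ α τ (vecF b 0) := by
  have := hμ.prob
  have hd1 : 1 ≤ d := by omega
  have hα2 := mem_half hR hα
  set I : ℝ := ∫ τ in (0 : ℝ)..π, wj blk a α (blk i₀) τ with hI
  have hI0 : 0 < I := Real.pi_pos.trans_le hi₀
  have hl : π / I * I = π := div_mul_cancel₀ _ hI0.ne'
  have hl1 : π / I ≤ 1 := (div_le_one hI0).2 hi₀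
  have hl0 : 0 ≤ π / I := (div_pos Real.pi_pos hI0).le
  have h1 := mean_ge hd1 hμ hq hR hF hS ha ha0 hκ hg hα i₀ hl
  have hGc : Continuous fun z : ℝ × Fr d => GG blk a κ α (π / I) z.1 (vecF z.2 0) :=
    (GG_cont (blk := blk) hR hα ha ha0 hκ (π / I)).comp (f := fun z : ℝ × Fr d =>
      ((z.1, vecF z.2 0) : ℝ × Sph d)) (continuous_fst.prodMk
      ((Pool.Agent.Y499.HC.continuous_vecF 0).comp continuous_snd))
  have hUc := UB_cont (blk := blk) hd hR hα ha ha0 hκ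
  have hpar : ∀ F : ℝ × Fr d → ℝ, Continuous F → Continuous fun τ => ∫ b, F (τ, b) ∂μ := by
    intro F hF
    have h2 := continuous_parametric_integral_of_continuous (μ := μ)
      (f := fun (τ : ℝ) (b : Fr d) => F (τ, b)) hF (s := univ) isCompact_univ
    simpa only [Measure.restrict_univ] using h2
  have hsl : ∀ F : ℝ × Fr d → ℝ, Continuous F → ∀ τ, Integrable (fun b => F (τ, b)) μ :=
    fun F hF τ => integ μ _ (hF.comp (f := fun b : Fr d => ((τ, b) : ℝ × Fr d)) (by fun_prop))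
  have hint : ∫ τ in Ioc 0 π, (∫ b, (UB blk a κ α τ (vecF b 0) -
      GG blk a κ α (π / I) τ (vecF b 0)) ∂μ) ≤ 0 := by
    have e1 : ∀ τ, ∫ b, (UB blk a κ α τ (vecF b 0) - GG blk a κ α (π / I) τ (vecF b 0)) ∂μ =
        ∫ b, UB blk a κ α τ (vecF b 0) ∂μ - ∫ b, GG blk a κ α (π / I) τ (vecF b 0) ∂μ :=
      fun τ => integral_sub (hsl _ hUc τ) (hsl _ hGc τ)
    simp only [e1]
    rw [← intervalIntegral.integral_of_le Real.pi_pos.le, intervalIntegral.integral_sub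
      ((hpar _ hUc).intervalIntegrable 0 π) ((hpar _ hGc).intervalIntegrable 0 π)]
    have e2 : ∫ τ in (0 : ℝ)..π, ∫ b, UB blk a κ α τ (vecF b 0) ∂μ = π := by
      have e3 : ∫ τ in (0 : ℝ)..π, ∫ b, UB blk a κ α τ (vecF b 0) ∂μ =
          ∫ τ in (0 : ℝ)..π, (1 : ℝ) := by
        rw [intervalIntegral.integral_of_le Real.pi_pos.le,
          intervalIntegral.integral_of_le Real.pi_pos.le, integral_Ioc_eq_integral_Ioo,
          integral_Ioc_eq_integral_Ioo]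
        refine setIntegral_congr_fun measurableSet_Ioo fun τ hτ => ?_
        have h3 := S_mem hα2 ⟨hτ.1.le, hτ.2.le⟩
        rw [UB_mean hd hR hα hκ τ, cl_eq h3, hz (S α τ) ⟨S_pos hα2 hτ, h3.2.trans_lt hα.2⟩,
          cos_S, sub_self, mul_zero, mul_zero, add_zero]
      rw [e3]
      simp
    rw [e2]
    linarith
  have h2 := abs_zero Pool.Agent.Y331.HC.t_POS hμ
    (G := fun z : ℝ × Fr d => UB blk a κ α z.1 (vecF z.2 0) -
      GG blk a κ α (π / I) z.1 (vecF z.2 0)) (hUc.sub hGc) (fun z => by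
      have h3 := GG_le (blk := blk) hd hR hκ0 (a := a) hα z.1 (vecF z.2 0)
      have h4 := GG_mono (blk := blk) (a := a) (κ := κ) (α := α) (τ := z.1) hl0 hl1 (vecF z.2 0)
      unfold UB
      linarith) hint hτ b
  linarith

/-- The consequences of equality: the conformal factor and the angles. -/
lemma data [Fintype ι] (hd : 2 ≤ d) {μ : Measure (Fr d)} (hμ : IsFrameMeasure d μ)
    (hq : Splitting blk q) {R : ℝ} (hR : R ≤ π / 2)
    {m : Met d} (hF : Fermi R m) (hS : NonShort R m) {a : ι → ℝ → ℝ} {κ : ℝ → E d → ℝ}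
    (ha : ∀ j, ContinuousOn (a j) (Ico 0 R)) (ha0 : ∀ j, ∀ s ∈ Ico 0 R, 0 < a j s)
    (hκ : ContinuousOn (fun p : ℝ × E d => κ p.1 p.2) (Ico 0 R ×ˢ sphere 0 1))
    (hκ0 : ∀ s ∈ Ico 0 R, ∀ x ∈ sphere (0 : E d) 1, 0 < κ s x)
    (hg : ∀ s ∈ Ico 0 R, ∀ x ∈ sphere (0 : E d) 1, ∀ v : E d, inner ℝ x v = 0 →
      quad (m.g s x) v = κ s x ^ 2 * ∑ j, a j s ^ 2 * q j x v)
    (hz : ∀ s ∈ Ioo 0 R, MM μ blk a κ s = Real.cos s ^ d)
    {α : ℝ} (hα : α ∈ Ioo 0 R) (i₀ : Fin d)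
    (hi₀ : π ≤ ∫ τ in (0 : ℝ)..π, wj blk a α (blk i₀) τ) :
    (∀ x : Sph d, κ α x * cbar blk a α = cos α) ∧
      ∫ τ in (0 : ℝ)..π, wj blk a α (blk i₀) τ = π := by
  have hd1 : 1 ≤ d := by omega
  have hα2 := mem_half hR hα
  have hα' : α ∈ Ico 0 R := ⟨hα.1.le, hα.2⟩
  set I : ℝ := ∫ τ in (0 : ℝ)..π, wj blk a α (blk i₀) τ with hI
  have hI0 : 0 < I := Real.pi_pos.trans_le hi₀
  have hl1 : π / I ≤ 1 := (div_le_one hI0).2 hi₀
  have hl0 : 0 < π / I := div_pos Real.pi_pos hI0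
  have hcα : 0 < cos α := Real.cos_pos_of_mem_Ioo (x := α) ⟨by linarith [hα2.1, Real.pi_pos], hα2.2⟩
  have hτ : π / 2 ∈ Icc 0 π := ⟨by linarith [Real.pi_pos], by linarith [Real.pi_pos]⟩
  have hSα : S α (π / 2) = α := by
    unfold S
    rw [Real.sin_pi_div_two, mul_one]
    exact Real.arcsin_sin (by linarith [Real.pi_pos, hα2.1]) hα2.2.le
  have hCα : C α (π / 2) = cos α := by rw [← cos_S, hSα]
  have hclα : cl α α = α := cl_eq ⟨hα.1.le, le_rfl⟩
  have hqq := qq_pos hα2 (π / 2)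
  have hus : pp α (π / 2) ^ 2 + qq α (π / 2) ^ 2 * C α (π / 2) ^ 2 = 1 := unit_speed hα2 (π / 2)
  have main : ∀ x : Sph d, κ α x * cbar blk a α = cos α ∧ π / I = 1 := by
    intro x
    obtain ⟨b, hb⟩ := frame_one (x : E d) (mem_sphere_zero_iff_norm.1 x.2)
    have hbx : vecF b 0 = x := Subtype.ext hb
    have h1 := gap_eq hd hμ hq hR hF hS ha ha0 hκ hκ0 hg hz hα i₀ hi₀ hτ b
    rw [hbx, ← hI] at h1
    have hy : 0 < κ α x * cbar blk a α := mul_pos (hκ0 α hα' x x.2) (cbar_pos _ _)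
    have h2 := GG_mono (blk := blk) (a := a) (κ := κ) (α := α) (τ := π / 2) hl0.le hl1 x
    have h3 : κ α x * cbar blk a α = cos α := by
      have h4 := strict_tan (p := pp α (π / 2)) (y := (κ α x * cbar blk a α) ^ 2) hd
        (C_pos hα2 (π / 2)) (sq_nonneg _) hqq.ne' hus (by
          rw [rpow_half, abs_of_pos hy]
          rw [h1] at h2
          unfold UB GG at h2
          rw [hSα, hclα, one_pow, one_mul] at h2
          exact h2)
      rw [hCα] at h4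
      exact (sq_eq_sq₀ hy.le hcα.le).1 h4
    refine ⟨h3, ?_⟩
    unfold UB GG at h1
    rw [hSα, hclα, h3, hCα, sub_self, mul_zero, add_zero, Real.sqrt_eq_one] at h1
    rw [hCα] at hus
    have h5 : (π / I) ^ 2 = 1 := by
      have h6 : qq α (π / 2) ^ 2 * cos α ^ 2 ≠ 0 := by positivity
      have h7 : ((π / I) ^ 2 - 1) * (qq α (π / 2) ^ 2 * cos α ^ 2) = 0 := by
        linear_combination h1 - hus
      rcases mul_eq_zero.1 h7 with h8 | h8
      · linarith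
      · exact absurd h8 h6
    nlinarith
  refine ⟨fun x => (main x).1, ?_⟩
  have h9 := (main (vecF ((frame_one (e0 d) (by simp [e0])).choose) 0)).2
  rw [div_eq_one_iff_eq hI0.ne'] at h9
  exact h9.symm

/-- Rigidity. -/
theorem rigid [Fintype ι] (hd : 2 ≤ d) {μ : Measure (Fr d)} (hμ : IsFrameMeasure d μ)
    (hq : Splitting blk q) {R : ℝ} (hR0 : 0 < R) (hR : R ≤ π / 2)
    {m : Met d} (hm : Good R m) (hF : Fermi R m) (hS : NonShort R m) {a : ι → ℝ → ℝ}
    {κ : ℝ → E d → ℝ}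
    (ha : ∀ j, ContinuousOn (a j) (Ico 0 R)) (ha0 : ∀ j, ∀ s ∈ Ico 0 R, 0 < a j s)
    (hκ : ContinuousOn (fun p : ℝ × E d => κ p.1 p.2) (Ico 0 R ×ˢ sphere 0 1))
    (hκ0 : ∀ s ∈ Ico 0 R, ∀ x ∈ sphere (0 : E d) 1, 0 < κ s x)
    (hg : ∀ s ∈ Ico 0 R, ∀ x ∈ sphere (0 : E d) 1, ∀ v : E d, inner ℝ x v = 0 →
      quad (m.g s x) v = κ s x ^ 2 * ∑ j, a j s ^ 2 * q j x v)
    (hz : ∀ s ∈ Ioo 0 R, MM μ blk a κ s = Real.cos s ^ d) : IsRound R m := by
  have hd1 : 1 ≤ d := by omega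
  have hcoef : ∀ s ∈ Ioo 0 R, (∀ i, a (blk i) s = cbar blk a s) ∧
      ∀ x : Sph d, κ s x * cbar blk a s = cos s := by
    intro s hs
    have hs2 := mem_half hR hs
    have hs' : s ∈ Ico 0 R := ⟨hs.1.le, hs.2⟩
    obtain ⟨i₀, hi₀⟩ := exists_dir (blk := blk) hd1 hR ha ha0 hs
    have h1 := data hd hμ hq hR hF hS ha ha0 hκ hκ0 hg hz hs i₀ hi₀
    refine ⟨?_, h1.1⟩
    -- all angles are at most `π`
    have h2 : ∀ i : Fin d, ∫ τ in (0 : ℝ)..π, wj blk a s (blk i) τ ≤ π := by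
      intro i
      by_contra hcon
      rw [not_le] at hcon
      have := (data hd hμ hq hR hF hS ha ha0 hκ hκ0 hg hz hs i hcon.le).2
      linarith
    have hint : ∀ i : Fin d, IntervalIntegrable (fun τ => wj blk a s (blk i) τ) volume 0 π :=
      fun i => (wj_cont hR hs ha ha0 _).intervalIntegrable 0 π
    set g : ℝ → ℝ := fun τ => ∑ i : Fin d, wj blk a s (blk i) τ - d * qq s τ with hgd
    have hgc : Continuous g :=
      (continuous_finsetSum _ fun i _ => wj_cont hR hs ha ha0 (blk i)).sub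
        (continuous_const.mul (qq_cont hs2))
    have hg0 : ∀ τ, 0 ≤ g τ := by
      intro τ
      rw [hgd]
      simp only
      unfold wj
      rw [← Finset.mul_sum]
      have h3 := mul_le_mul_of_nonneg_left (amgm (blk := blk) ha0 hd1 (cl_mem' hs' (S s τ))).1
        (qq_pos hs2 τ).le
      linarith
    have hgi : ∫ τ in Ioc 0 π, g τ ≤ 0 := by
      have e1 := intervalIntegral.integral_sub (μ := volume)
        (f := fun τ => ∑ i : Fin d, wj blk a s (blk i) τ) (g := fun τ => (d : ℝ) * qq s τ)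
        ((continuous_finsetSum _ fun i _ => wj_cont hR hs ha ha0 (blk i)).intervalIntegrable 0 π)
        ((continuous_const.mul (qq_cont hs2)).intervalIntegrable 0 π)
      rw [intervalIntegral.integral_finsetSum fun i _ => hint i,
        intervalIntegral.integral_const_mul, int_qq hs2] at e1
      rw [← intervalIntegral.integral_of_le Real.pi_pos.le, e1]
      have h3 := Finset.sum_le_sum fun (i : Fin d) (_ : i ∈ Finset.univ) => h2 i
      rw [Finset.sum_const, Finset.card_univ, Fintype.card_fin, nsmul_eq_mul] at h3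
      linarith
    have hτ : π / 2 ∈ Icc 0 π := ⟨by linarith [Real.pi_pos], by linarith [Real.pi_pos]⟩
    have h4 := zero_of_int hgc hg0 hgi hτ
    have hSs : S s (π / 2) = s := by
      unfold S
      rw [Real.sin_pi_div_two, mul_one]
      exact Real.arcsin_sin (by linarith [Real.pi_pos, hs2.1]) hs2.2.le
    rw [hgd] at h4
    simp only at h4
    unfold wj at h4
    rw [← Finset.mul_sum, hSs, cl_eq ⟨hs.1.le, le_rfl⟩] at h4
    have h5 : ∑ i : Fin d, cbar blk a s / a (blk i) s = d := by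
      have h6 := (qq_pos hs2 (π / 2)).ne'
      have h7 : qq s (π / 2) * (∑ i : Fin d, cbar blk a s / a (blk i) s - d) = 0 := by
        linear_combination h4
      rcases mul_eq_zero.1 h7 with h8 | h8
      · exact absurd h8 h6
      · linarith
    exact (amgm ha0 hd1 hs').2 h5
  have key : ∀ s ∈ Ioo 0 R, ∀ x ∈ sphere (0 : E d) 1, ∀ (p : ℝ) (v : E d), inner ℝ x v = 0 →
      m.sq s x p v = p ^ 2 + Real.cos s ^ 2 * ‖v‖ ^ 2 := by
    intro s hs x hx p v hv
    have hs' : s ∈ Ico 0 R := ⟨hs.1.le, hs.2⟩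
    have hx1 : ‖x‖ = 1 := mem_sphere_zero_iff_norm.1 hx
    obtain ⟨hai, hκi⟩ := hcoef s hs
    obtain ⟨hma, hmβ⟩ := hF s hs' x hx
    have h1 : ∑ j, a j s ^ 2 * q j x v = cbar blk a s ^ 2 * ‖v‖ ^ 2 := by
      rw [← sum_q hq hx1 hv, Finset.mul_sum]
      refine Finset.sum_congr rfl fun j _ => ?_
      by_cases hj : ∃ i, blk i = j
      · obtain ⟨i, rfl⟩ := hj
        rw [hai i]
      · obtain ⟨c, hc0, hcq⟩ := exists_adapted hq x hx1
        have h2 : q j x v = 0 := by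
          rw [hcq j v hv]
          refine Finset.sum_eq_zero fun i _ => ?_
          rw [if_neg fun h => hj ⟨i, h⟩]
        rw [h2, mul_zero, mul_zero]
    unfold Met.sq
    rw [hma, hmβ v hv, hg s hs' x hx v hv, h1, ← hκi ⟨x, hx⟩]
    ring
  intro s hs x hx p v hv
  rcases hs.1.eq_or_lt with h0 | h0
  · subst h0
    have hxs : ∀ {Y : Type} [TopologicalSpace Y] {f : ℝ → E d → Y},
        ContinuousOn (fun p : ℝ × E d => f p.1 p.2) (Ico 0 R ×ˢ sphere 0 1) →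
        ContinuousOn (fun s : ℝ => f s x) (Ico 0 R) := by
      intro Y _ f hf
      have h := hf.comp (f := fun s : ℝ => ((s, x) : ℝ × E d)) (s := Ico 0 R)
        (by fun_prop) (fun s hs => ⟨hs, hx⟩)
      exact h
    have c1 := hxs hm.cont_a
    have c2 := hxs hm.cont_β
    have c3 := hxs hm.cont_g
    have c4 : ContinuousOn (fun s => quad (m.g s x) v) (Ico 0 R) := by
      unfold quad
      refine continuousOn_finsetSum _ fun i _ => continuousOn_finsetSum _ fun j _ => ?_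
      have c5 : ContinuousOn (fun s => m.g s x i j) (Ico 0 R) :=
        continuousOn_pi.1 (continuousOn_pi.1 c3 i) j
      exact (c5.mul continuousOn_const).mul continuousOn_const
    have c6 : ContinuousOn (fun s => m.sq s x p v) (Ico 0 R) := by
      unfold Met.sq
      exact ((c1.mul continuousOn_const).add
        (continuousOn_const.mul (c2.inner continuousOn_const))).add c4
    have t1 : Tendsto (fun s => m.sq s x p v) (𝓝[>] 0) (𝓝 (m.sq 0 x p v)) := by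
      have := c6 0 hs
      exact this.tendsto.mono_left (nhdsWithin_le_of_mem
        (mem_of_superset (Ioo_mem_nhdsGT hR0) Ioo_subset_Ico_self))
    have t2 : Tendsto (fun s => p ^ 2 + Real.cos s ^ 2 * ‖v‖ ^ 2) (𝓝[>] (0 : ℝ))
        (𝓝 (p ^ 2 + Real.cos 0 ^ 2 * ‖v‖ ^ 2)) := by
      have : Continuous (fun s : ℝ => p ^ 2 + Real.cos s ^ 2 * ‖v‖ ^ 2) := by fun_prop
      exact this.continuousAt.tendsto.mono_left nhdsWithin_le_nhds
    refine tendsto_nhds_unique (t1.congr' ?_) t2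
    filter_upwards [Ioo_mem_nhdsGT hR0] with s hs' using key s hs' x hx p v hv
  · exact key s ⟨h0, hs.2⟩ x hx p v hv

end Pool.Agent.L7h41.CS
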