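import Pool.Agent.L7h41.CS.Gen
import Pool.Agent.Y499.HC.Rigid

/-! # Coefficients which depend on the point: the case of equality -/

set_option autoImplicit false
set_option maxHeartbeats 400000

open Real Set MeasureTheory Metric Filter Topology
open scoped ENNReal

namespace Pool.Agent.L7h41.CS

open Pool.Agent.Y499.HC Pool.Agent.Y499.HR
open Pool.Agent.Y249.HC (integ)

variable {d : ℕ} {ι : Type} [DecidableEq ι] {blk : Fin d → ι} {q : ι → E d → E d → ℝ}

/-- The consequences of equality for one direction. -/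
lemma data2 [Fintype ι] (hd : 2 ≤ d) {μ : Measure (Fr d)} (hμ : IsFrameMeasure d μ)
    (hq : Splitting blk q) {R : ℝ} (hR : R ≤ π / 2)
    {m : Met d} (hF : Fermi R m) (hS : NonShort R m) {A : ι → ℝ → E d → ℝ}
    (hA : ∀ j, ContinuousOn (fun p : ℝ × E d => A j p.1 p.2) (Ico 0 R ×ˢ sphere 0 1))
    (hA0 : ∀ j, ∀ s ∈ Ico 0 R, ∀ x ∈ sphere (0 : E d) 1, 0 < A j s x)
    (hg : ∀ s ∈ Ico 0 R, ∀ x ∈ sphere (0 : E d) 1, ∀ v : E d, inner ℝ x v = 0 →
      quad (m.g s x) v = ∑ j, A j s x ^ 2 * q j x v)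
    (hz : ∀ s ∈ Ioo 0 R, cbar blk (Mq μ A) s = Real.cos s)
    {α : ℝ} (hα : α ∈ Ioo 0 R) (i₀ : Fin d)
    (hi₀ : π ≤ ∫ τ in (0 : ℝ)..π, wj blk (Mq μ A) α (blk i₀) τ) :
    (∀ x : Sph d, A (blk i₀) α x = Mq μ A (blk i₀) α) ∧
      ∫ τ in (0 : ℝ)..π, wj blk (Mq μ A) α (blk i₀) τ = π := by
  have := hμ.prob
  have hd1 : 1 ≤ d := by omega
  have hα2 := mem_half hR hα
  have hα' : α ∈ Ico 0 R := ⟨hα.1.le, hα.2⟩
  have ha : ∀ j, ContinuousOn (Mq μ A j) (Ico 0 R) := fun j => Mq_cont j (hA j)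
  have ha0 : ∀ j, ∀ s ∈ Ico 0 R, 0 < Mq μ A j s := fun j s hs => Mq_pos hμ j (hA j) (hA0 j) hs
  set I : ℝ := ∫ τ in (0 : ℝ)..π, wj blk (Mq μ A) α (blk i₀) τ with hI
  have hI0 : 0 < I := Real.pi_pos.trans_le hi₀
  have hl : π / I * I = π := div_mul_cancel₀ _ hI0.ne'
  have hl1 : π / I ≤ 1 := (div_le_one hI0).2 hi₀
  have hl0 : 0 < π / I := div_pos Real.pi_pos hI0
  have hcα : 0 < cos α := Real.cos_pos_of_mem_Ioo (x := α) ⟨by linarith [hα2.1, Real.pi_pos], hα2.2⟩
  have h1 := mean_ge2 hd1 hμ hq hR hF hS ha ha0 hA hg hα i₀ hl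
  have hGm : Continuous fun τ => ∫ b, HH blk (Mq μ A) A α (blk i₀) (π / I) τ (vecF b 0) ∂μ := by
    have h2 := continuous_parametric_integral_of_continuous (μ := μ)
      (f := fun (τ : ℝ) (b : Fr d) => HH blk (Mq μ A) A α (blk i₀) (π / I) τ (vecF b 0))
      ((HH_cont (blk := blk) hR hα ha ha0 (blk i₀) (hA (blk i₀)) (π / I)).comp
      (f := fun z : ℝ × Fr d => ((z.1, vecF z.2 0) : ℝ × Sph d)) (continuous_fst.prodMk
      ((Pool.Agent.Y499.HC.continuous_vecF 0).comp continuous_snd)))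
      (s := univ) isCompact_univ
    simpa only [Measure.restrict_univ] using h2
  have hUc := UV_cont (blk := blk) hd hR hα ha ha0
  -- the integral of the bound
  have hU : ∫ τ in (0 : ℝ)..π, UV blk (Mq μ A) α τ = π := by
    rw [UV_int hd hR ha ha0 hα]
    have h3 : ∫ τ in (0 : ℝ)..π, 1 / C α τ ^ (d + 2) *
        (cbar blk (Mq μ A) (cl α (S α τ)) ^ d - C α τ ^ d) = 0 := by
      rw [intervalIntegral.integral_of_le Real.pi_pos.le, integral_Ioc_eq_integral_Ioo]
      refine setIntegral_eq_zero_of_forall_eq_zero fun τ hτ => ?_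
      have h3 := S_mem hα2 ⟨hτ.1.le, hτ.2.le⟩
      rw [cl_eq h3, hz (S α τ) ⟨S_pos hα2 hτ, h3.2.trans_lt hα.2⟩, cos_S, sub_self, mul_zero]
    rw [h3, mul_zero, add_zero]
  have hτ : π / 2 ∈ Icc 0 π := ⟨by linarith [Real.pi_pos], by linarith [Real.pi_pos]⟩
  have h2 := zero_of_int (g := fun τ => UV blk (Mq μ A) α τ -
      ∫ b, HH blk (Mq μ A) A α (blk i₀) (π / I) τ (vecF b 0) ∂μ) (hUc.sub hGm)
    (fun τ => by
      have h3 := HH_le (blk := blk) hd hμ hR hA hA0 hα (blk i₀) hl0.le hl1 τ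
      linarith) (by
      rw [← intervalIntegral.integral_of_le Real.pi_pos.le, intervalIntegral.integral_sub
        (hUc.intervalIntegrable 0 π) (hGm.intervalIntegrable 0 π), hU]
      linarith) hτ
  have hSα : S α (π / 2) = α := by
    unfold S
    rw [Real.sin_pi_div_two, mul_one]
    exact Real.arcsin_sin (by linarith [Real.pi_pos, hα2.1]) hα2.2.le
  have hCα : C α (π / 2) = cos α := by rw [← cos_S, hSα]
  have hclα : cl α α = α := cl_eq ⟨hα.1.le, le_rfl⟩
  have hUα : UV blk (Mq μ A) α (π / 2) = 1 := by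
    unfold UV
    rw [hSα, hclα, hz α hα, hCα, sub_self, mul_zero, mul_zero, add_zero]
  have hpp : pp α (π / 2) = 0 := by
    unfold pp
    rw [Real.cos_pi_div_two, mul_zero, zero_div]
  have hqq : qq α (π / 2) * cos α = 1 := by
    have h3 : pp α (π / 2) ^ 2 + qq α (π / 2) ^ 2 * C α (π / 2) ^ 2 = 1 := unit_speed hα2 (π / 2)
    rw [hpp, hCα] at h3
    have h4 : 0 < qq α (π / 2) * cos α := mul_pos (qq_pos hα2 _) hcα
    nlinarith
  have hMp := ha0 (blk i₀) α hα'
  have hwj : wj blk (Mq μ A) α (blk i₀) (π / 2) = 1 / Mq μ A (blk i₀) α := by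
    unfold wj
    rw [hSα, hclα, hz α hα]
    rw [← hqq]
    ring
  have hHα : ∀ b : Fr d, HH blk (Mq μ A) A α (blk i₀) (π / I) (π / 2) (vecF b 0) =
      π / I * (1 / Mq μ A (blk i₀) α) * A (blk i₀) α (vecF b 0) := by
    intro b
    have h3 : 0 < A (blk i₀) α (vecF b 0) := hA0 _ α hα' _ (vecF b 0).2
    unfold HH
    rw [hpp, hwj, hSα, hclα, zero_pow two_ne_zero, zero_add]
    exact Real.sqrt_sq (by positivity)
  have hAc := A_cont hα' (blk i₀) (hA (blk i₀))
  simp only [hUα, hHα] at h2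
  rw [integral_const_mul] at h2
  set Z := ∫ b, A (blk i₀) α (vecF b 0) ∂μ with hZ
  have h3 : π / I * Z = Mq μ A (blk i₀) α := by
    have h4 : π / I * (1 / Mq μ A (blk i₀) α) * Z = 1 := by linarith
    have h5 := hMp.ne'
    field_simp at h4 ⊢
    linarith
  have hj := jensen hμ hAc
  rw [← hZ, ← Mq_sq] at hj
  have hZ0 : 0 ≤ Z := integral_nonneg fun b => (hA0 _ α hα' _ (vecF b 0).2).le
  have hZM : Z ≤ Mq μ A (blk i₀) α := (sq_le_sq₀ hZ0 hMp.le).1 hj.1
  have hZe : Z = Mq μ A (blk i₀) α := by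
    have h5 : π / I * Z ≤ 1 * Z := mul_le_mul_of_nonneg_right hl1 hZ0
    linarith
  have hl' : π / I = 1 := by
    rw [hZe] at h3
    exact mul_right_cancel₀ hMp.ne' (h3.trans (one_mul _).symm)
  refine ⟨fun x => ?_, ?_⟩
  · obtain ⟨b, hb⟩ := frame_one (x : E d) (mem_sphere_zero_iff_norm.1 x.2)
    have hbx : vecF b 0 = x := Subtype.ext hb
    have h5 := hj.2 (by rw [hZe]) b
    rw [hbx, hZe] at h5
    exact h5
  · rw [div_eq_one_iff_eq hI0.ne'] at hl'
    exact hl'.symm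

/-- Rigidity. -/
theorem rigid2 [Fintype ι] (hd : 2 ≤ d) {μ : Measure (Fr d)} (hμ : IsFrameMeasure d μ)
    (hq : Splitting blk q) {R : ℝ} (hR0 : 0 < R) (hR : R ≤ π / 2)
    {m : Met d} (hm : Good R m) (hF : Fermi R m) (hS : NonShort R m) {A : ι → ℝ → E d → ℝ}
    (hA : ∀ j, ContinuousOn (fun p : ℝ × E d => A j p.1 p.2) (Ico 0 R ×ˢ sphere 0 1))
    (hA0 : ∀ j, ∀ s ∈ Ico 0 R, ∀ x ∈ sphere (0 : E d) 1, 0 < A j s x)
    (hg : ∀ s ∈ Ico 0 R, ∀ x ∈ sphere (0 : E d) 1, ∀ v : E d, inner ℝ x v = 0 →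
      quad (m.g s x) v = ∑ j, A j s x ^ 2 * q j x v)
    (hz : ∀ s ∈ Ioo 0 R, cbar blk (Mq μ A) s = Real.cos s) : IsRound R m := by
  have := hμ.prob
  have hd1 : 1 ≤ d := by omega
  have ha : ∀ j, ContinuousOn (Mq μ A j) (Ico 0 R) := fun j => Mq_cont j (hA j)
  have ha0 : ∀ j, ∀ s ∈ Ico 0 R, 0 < Mq μ A j s := fun j s hs => Mq_pos hμ j (hA j) (hA0 j) hs
  have hcoef : ∀ s ∈ Ioo 0 R, ∀ i : Fin d, ∀ x : Sph d, A (blk i) s x = cos s := by
    intro s hs
    have hs2 := mem_half hR hs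
    have hs' : s ∈ Ico 0 R := ⟨hs.1.le, hs.2⟩
    -- all angles are at most `π`
    have h2 : ∀ i : Fin d, ∫ τ in (0 : ℝ)..π, wj blk (Mq μ A) s (blk i) τ ≤ π := by
      intro i
      by_contra hcon
      rw [not_le] at hcon
      have := (data2 hd hμ hq hR hF hS hA hA0 hg hz hs i hcon.le).2
      linarith
    have hint : ∀ i : Fin d, IntervalIntegrable (fun τ => wj blk (Mq μ A) s (blk i) τ) volume 0 π :=
      fun i => (wj_cont hR hs ha ha0 _).intervalIntegrable 0 π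
    set g : ℝ → ℝ := fun τ => ∑ i : Fin d, wj blk (Mq μ A) s (blk i) τ - d * qq s τ with hgd
    have hgc : Continuous g :=
      (continuous_finsetSum _ fun i _ => wj_cont hR hs ha ha0 (blk i)).sub
        (continuous_const.mul (qq_cont hs2))
    have hg0 : ∀ τ, 0 ≤ g τ := by
      intro τ
      rw [hgd]
      simp only
      unfold wj
      rw [← Finset.mul_sum]
      have h3 := mul_le_mul_of_nonneg_left (amgm (blk := blk) ha0 hd1 (cl_mem' hs' (S s τ))).1
        (qq_pos hs2 τ).le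
      linarith
    have hgi : ∫ τ in Ioc 0 π, g τ =
        ∑ i : Fin d, (∫ τ in (0 : ℝ)..π, wj blk (Mq μ A) s (blk i) τ) - d * π := by
      have e1 := intervalIntegral.integral_sub (μ := volume)
        (f := fun τ => ∑ i : Fin d, wj blk (Mq μ A) s (blk i) τ) (g := fun τ => (d : ℝ) * qq s τ)
        ((continuous_finsetSum _ fun i _ => wj_cont hR hs ha ha0 (blk i)).intervalIntegrable 0 π)
        ((continuous_const.mul (qq_cont hs2)).intervalIntegrable 0 π)
      rw [intervalIntegral.integral_finsetSum fun i _ => hint i,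
        intervalIntegral.integral_const_mul, int_qq hs2] at e1
      rw [← intervalIntegral.integral_of_le Real.pi_pos.le, e1]
    have hsumle : ∑ i : Fin d, (∫ τ in (0 : ℝ)..π, wj blk (Mq μ A) s (blk i) τ) ≤ d * π := by
      have h3 := Finset.sum_le_sum fun (i : Fin d) (_ : i ∈ Finset.univ) => h2 i
      rw [Finset.sum_const, Finset.card_univ, Fintype.card_fin, nsmul_eq_mul] at h3
      exact h3
    have hgi0 : 0 ≤ ∫ τ in Ioc 0 π, g τ := integral_nonneg fun τ => hg0 τ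
    -- all angles are equal to `π`
    have h2' : ∀ i : Fin d, ∫ τ in (0 : ℝ)..π, wj blk (Mq μ A) s (blk i) τ = π := by
      have h3 : ∑ i : Fin d, (π - ∫ τ in (0 : ℝ)..π, wj blk (Mq μ A) s (blk i) τ) = 0 := by
        rw [Finset.sum_sub_distrib, Finset.sum_const, Finset.card_univ, Fintype.card_fin,
          nsmul_eq_mul]
        linarith
      intro i
      have h4 := (Finset.sum_eq_zero_iff_of_nonneg fun i _ => by linarith [h2 i]).1 h3 i
        (Finset.mem_univ i)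
      linarith
    have hτ : π / 2 ∈ Icc 0 π := ⟨by linarith [Real.pi_pos], by linarith [Real.pi_pos]⟩
    have h4 := zero_of_int hgc hg0 (by rw [hgi]; linarith) hτ
    have hSs : S s (π / 2) = s := by
      unfold S
      rw [Real.sin_pi_div_two, mul_one]
      exact Real.arcsin_sin (by linarith [Real.pi_pos, hs2.1]) hs2.2.le
    rw [hgd] at h4
    simp only at h4
    unfold wj at h4
    rw [← Finset.mul_sum, hSs, cl_eq ⟨hs.1.le, le_rfl⟩] at h4
    have h5 : ∑ i : Fin d, cbar blk (Mq μ A) s / Mq μ A (blk i) s = d := by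
      have h6 := (qq_pos hs2 (π / 2)).ne'
      have h7 : qq s (π / 2) * (∑ i : Fin d, cbar blk (Mq μ A) s / Mq μ A (blk i) s - d) = 0 := by
        linear_combination h4
      rcases mul_eq_zero.1 h7 with h8 | h8
      · exact absurd h8 h6
      · linarith
    intro i x
    rw [(data2 hd hμ hq hR hF hS hA hA0 hg hz hs i (h2' i).ge).1 x,
      (amgm ha0 hd1 hs').2 h5 i, hz s hs]
  have key : ∀ s ∈ Ioo 0 R, ∀ x ∈ sphere (0 : E d) 1, ∀ (p : ℝ) (v : E d), inner ℝ x v = 0 →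
      m.sq s x p v = p ^ 2 + Real.cos s ^ 2 * ‖v‖ ^ 2 := by
    intro s hs x hx p v hv
    have hs' : s ∈ Ico 0 R := ⟨hs.1.le, hs.2⟩
    have hx1 : ‖x‖ = 1 := mem_sphere_zero_iff_norm.1 hx
    have hai := hcoef s hs
    obtain ⟨hma, hmβ⟩ := hF s hs' x hx
    have h1 : ∑ j, A j s x ^ 2 * q j x v = cos s ^ 2 * ‖v‖ ^ 2 := by
      rw [← sum_q hq hx1 hv, Finset.mul_sum]
      refine Finset.sum_congr rfl fun j _ => ?_
      by_cases hj : ∃ i, blk i = j
      · obtain ⟨i, rfl⟩ := hj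
        rw [hai i ⟨x, hx⟩]
      · obtain ⟨c, hc0, hcq⟩ := exists_adapted hq x hx1
        have h2 : q j x v = 0 := by
          rw [hcq j v hv]
          refine Finset.sum_eq_zero fun i _ => ?_
          rw [if_neg fun h => hj ⟨i, h⟩]
        rw [h2, mul_zero, mul_zero]
    unfold Met.sq
    rw [hma, hmβ v hv, hg s hs' x hx v hv, h1]
    ring
  intro s hs x hx p v hv
  rcases hs.1.eq_or_lt with h0 | h0
  · subst h0
    have hxs : ∀ {Y : Type} [TopologicalSpace Y] {f : ℝ → E d → Y},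
        ContinuousOn (fun p : ℝ × E d => f p.1 p.2) (Ico 0 R ×ˢ sphere 0 1) →
        ContinuousOn (fun s : ℝ => f s x) (Ico 0 R) := by
      intro Y _ f hf
      have h := hf.comp (f := fun s : ℝ => ((s, x) : ℝ × E d)) (s := Ico 0 R)
        (by fun_prop) (fun s hs => ⟨hs, hx⟩)
      exact h
    have c1 := hxs hm.cont_a
    have c2 := hxs hm.cont_β
    have c3 := hxs hm.cont_g
    have c4 : ContinuousOn (fun s => quad (m.g s x) v) (Ico 0 R) := by
      unfold quad
      refine continuousOn_finsetSum _ fun i _ => continuousOn_finsetSum _ fun j _ => ?_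
      have c5 : ContinuousOn (fun s => m.g s x i j) (Ico 0 R) :=
        continuousOn_pi.1 (continuousOn_pi.1 c3 i) j
      exact (c5.mul continuousOn_const).mul continuousOn_const
    have c6 : ContinuousOn (fun s => m.sq s x p v) (Ico 0 R) := by
      unfold Met.sq
      exact ((c1.mul continuousOn_const).add
        (continuousOn_const.mul (c2.inner continuousOn_const))).add c4
    have t1 : Tendsto (fun s => m.sq s x p v) (𝓝[>] 0) (𝓝 (m.sq 0 x p v)) := by
      have := c6 0 hs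
      exact this.tendsto.mono_left (nhdsWithin_le_of_mem
        (mem_of_superset (Ioo_mem_nhdsGT hR0) Ioo_subset_Ico_self))
    have t2 : Tendsto (fun s => p ^ 2 + Real.cos s ^ 2 * ‖v‖ ^ 2) (𝓝[>] (0 : ℝ))
        (𝓝 (p ^ 2 + Real.cos 0 ^ 2 * ‖v‖ ^ 2)) := by
      have : Continuous (fun s : ℝ => p ^ 2 + Real.cos s ^ 2 * ‖v‖ ^ 2) := by fun_prop
      exact this.continuousAt.tendsto.mono_left nhdsWithin_le_nhds
    refine tendsto_nhds_unique (t1.congr' ?_) t2
    filter_upwards [Ioo_mem_nhdsGT hR0] with s hs' using key s hs' x hx p v hv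
  · exact key s ⟨h0, hs.2⟩ x hx p v hv

end Pool.Agent.L7h41.CS
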