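import Pool.Agent.L7h41.CS.Rig2
import Pool.Agent.L7h41.CS.Fin
import Pool.Agent.L7h17.CS.Chain

/-! # Coefficients which depend on the point: the theorems -/

set_option autoImplicit false
set_option maxHeartbeats 400000

open Real Set MeasureTheory Metric Filter Topology
open scoped ENNReal

namespace Pool.Agent.L7h41.CS

open Pool.Agent.Y499.HC Pool.Agent.Y499.HR
open Pool.Agent.Y249.HC (integ)

variable {d : ℕ} {ι : Type} [DecidableEq ι] {blk : Fin d → ι} {q : ι → E d → E d → ℝ}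

/-- The integral over the width of the collar of the products of the quadratic means over the
sphere of the `d` coefficients, times the volume of the sphere. -/
noncomputable def splitEnergy {d : ℕ} {ι : Type} (R : ℝ) (blk : Fin d → ι)
    (A : ι → ℝ → EuclideanSpace ℝ (Fin (d + 1)) → ℝ) : ℝ≥0∞ :=
  (σ d) univ * ∫⁻ s in Ioo 0 R, ENNReal.ofReal
    (∏ i, √((∫ x : Sph d, A (blk i) s x ^ 2 ∂(σ d)) / ((σ d) univ).toReal))

section

variable {μ : Measure (Fr d)} {R : ℝ} {A : ι → ℝ → E d → ℝ}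

lemma A_sph {s : ℝ} (hs : s ∈ Ico 0 R) (j : ι)
    (hA : ContinuousOn (fun p : ℝ × E d => A j p.1 p.2) (Ico 0 R ×ˢ sphere 0 1)) :
    Continuous fun x : Sph d => A j s x := by
  have h := (clamp_cont' hs hA).comp (f := fun x : Sph d => ((s, x) : ℝ × Sph d))
    (continuous_const.prodMk continuous_id)
  have h5 : cl s s = s := cl_eq ⟨hs.1, le_rfl⟩
  simpa only [Function.comp_def, h5] using h

lemma sig_pos : 0 < ((σ d) univ).toReal :=
  ENNReal.toReal_pos sigma_ne_zero (measure_ne_top _ _)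

lemma Mq_eq (hμ : IsFrameMeasure d μ) (j : ι)
    (hA : ContinuousOn (fun p : ℝ × E d => A j p.1 p.2) (Ico 0 R ×ˢ sphere 0 1)) {s : ℝ}
    (hs : s ∈ Ico 0 R) :
    √((∫ x : Sph d, A j s x ^ 2 ∂(σ d)) / ((σ d) univ).toReal) = Mq μ A j s := by
  unfold Mq
  have h1 := hμ.marg (fun x => A j s x ^ 2) ((A_sph hs j hA).pow 2)
  rw [← h1, mul_div_cancel_left₀ _ sig_pos.ne']

lemma splitEnergy_eq (hd : 1 ≤ d) (hμ : IsFrameMeasure d μ)
    (hA : ∀ j, ContinuousOn (fun p : ℝ × E d => A j p.1 p.2) (Ico 0 R ×ˢ sphere 0 1))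
    (hA0 : ∀ j, ∀ s ∈ Ico 0 R, ∀ x ∈ sphere (0 : E d) 1, 0 < A j s x) :
    splitEnergy R blk A =
      (σ d) univ * ∫⁻ s in Ioo 0 R, ENNReal.ofReal (cbar blk (Mq μ A) s ^ d) := by
  unfold splitEnergy
  congr 1
  refine setLIntegral_congr_fun measurableSet_Ioo fun s hs => ?_
  have hsm : s ∈ Ico 0 R := ⟨hs.1.le, hs.2⟩
  have h1 : ∏ i, √((∫ x : Sph d, A (blk i) s x ^ 2 ∂(σ d)) / ((σ d) univ).toReal) =
      ∏ i, Mq μ A (blk i) s := Finset.prod_congr rfl fun i _ => Mq_eq hμ _ (hA _) hsm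
  rw [h1, cbar_pow hd fun j => Mq_pos hμ j (hA j) (hA0 j) hsm]

end

/-- The theorem on the energy. -/
theorem main_energy [Fintype ι] (hd : 2 ≤ d)
    (hq : Splitting blk q) {R : ℝ} (hR0 : 0 < R) (hR : R ≤ π / 2) {m : Met d}
    (hm : Good R m) (hF : Fermi R m) (hS : NonShort R m) {A : ι → ℝ → E d → ℝ}
    (hA : ∀ j, ContinuousOn (fun p : ℝ × E d => A j p.1 p.2) (Ico 0 R ×ˢ sphere 0 1))
    (hA0 : ∀ j, ∀ s ∈ Ico 0 R, ∀ x ∈ sphere (0 : E d) 1, 0 < A j s x)
    (hg : ∀ s ∈ Ico 0 R, ∀ x ∈ sphere (0 : E d) 1, ∀ v : E d, inner ℝ x v = 0 →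
      quad (m.g s x) v = ∑ j, A j s x ^ 2 * q j x v) :
    hemiCollar d R ≤ splitEnergy R blk A ∧
      (splitEnergy R blk A = hemiCollar d R ↔ IsRound R m) := by
  obtain ⟨μ, hμ⟩ := Pool.Agent.Y502.HC.t_FRAME d
  have := hμ.prob
  have hd1 : 1 ≤ d := by omega
  have ha : ∀ j, ContinuousOn (Mq μ A j) (Ico 0 R) := fun j => Mq_cont j (hA j)
  have ha0 : ∀ j, ∀ s ∈ Ico 0 R, 0 < Mq μ A j s := fun j s hs => Mq_pos hμ j (hA j) (hA0 j) hs
  have hv := splitEnergy_eq (blk := blk) hd1 hμ hA hA0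
  have hc := Pool.Agent.L7h17.CS.s_CHAIN d hd R hR0 hR (fun s => cbar blk (Mq μ A) s ^ d)
    ((cbar_cont ha ha0).pow d) (fun s hs => pow_nonneg (cbar_pos _ _).le _)
    (fun α hα => one_alpha2 hd hμ hq hR hF hS hA hA0 hg hα)
  refine ⟨?_, fun h => ?_, fun h => ?_⟩
  · rw [hv]
    unfold hemiCollar
    exact mul_le_mul_right hc.1 _
  · rw [hv, hemiCollar] at h
    have h1 := (ENNReal.mul_right_inj sigma_ne_zero (measure_ne_top _ _)).1 h
    refine rigid2 hd hμ hq hR0 hR hm hF hS hA hA0 hg fun s hs => ?_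
    have h2 := hc.2 h1 s hs
    have hcos : 0 ≤ Real.cos s := Real.cos_nonneg_of_mem_Icc
      ⟨by linarith [hs.1, Real.pi_pos], by linarith [hs.2]⟩
    exact (pow_left_inj₀ (cbar_pos _ _).le hcos (by omega)).1 h2
  · rw [hv, hemiCollar, ofReal_int hR0 hR]
    congr 1
    refine setLIntegral_congr_fun measurableSet_Ioo fun s hs => ?_
    have hsm : s ∈ Ico 0 R := ⟨hs.1.le, hs.2⟩
    have hcos : 0 ≤ Real.cos s := Real.cos_nonneg_of_mem_Icc
      ⟨by linarith [hs.1, Real.pi_pos], by linarith [hs.2]⟩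
    rw [cbar_pow hd1 fun j => ha0 j s hsm]
    have h1 : ∀ (i : Fin d) (x : Sph d), A (blk i) s x = Real.cos s := by
      intro i x
      obtain ⟨b, hb, hxb, hbq⟩ := hq.frame x x.2
      have h2 := h s hsm x x.2 0 (b i) (hxb i)
      have hma := hF s hsm x x.2
      unfold Met.sq at h2
      rw [hg s hsm x x.2 (b i) (hxb i), hb.norm_eq_one i] at h2
      have h3 : ∑ j, A j s x ^ 2 * q j x (b i) = A (blk i) s x ^ 2 := by
        have h4 : ∀ j, q j x (b i) = if blk i = j then 1 else 0 := by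
          intro j
          rw [hbq j (b i) (hxb i), Finset.sum_eq_single i]
          · rw [real_inner_self_eq_norm_sq, hb.norm_eq_one i]
            simp
          · intro k _ hk
            rw [hb.inner_eq_zero hk]
            simp
          · intro hcon
            exact absurd (Finset.mem_univ _) hcon
        simp only [h4, mul_ite, mul_one, mul_zero]
        rw [Finset.sum_ite_eq, if_pos (Finset.mem_univ _)]
      rw [h3] at h2
      have h5 : A (blk i) s x ^ 2 = Real.cos s ^ 2 := by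
        have e : m.a s x * (0 : ℝ) ^ 2 + 2 * 0 * inner ℝ (m.β s x) (b i) + A (blk i) s x ^ 2 =
          A (blk i) s x ^ 2 := by ring
        linarith
      exact (sq_eq_sq₀ (hA0 _ s hsm x x.2).le hcos).1 h5
    have h2 : ∀ i : Fin d, Mq μ A (blk i) s = Real.cos s := by
      intro i
      unfold Mq
      simp only [h1]
      rw [integral_const]
      simp only [probReal_univ, one_smul]
      exact Real.sqrt_sq hcos
    simp only [h2]
    rw [Finset.prod_const, Finset.card_univ, Fintype.card_fin]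

lemma sqrt_det2 [Fintype ι] (hq : Splitting blk q) {R : ℝ} {m : Met d}
    (hm : Good R m) {A : ι → ℝ → E d → ℝ}
    (hA0 : ∀ j, ∀ s ∈ Ico 0 R, ∀ x ∈ sphere (0 : E d) 1, 0 < A j s x)
    (hg : ∀ s ∈ Ico 0 R, ∀ x ∈ sphere (0 : E d) 1, ∀ v : E d, inner ℝ x v = 0 →
      quad (m.g s x) v = ∑ j, A j s x ^ 2 * q j x v)
    {s : ℝ} (hs : s ∈ Ico 0 R) (x : Sph d) :
    √(detTan (m.g s x) x) = ∏ i, A (blk i) s x := by
  obtain ⟨b, hb, hxb, hbq⟩ := hq.frame x x.2
  have hx1 : ‖(x : E d)‖ = 1 := mem_sphere_zero_iff_norm.1 x.2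
  have h1 := det_frame (m.g s x) (hm.symm s hs x x.2) x hx1 b hb hxb
    (fun i => A (blk i) s x ^ 2) (fun v hv => by
      rw [hg s hs x x.2 v hv]
      have e1 : ∀ j, A j s x ^ 2 * q j x v =
          ∑ i, if blk i = j then A (blk i) s x ^ 2 * inner ℝ (b i) v ^ 2 else 0 := by
        intro j
        rw [hbq j v hv, Finset.mul_sum]
        refine Finset.sum_congr rfl fun i _ => ?_
        by_cases hij : blk i = j
        · rw [if_pos hij, if_pos hij, hij]
        · rw [if_neg hij, if_neg hij, mul_zero]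
      simp only [e1]
      rw [Finset.sum_comm]
      refine Finset.sum_congr rfl fun i _ => ?_
      rw [Finset.sum_ite_eq, if_pos (Finset.mem_univ _)])
  rw [h1, Finset.prod_pow]
  exact Real.sqrt_sq (Finset.prod_nonneg fun i _ => (hA0 _ s hs x x.2).le)

/-- The volume in terms of the means. -/
lemma vol_eq2 [Fintype ι] {μ : Measure (Fr d)} (hμ : IsFrameMeasure d μ)
    (hq : Splitting blk q) {R : ℝ} {m : Met d}
    (hm : Good R m) {A : ι → ℝ → E d → ℝ}
    (hA : ∀ j, ContinuousOn (fun p : ℝ × E d => A j p.1 p.2) (Ico 0 R ×ˢ sphere 0 1))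
    (hA0 : ∀ j, ∀ s ∈ Ico 0 R, ∀ x ∈ sphere (0 : E d) 1, 0 < A j s x)
    (hg : ∀ s ∈ Ico 0 R, ∀ x ∈ sphere (0 : E d) 1, ∀ v : E d, inner ℝ x v = 0 →
      quad (m.g s x) v = ∑ j, A j s x ^ 2 * q j x v) :
    vol R m = (σ d) univ * ∫⁻ s in Ioo 0 R,
      ENNReal.ofReal (∫ b, ∏ i, A (blk i) s (vecF b 0) ∂μ) := by
  have := hμ.prob
  unfold vol
  rw [← lintegral_const_mul' _ _ (measure_ne_top _ _)]
  refine setLIntegral_congr_fun measurableSet_Ioo fun s hs => ?_
  have hsm : s ∈ Ico 0 R := ⟨hs.1.le, hs.2⟩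
  have hdc : Continuous fun x : Sph d => ∏ i, A (blk i) s x :=
    continuous_finsetProd _ fun i _ => A_sph hsm _ (hA _)
  have h6 := hμ.marg (fun x => ∏ i, A (blk i) s x) hdc
  have h7 : ∫⁻ x : Sph d, ENNReal.ofReal (√(detTan (m.g s x) x)) ∂(σ d) =
      ENNReal.ofReal (∫ x : Sph d, ∏ i, A (blk i) s x ∂(σ d)) := by
    rw [ofReal_integral_eq_lintegral_ofReal]
    · exact lintegral_congr fun x => by rw [sqrt_det2 hq hm hA0 hg hsm x]
    · have := hdc.continuousOn.integrableOn_compact (μ := σ d) (isCompact_univ)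
      rwa [integrableOn_univ] at this
    · exact Filter.Eventually.of_forall fun x =>
        Finset.prod_nonneg fun i _ => (hA0 _ s hsm x x.2).le
  simp only [h7]
  rw [← h6, ENNReal.ofReal_mul ENNReal.toReal_nonneg,
    ENNReal.ofReal_toReal (measure_ne_top _ _)]

/-- The inequality of the means of powers. -/
lemma power_mean {μ : Measure (Fr d)} (hμ : IsFrameMeasure d μ) {B : Fr d → ℝ}
    (hB : Continuous B) (hB0 : ∀ b, 0 < B b) {D p : ℝ} (hp0 : 0 ≤ p) (hpD : 2 * p ≤ D)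
    (hD : 0 < D) :
    √(∫ b, (B b ^ p) ^ 2 ∂μ) ≤ (∫ b, B b ^ D ∂μ) ^ (p / D) := by
  have := hμ.prob
  have hcD : Continuous fun b => B b ^ D := hB.rpow_const fun b => Or.inl (hB0 b).ne'
  have hcp : Continuous fun b => (B b ^ p) ^ 2 :=
    (hB.rpow_const fun b => Or.inl (hB0 b).ne').pow 2
  set M := ∫ b, B b ^ D ∂μ with hM
  have hM0 : 0 < M := by
    refine lt_of_le_of_ne (integral_nonneg fun b => (Real.rpow_pos_of_pos (hB0 b) _).le) ?_
    intro h
    obtain ⟨b, -⟩ := frame_one (e0 d) (by simp [e0])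
    have h3 := Pool.Agent.Y331.HC.t_POS d μ hμ _ hcD
      (fun b => (Real.rpow_pos_of_pos (hB0 b) _).le) h.symm b
    exact absurd h3 (Real.rpow_pos_of_pos (hB0 b) _).ne'
  set θ : ℝ := 2 * p / D with hθ
  have hθ0 : 0 ≤ θ := by positivity
  have hθ1 : θ ≤ 1 := (div_le_one hD).2 hpD
  have h1 : ∀ b, (B b ^ p) ^ 2 ≤ M ^ θ * (1 + θ * (B b ^ D / M - 1)) := by
    intro b
    have hb := hB0 b
    have h2 := rpow_one_add_le_one_add_mul_self (s := B b ^ D / M - 1) (by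
      have : 0 ≤ B b ^ D / M := by positivity
      linarith) hθ0 hθ1
    have h3 : 1 + (B b ^ D / M - 1) = B b ^ D / M := by ring
    rw [h3, Real.div_rpow (by positivity) hM0.le] at h2
    have h4 : (B b ^ D) ^ θ = (B b ^ p) ^ 2 := by
      rw [← Real.rpow_mul hb.le, ← Real.rpow_natCast (B b ^ p) 2, ← Real.rpow_mul hb.le]
      congr 1
      rw [hθ]
      field_simp
      push_cast
      ring
    rw [h4, div_le_iff₀ (by positivity)] at h2
    linarith
  have h2 : ∫ b, (B b ^ p) ^ 2 ∂μ ≤ M ^ θ := by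
    have hc1 : Continuous fun b => M ^ θ * (1 + θ * (B b ^ D / M - 1)) :=
      continuous_const.mul (continuous_const.add (continuous_const.mul
        ((hcD.div_const _).sub continuous_const)))
    refine (integral_mono (integ μ _ hcp) (integ μ _ hc1) h1).trans (le_of_eq ?_)
    have i1 : Integrable (fun b => B b ^ D / M) μ := integ μ _ (hcD.div_const _)
    have i2 : Integrable (fun _ : Fr d => (1 : ℝ)) μ := integrable_const _
    have i3 : Integrable (fun b => θ * (B b ^ D / M - 1)) μ := (i1.sub i2).const_mul _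
    rw [integral_const_mul, integral_add i2 i3, integral_const_mul, integral_sub i1 i2,
      integral_div, ← hM, div_self hM0.ne', integral_const]
    simp
  refine (Real.sqrt_le_sqrt h2).trans (le_of_eq ?_)
  rw [Real.sqrt_eq_rpow, ← Real.rpow_mul hM0.le]
  congr 1
  rw [hθ]
  field_simp

/-- The energy is at most the volume for powers. -/
lemma energy_le_vol {μ : Measure (Fr d)} (hμ : IsFrameMeasure d μ) {R : ℝ}
    {k : ι → ℝ → ℝ} {u : ℝ → E d → ℝ} {p : ι → ℝ}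
    (hk0 : ∀ j, ∀ s ∈ Ico 0 R, 0 < k j s)
    (hu : ContinuousOn (fun z : ℝ × E d => u z.1 z.2) (Ico 0 R ×ˢ sphere 0 1))
    (hu0 : ∀ s ∈ Ico 0 R, ∀ x ∈ sphere (0 : E d) 1, 0 < u s x)
    (hp : ∀ j, 0 ≤ p j ∧ 2 * p j ≤ ∑ i, p (blk i)) {s : ℝ} (hs : s ∈ Ico 0 R) :
    ∏ i, Mq μ (fun j s x => k j s * u s x ^ p j) (blk i) s ≤
      ∫ b, ∏ i, k (blk i) s * u s (vecF b 0) ^ p (blk i) ∂μ := by
  have := hμ.prob
  set B : Fr d → ℝ := fun b => u s (vecF b 0) with hBdef
  have hB : Continuous B := A_cont (A := fun (_ : Unit) => u) hs () hu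
  have hB0 : ∀ b, 0 < B b := fun b => hu0 s hs _ (vecF b 0).2
  set D : ℝ := ∑ i, p (blk i) with hD
  have hMq : ∀ i : Fin d, Mq μ (fun j s x => k j s * u s x ^ p j) (blk i) s =
      k (blk i) s * √(∫ b, (B b ^ p (blk i)) ^ 2 ∂μ) := by
    intro i
    unfold Mq
    have e : ∀ b : Fr d, (k (blk i) s * u s (vecF b 0) ^ p (blk i)) ^ 2 =
        k (blk i) s ^ 2 * (B b ^ p (blk i)) ^ 2 := fun b => by
      rw [mul_pow]
    simp only [e]
    rw [integral_const_mul, Real.sqrt_mul (sq_nonneg _), Real.sqrt_sq (hk0 _ s hs).le]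
  have hR : ∫ b, ∏ i, k (blk i) s * u s (vecF b 0) ^ p (blk i) ∂μ =
      (∏ i, k (blk i) s) * ∫ b, B b ^ D ∂μ := by
    have e : ∀ b : Fr d, ∏ i, k (blk i) s * u s (vecF b 0) ^ p (blk i) =
        (∏ i, k (blk i) s) * B b ^ D := by
      intro b
      rw [Finset.prod_mul_distrib, hD, Real.rpow_sum_of_pos (hB0 b)]
    simp only [e]
    rw [integral_const_mul]
  simp only [hMq]
  rw [hR, Finset.prod_mul_distrib]
  refine mul_le_mul_of_nonneg_left ?_ (Finset.prod_nonneg fun i _ => (hk0 _ s hs).le)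
  have hD0 : 0 ≤ D := Finset.sum_nonneg fun i _ => (hp _).1
  rcases hD0.eq_or_lt with h0 | h0
  · have hpi : ∀ i : Fin d, p (blk i) = 0 := by
      intro i
      have h1 := (hp (blk i)).2
      have h2 := (hp (blk i)).1
      linarith
    simp only [hpi, ← h0, Real.rpow_zero]
    simp
  · set M := ∫ b, B b ^ D ∂μ with hM
    have hcD : Continuous fun b => B b ^ D := hB.rpow_const fun b => Or.inl (hB0 b).ne'
    have hM0 : 0 < M := by
      refine lt_of_le_of_ne (integral_nonneg fun b => (Real.rpow_pos_of_pos (hB0 b) _).le) ?_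
      intro h
      obtain ⟨b, -⟩ := frame_one (e0 d) (by simp [e0])
      have h3 := Pool.Agent.Y331.HC.t_POS d μ hμ _ hcD
        (fun b => (Real.rpow_pos_of_pos (hB0 b) _).le) h.symm b
      exact absurd h3 (Real.rpow_pos_of_pos (hB0 b) _).ne'
    calc ∏ i, √(∫ b, (B b ^ p (blk i)) ^ 2 ∂μ) ≤ ∏ i, M ^ (p (blk i) / D) :=
          Finset.prod_le_prod (fun i _ => Real.sqrt_nonneg _)
            fun i _ => power_mean hμ hB hB0 (hp _).1 (hp _).2 h0
      _ = M := by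
          rw [← Real.rpow_sum_of_pos hM0, ← Finset.sum_div, ← hD, div_self h0.ne', Real.rpow_one]

/-- The theorem on the volume. -/
theorem main_volume [Fintype ι] (hd : 2 ≤ d)
    (hq : Splitting blk q) {R : ℝ} (hR0 : 0 < R) (hR : R ≤ π / 2) {m : Met d}
    (hm : Good R m) (hF : Fermi R m) (hS : NonShort R m)
    {k : ι → ℝ → ℝ} {u : ℝ → E d → ℝ} {p : ι → ℝ}
    (hk : ∀ j, ContinuousOn (k j) (Ico 0 R)) (hk0 : ∀ j, ∀ s ∈ Ico 0 R, 0 < k j s)
    (hu : ContinuousOn (fun z : ℝ × E d => u z.1 z.2) (Ico 0 R ×ˢ sphere 0 1))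
    (hu0 : ∀ s ∈ Ico 0 R, ∀ x ∈ sphere (0 : E d) 1, 0 < u s x)
    (hp : ∀ j, 0 ≤ p j ∧ 2 * p j ≤ ∑ i, p (blk i))
    (hg : ∀ s ∈ Ico 0 R, ∀ x ∈ sphere (0 : E d) 1, ∀ v : E d, inner ℝ x v = 0 →
      quad (m.g s x) v = ∑ j, (k j s * u s x ^ p j) ^ 2 * q j x v) :
    hemiCollar d R ≤ vol R m ∧ (vol R m = hemiCollar d R ↔ IsRound R m) := by
  obtain ⟨μ, hμ⟩ := Pool.Agent.Y502.HC.t_FRAME d
  have := hμ.prob
  have hd1 : 1 ≤ d := by omega
  set A : ι → ℝ → E d → ℝ := fun j s x => k j s * u s x ^ p j with hAdef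
  have hA : ∀ j, ContinuousOn (fun z : ℝ × E d => A j z.1 z.2) (Ico 0 R ×ˢ sphere 0 1) := by
    intro j
    have h1 : ContinuousOn (fun z : ℝ × E d => k j z.1) (Ico 0 R ×ˢ sphere 0 1) :=
      (hk j).comp continuousOn_fst fun z hz => hz.1
    have h2 : ContinuousOn (fun z : ℝ × E d => u z.1 z.2 ^ p j) (Ico 0 R ×ˢ sphere 0 1) :=
      hu.rpow_const fun z hz => Or.inl (hu0 z.1 hz.1 z.2 hz.2).ne'
    exact h1.mul h2
  have hA0 : ∀ j, ∀ s ∈ Ico 0 R, ∀ x ∈ sphere (0 : E d) 1, 0 < A j s x := fun j s hs x hx =>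
    mul_pos (hk0 j s hs) (Real.rpow_pos_of_pos (hu0 s hs x hx) _)
  have hE := main_energy hd hq hR0 hR hm hF hS hA hA0 hg
  have hle : splitEnergy R blk A ≤ vol R m := by
    rw [splitEnergy_eq (blk := blk) hd1 hμ hA hA0, vol_eq2 hμ hq hm hA hA0 hg]
    refine mul_le_mul_right (setLIntegral_mono' measurableSet_Ioo fun s hs => ?_) _
    have hsm : s ∈ Ico 0 R := ⟨hs.1.le, hs.2⟩
    refine ENNReal.ofReal_le_ofReal ?_
    rw [cbar_pow hd1 fun j => Mq_pos hμ j (hA j) (hA0 j) hsm]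
    exact energy_le_vol hμ hk0 hu hu0 hp hsm
  refine ⟨hE.1.trans hle, fun h => ?_, fun h => ?_⟩
  · exact hE.2.1 (le_antisymm (hle.trans h.le) hE.1)
  · have hD := Pool.Agent.Y888.HC.t_DET
    rw [vol_eq_energy hD hd hm (k := fun s _ => Real.cos s) (fun s hs x hx v hv => by
      have h1 := h s ⟨hs.1.le, hs.2⟩ x hx 0 v hv
      simpa [Met.sq] using h1)]
    exact energy_of_isRound hD hd hR0 hR hm h

end Pool.Agent.L7h41.CS
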